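import Pool.Agent.P.MP_40718a_co.Emb

/-! Tables stored in search trees, and faster forms of two checks. -/

namespace Pool.Agent.P.MP_40718a_co

/-- Search trees of packed blocks. -/
inductive BT : Type
  | l (s n : ℕ) : BT
  | b (p : ℕ) (x y : BT) : BT

/-- Entry `i` of the table, with entries of `w` bits. -/
noncomputable def BT.get (t : BT) (w i : ℕ) : ℕ :=
  BT.rec (fun s n => dig n w (Nat.sub i s)) (fun p _ _ x y => Bool.rec x y (Nat.ble p i)) t

/-- A faster form of `chk`. -/
noncomputable def chk2 (full : ℕ) (test : List ℕ → Bool) (r : ℕ) :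
    List ℕ → ℕ → ℕ → List ℕ → Bool :=
  Nat.rec (motive := fun _ => List ℕ → ℕ → ℕ → List ℕ → Bool)
    (fun _ _ t acc => Bool.rec true (test acc) (Nat.beq (Nat.land t full) full))
    (fun _ ih P o t acc => List.rec true (fun c P' ihP =>
      an (Bool.rec true (force (Nat.lor o c) fun o' => force (Nat.lor t (Nat.land o c)) fun t' =>
        ih (c :: P') o' t' (c :: acc))
        (Nat.beq (Nat.land (Nat.land t c) full) (nat_lit 0))) ihP) P) r

lemma chk2_eq (full : ℕ) (test : List ℕ → Bool) (r : ℕ) : ∀ P o t acc,
    chk2 full test r P o t acc = chk full test r P o t acc := by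
  induction r with
  | zero =>
    intro P o t acc
    change Bool.rec true (test acc) (Nat.beq (t &&& full) full) =
      (!Nat.beq (t &&& full) full || test acc)
    cases Nat.beq (t &&& full) full <;> rfl
  | succ r ih =>
    intro P o t acc
    induction P with
    | nil => rfl
    | cons c P ihP =>
      change an (Bool.rec true (force (o ||| c) fun o' => force (t ||| o &&& c) fun t' =>
        chk2 full test r (c :: P) o' t' (c :: acc)) (Nat.beq (t &&& c &&& full) 0))
        (chk2 full test (r + 1) P o t acc) = ((!Nat.beq (t &&& c &&& full) 0 ||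
          chk full test r (c :: P) (o ||| c) (t ||| o &&& c) (c :: acc)) &&
          chk full test (r + 1) P o t acc)
      rw [force_eq, force_eq, ih, ihP]
      cases Nat.beq (t &&& c &&& full) 0 <;>
        cases chk full test r (c :: P) (o ||| c) (t ||| o &&& c) (c :: acc) <;> rfl

lemma chk_of {full full' : ℕ} {test : List ℕ → Bool} {P P' : List ℕ}
    (h1 : (Nat.beq full full' && P == P') = true) (h2 : chk2 full' test 6 P' 0 0 [] = true) :
    chk full test 6 P 0 0 [] = true := by
  rw [Bool.and_eq_true, Nat.beq_eq, beq_iff_eq] at h1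
  rw [h1.1, h1.2, ← chk2_eq, h2]

/-- The first end is inside and the second is not. -/
noncomputable def lv (Z : ℕ) (e : ℕ × ℕ) : Bool :=
  Nat.blt (Nat.mod (Nat.shiftRight Z e.2) (nat_lit 2)) (Nat.mod (Nat.shiftRight Z e.1) (nat_lit 2))

lemma lv_eq (Z : ℕ) (e : ℕ × ℕ) : lv Z e = (Z.testBit e.1 && !Z.testBit e.2) := by
  change Nat.blt (Z >>> e.2 % 2) (Z >>> e.1 % 2) = _
  simp only [Nat.testBit_eq_decide_div_mod_eq, Nat.shiftRight_eq_div_pow]
  rcases Nat.mod_two_eq_zero_or_one (Z / 2 ^ e.1) with a | a <;>
    rcases Nat.mod_two_eq_zero_or_one (Z / 2 ^ e.2) with b | b <;> rw [a, b] <;> rfl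

/-- At least two entries pass. -/
noncomputable def two {α : Type} (f : α → Bool) (L : List α) : Bool :=
  List.rec false (fun e L' ih =>
    Bool.rec ih (List.rec false (fun e _ ih => Bool.rec ih true (f e)) L') (f e)) L

lemma two_spec {α : Type} {f : α → Bool} : ∀ {L : List α}, two f L = true → 2 ≤ L.countP f := by
  have key : ∀ L : List α, List.rec false (fun e _ ih => Bool.rec ih true (f e)) L = true →
      1 ≤ L.countP f := by
    intro L
    induction L with
    | nil => simp
    | cons e L ih => cases h : f e <;> simp_all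
  intro L
  induction L with
  | nil => simp [two]
  | cons e L ih =>
    intro h
    change Bool.rec (two f L) _ (f e) = true at h
    cases c : f e <;> rw [c] at h
    · simpa [c] using ih h
    · simpa [c] using key L h

lemma cntB_eq_countP (f : ℕ → Bool) (n : ℕ) : cntB f n = (List.range n).countP f := by
  induction n with
  | zero => rfl
  | succ n ih =>
    change (bif f n then cntB f n + 1 else cntB f n) = _
    rw [List.range_succ, List.countP_append, ih]
    cases h : f n <;> simp [h]

lemma safe2_of {k n : ℕ} {ι : ℕ → ℕ} {ok : ℕ → ℕ → Bool} {L : List (ℕ × ℕ)}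
    (h1 : (L == (List.range (k + 3 * n)).map fun p => (bif Nat.blt p k then p else k + (p - k) / 3,
      bif Nat.blt (ι p) k then ι p else k + (ι p - k) / 3)) = true)
    (h2 : allB (fun Z => Bool.rec (force (cntB (fun p => inside k Z p && !inside k Z (ι p))
      (k + 3 * n)) fun c => Nat.ble 2 c || ok (1 - c) (Z % 2 ^ k)) true (two (lv Z) L))
      (2 ^ (k + n)) = true) : safe2 k n ι ok = true := by
  refine allB_spec.2 fun Z hZ => ?_
  have := allB_spec.1 h2 Z hZ
  cases c : two (lv Z) L <;> rw [c] at this
  · exact this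
  · have := two_spec c
    rw [beq_iff_eq.1 h1, List.countP_map] at this
    rw [force_eq, Bool.or_eq_true, Nat.ble_eq, cntB_eq_countP]
    exact Or.inl (this.trans_eq (List.countP_congr fun p _ => by simp [lv_eq, inside]))

end Pool.Agent.P.MP_40718a_co
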