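import Pool.Agent.P.MP_40718a_co.Sw

/-! The forbidden graphs. -/

namespace Pool.Agent.P.MP_40718a_co

/-- edge list -/
def c3E : List (ℕ × ℕ) := [(0, 1), (1, 2), (2, 0)]

/-- edge list -/
def c4E : List (ℕ × ℕ) := [(0, 1), (1, 2), (2, 3), (3, 0)]

/-- edge list -/
def t233E : List (ℕ × ℕ) := [(0, 2), (2, 1), (0, 3), (3, 4), (4, 1), (0, 5), (5, 6), (6, 1)]

/-- edge list -/
def t144E : List (ℕ × ℕ) := [(0, 1), (0, 2), (2, 3), (3, 4), (4, 1), (0, 5), (5, 6), (6, 7), (7, 1)]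

/-- edge list -/
def t234E : List (ℕ × ℕ) := [(0, 2), (2, 1), (0, 3), (3, 4), (4, 1), (0, 5), (5, 6), (6, 7), (7, 1)]

/-- edge list -/
def t333E : List (ℕ × ℕ) := [(0, 2), (2, 3), (3, 1), (0, 4), (4, 5), (5, 1), (0, 6), (6, 7), (7, 1)]

/-- edge list -/
def t244E : List (ℕ × ℕ) := [(0, 2), (2, 1), (0, 3), (3, 4), (4, 5), (5, 1), (0, 6), (6, 7), (7, 8), (8, 1)]

/-- edge list -/
def t334E : List (ℕ × ℕ) := [(0, 2), (2, 3), (3, 1), (0, 4), (4, 5), (5, 1), (0, 6), (6, 7), (7, 8), (8, 1)]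

/-- edge list -/
def t344E : List (ℕ × ℕ) := [(0, 2), (2, 3), (3, 1), (0, 4), (4, 5), (5, 6), (6, 1), (0, 7), (7, 8), (8, 9), (9, 1)]

/-- What is known about a smallest counterexample. -/
structure DG.Min {V : Type} [Fintype V] (G : DG V) : Prop where
  multi : G.NoMulti
  small : DG.Small (Fintype.card V)
  nocover : ¬ G.Cover
  lev : G.Lev 4

end Pool.Agent.P.MP_40718a_co
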