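import Pool.Agent.P.MP_40718a_co.CutCert
import Pool.Agent.P.MP_40718a_co.Graphs

/-! A smallest counterexample is simple and has no small nontrivial cut. -/

namespace Pool.Agent.P.MP_40718a_co

namespace DG
variable {V : Type} [Fintype V] {G : DG V}

lemma noLoop (hB : G.Bridgeless) (d : V × Fin 3) : (G.σ d).1 ≠ d.1 := by
  obtain ⟨v, i⟩ := d
  intro h
  have e : G.σ (v, i) = (v, (G.σ (v, i)).2) := Prod.ext h rfl
  generalize (G.σ (v, i)).2 = j at e
  have e' : G.σ (v, j) = (v, i) := by rw [← e, G.inv]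
  have hij : i ≠ j := by rintro rfl; exact G.ne _ e
  have : ∀ x y : Fin 3, x ≠ y → ∃ z, z ≠ x ∧ z ≠ y ∧ ∀ w, w = x ∨ w = y ∨ w = z := by decide
  obtain ⟨l, h1, h2, h3⟩ := this i j hij
  refine hB {v} ?_
  rw [cut_eq_ncard, Set.ncard_eq_one]
  refine ⟨(v, l), Set.ext ?_⟩
  rintro ⟨w, x⟩
  simp only [Set.mem_singleton_iff, Set.mem_ofPred_eq, Prod.mk.injEq]
  constructor
  · rintro ⟨rfl, h'⟩
    rcases h3 x with rfl | rfl | rfl
    · exact absurd (congrArg Prod.fst e) h'
    · exact absurd (congrArg Prod.fst e') h'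
    · exact ⟨rfl, rfl⟩
  · rintro ⟨rfl, rfl⟩
    refine ⟨rfl, fun h => ?_⟩
    have f : G.σ (w, x) = (w, (G.σ (w, x)).2) := Prod.ext h rfl
    rcases h3 (G.σ (w, x)).2 with c | c | c <;> rw [c] at f
    · have := congrArg G.σ f
      rw [G.inv, e] at this
      exact h2 (congrArg Prod.snd this)
    · have := congrArg G.σ f
      rw [G.inv, e'] at this
      exact h1 (congrArg Prod.snd this)
    · exact G.ne _ f

section
variable [Nonempty V] (hB : G.Bridgeless) (IH : Small (Fintype.card V)) (hC : ¬ G.Cover)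
include hB

omit [Nonempty V] in
lemma lev1 : G.Lev 1 := fun X h => by have := hB X; omega

include IH hC

lemma conn (X : Set V) (h : G.cut X = 0) : X = ∅ ∨ X = Set.univ := by
  by_contra hc
  obtain ⟨β, hP⟩ := G.exists_pole X
  rw [h] at hP
  rw [not_or, ← ne_eq, ← Set.nonempty_iff_ne_empty, ← ne_eq, ← Set.nonempty_compl,
    ← Set.ncard_pos, ← Set.ncard_pos] at hc
  exact hC (hP.twosided sw0 blk0_ok cov0_ok (lev1 hB) (by simp) IH hc (by omega))

lemma lev2 : G.Lev 2 := by
  intro X h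
  by_contra hc
  have := hB X
  have e : G.cut X = 2 := by omega
  obtain ⟨β, hP⟩ := G.exists_pole X
  rw [e] at hP
  have h1 : 0 < X.ncard := (Set.ncard_pos).2 ⟨_, hP.mem 0 (by omega)⟩
  have h2 : 0 < Xᶜ.ncard := (Set.ncard_pos).2 ⟨_, hP.out 0 (by omega)⟩
  exact hC (hP.twosided sw2 blk2_ok cov2_ok (lev1 hB) (by simp) IH ⟨h1, h2⟩ (by omega))

lemma lev3 : G.Lev 3 := by
  intro X h
  by_contra hc
  have := lev2 hB IH hC X
  have e : G.cut X = 3 := by omega
  obtain ⟨β, hP⟩ := G.exists_pole X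
  rw [e] at hP
  exact hC (hP.twosided sw3 blk3_ok cov3_ok (lev2 hB IH hC) (by simp) IH (by omega) (by omega))

lemma lev4 : G.Lev 4 := by
  intro X h
  by_contra hc
  have h3 := lev3 hB IH hC
  have := h3 X
  have e : G.cut X = 4 := by omega
  obtain ⟨β, hP⟩ := G.exists_pole X
  rw [e] at hP
  have a1 := fun s t => hP.distinct h3 (conn hB IH hC) (by omega) (by omega) (s := s) (t := t)
  have a2 := fun s t => hP.compl.distinct h3 (conn hB IH hC) (by omega)
    (by rw [compl_compl]; omega) (s := s) (t := t)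
  refine hC (hP.twosided sw4 blk4_ok cov4_ok h3 ?_ IH (by omega) (by omega))
  simp [a1, a2]

lemma noMulti : G.NoMulti := by
  classical
  intro v i j h
  by_contra hij
  have hvw : (G.σ (v, i)).1 ≠ v := noLoop hB _
  obtain ⟨w, a, e1⟩ : ∃ w a, G.σ (v, i) = (w, a) := ⟨_, _, rfl⟩
  rw [e1] at h hvw
  change w ≠ v at hvw
  obtain ⟨b, e2⟩ : ∃ b, G.σ (v, j) = (w, b) := ⟨(G.σ (v, j)).2, Prod.ext h.symm rfl⟩
  have e1' : G.σ (w, a) = (v, i) := by rw [← e1, G.inv]
  have e2' : G.σ (w, b) = (v, j) := by rw [← e2, G.inv]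
  have hab : a ≠ b := by
    rintro rfl
    exact hij (congrArg Prod.snd (e1'.symm.trans e2'))
  have : ∀ x y : Fin 3, x ≠ y → ∃ z, ∀ w, w = x ∨ w = y ∨ w = z := by decide
  obtain ⟨l, hl⟩ := this i j hij
  obtain ⟨l', hl'⟩ := this a b hab
  have h2 : G.cut {v, w} ≤ 2 := by
    rw [cut_eq_ncard]
    refine (Set.ncard_le_ncard (t := {(v, l), (w, l')}) ?_).trans
      ((Set.ncard_insert_le _ _).trans (by simp))
    rintro ⟨u, x⟩ ⟨rfl | rfl, h1⟩
    · rcases hl x with rfl | rfl | rfl
      · simp [e1] at h1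
      · simp [e2] at h1
      · simp
    · rcases hl' x with rfl | rfl | rfl
      · simp [e1'] at h1
      · simp [e2'] at h1
      · simp
  have h3 : ({v, w} : Set V) = Set.univ := by
    have h4 := Set.ncard_pair hvw.symm
    rcases lev2 hB IH hC _ h2 with h | h | h
    · exact (conn hB IH hC _ h).resolve_left (Set.insert_nonempty _ _).ne_empty
    · omega
    · rw [← Set.compl_empty_iff, ← Set.ncard_eq_zero]; omega
  have h4 : ∀ u, u = v ∨ u = w := fun u => by simpa using (h3 ▸ Set.mem_univ u : u ∈ ({v, w} : Set V))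
  have h5 : ∀ c, G.σ (v, c) = (w, (G.σ (v, c)).2) := fun c =>
    Prod.ext ((h4 _).resolve_left (noLoop hB _)) rfl
  have h6 : ∀ c, G.σ (w, c) = (v, (G.σ (w, c)).2) := fun c =>
    Prod.ext ((h4 _).resolve_right (noLoop hB _)) rfl
  have h7 : ∀ c x, (G.σ (v, c)).2 = x ↔ c = (G.σ (w, x)).2 := by
    intro c x
    constructor
    · rintro rfl; rw [← h5, G.inv]
    · rintro rfl; rw [← h6, G.inv]
  let M : Fin 3 → V → Fin 3 := fun c u => if u = v then c else (G.σ (v, c)).2
  refine hC ⟨[0, 0, 1, 1, 2, 2].map M, rfl, ?_, ?_⟩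
  · intro m hm
    obtain ⟨c, -, rfl⟩ := List.mem_map.1 hm
    rintro ⟨u, x⟩ hd
    rcases h4 u with rfl | rfl
    · simp only [M, if_true] at hd
      rw [h5]; simp only [M, hd, hvw, if_false]
    · simp only [M, show u ≠ v from hvw, if_false, h7] at hd
      rw [h6]; simp only [M, if_true, hd]
  · rintro ⟨u, x⟩
    have key : ∀ y : Fin 3, ([0, 0, 1, 1, 2, 2] : List (Fin 3)).countP (fun c => decide (c = y)) = 2 := by
      decide
    rw [List.countP_map]
    rcases h4 u with rfl | rfl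
    · refine Eq.trans ?_ (key x)
      exact List.countP_congr fun c _ => by simp [M]
    · refine Eq.trans ?_ (key (G.σ (u, x)).2)
      exact List.countP_congr fun c _ => by simp [M, show u ≠ v from hvw, h7]

lemma min : G.Min := ⟨noMulti hB IH hC, IH, hC, lev4 hB IH hC⟩

end

theorem induct (H : ∀ (V : Type) [Fintype V] [Nonempty V] (G : DG V), G.Min → G.Bridgeless →
    (∀ X, G.cut X = 0 → X = ∅ ∨ X = Set.univ) → False) (N : ℕ) : Small N := by
  induction N with
  | zero => intro W _ G h; omega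
  | succ N ih =>
    intro W _ G h hB
    by_contra hC
    rcases isEmpty_or_nonempty W with hW | hW
    · exact hC ⟨List.replicate 6 isEmptyElim, rfl, fun _ _ d => isEmptyElim d,
        fun d => isEmptyElim d⟩
    · have IH : Small (Fintype.card W) := fun U _ K hK => ih U K (by omega)
      exact H W G (min hB IH hC) hB (conn hB IH hC)

end DG

end Pool.Agent.P.MP_40718a_co
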