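import Pool.Agent.P.MP_40718a_co.Config

/-! Decision trees that find a forbidden subgraph around a vertex. -/

namespace Pool.Agent.P.MP_40718a_co

/-- Case distinctions on equalities of vertices. -/
inductive DT : Type
  | leaf (w : List ℕ) : DT
  | br (u v : ℕ) (a b : DT) : DT

/-- Replace `v` by `u`. -/
def mp (u v : ℕ) (E : List (ℕ × ℕ)) : List (ℕ × ℕ) :=
  E.map fun e => (bif Nat.beq e.1 v then u else e.1, bif Nat.beq e.2 v then u else e.2)

/-- Several replacements. -/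
def mps : List (ℕ × ℕ) → List (ℕ × ℕ) → List (ℕ × ℕ)
  | [], E => E
  | p :: Q, E => mps Q (mp p.1 p.2 E)

/-- The unordered pair is listed. -/
def has (E : List (ℕ × ℕ)) (a b : ℕ) : Bool :=
  E.any fun e => (Nat.beq e.1 a && Nat.beq e.2 b) || (Nat.beq e.2 a && Nat.beq e.1 b)

/-- A contradiction or a forbidden subgraph. -/
noncomputable def leafOK (F : List (ℕ × List (ℕ × ℕ))) (w : List ℕ) (E D : List (ℕ × ℕ)) : Bool :=
  match w with
  | [] => D.any fun e => Nat.beq e.1 e.2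
  | i :: φ => match F[i]? with
    | none => false
    | some H => allB (fun u => allB (fun v => has D (φ.getD u 0) (φ.getD v 0)) u) H.1 &&
      H.2.all fun e => has E (φ.getD e.1 0) (φ.getD e.2 0)

/-- All branches close. -/
noncomputable def DT.ok (F : List (ℕ × List (ℕ × ℕ))) (T : DT) :
    List (ℕ × ℕ) → List (ℕ × ℕ) → Bool :=
  DT.rec (fun w => leafOK F w)
    (fun u v _ _ a b E D => a (mp u v E) (mp u v D) && b E ((u, v) :: D)) T

/-- Edges of a cycle. -/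
def cycE (s L : ℕ) : List (ℕ × ℕ) := (List.range L).map fun j => (s + j, s + (j + 1) % L)

/-- Pairs of vertices of a cycle. -/
def cycD (s L : ℕ) : List (ℕ × ℕ) :=
  (List.range L).flatMap fun j => (List.range j).map fun i => (s + i, s + j)

lemma mp_spec {V : Type} {f : ℕ → V} {r : V → V → Prop} {u v : ℕ} (h : f u = f v)
    {E : List (ℕ × ℕ)} (hE : ∀ e ∈ E, r (f e.1) (f e.2)) : ∀ e ∈ mp u v E, r (f e.1) (f e.2) := by
  intro e he
  obtain ⟨e, h1, rfl⟩ := List.mem_map.1 he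
  have key : ∀ x, f (bif Nat.beq x v then u else x) = f x := fun x => by
    cases c : Nat.beq x v
    · rfl
    · rw [cond_true, h, Nat.eq_of_beq_eq_true c]
  simpa only [key] using hE e h1

lemma mps_spec {V : Type} {f : ℕ → V} {r : V → V → Prop} : ∀ {Q E : List (ℕ × ℕ)},
    (∀ p ∈ Q, f p.1 = f p.2) → (∀ e ∈ E, r (f e.1) (f e.2)) → ∀ e ∈ mps Q E, r (f e.1) (f e.2)
  | [], _, _, h => h
  | _ :: Q, _, h1, h => mps_spec (Q := Q) (fun p hp => h1 p (List.mem_cons_of_mem _ hp))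
    (mp_spec (h1 _ List.mem_cons_self) h)

lemma has_spec {V : Type} {f : ℕ → V} {r : V → V → Prop} (hr : ∀ a b, r a b → r b a)
    {E : List (ℕ × ℕ)} (hE : ∀ e ∈ E, r (f e.1) (f e.2)) {a b : ℕ} (h : has E a b = true) :
    r (f a) (f b) := by
  simp only [has, List.any_eq_true, Bool.or_eq_true, Bool.and_eq_true, Nat.beq_eq] at h
  obtain ⟨e, he, ⟨rfl, rfl⟩ | ⟨rfl, rfl⟩⟩ := h
  · exact hE e he
  · exact hr _ _ (hE e he)

namespace DG
variable {V : Type} {G : DG V}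

lemma tree {F : List (ℕ × List (ℕ × ℕ))} (hF : ∀ H ∈ F, ¬ G.Cont H) (f : ℕ → V) (T : DT) :
    ∀ E D, T.ok F E D = true → (∀ e ∈ E, G.Adj (f e.1) (f e.2)) → ¬ ∀ e ∈ D, f e.1 ≠ f e.2 := by
  induction T with
  | leaf w =>
    intro E D h hE hD
    change leafOK F w E D = true at h
    unfold leafOK at h
    split at h
    · obtain ⟨e, h1, h2⟩ := List.any_eq_true.1 h
      exact hD e h1 (by rw [Nat.eq_of_beq_eq_true h2])
    next i φ =>
    split at h
    · cases h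
    next H hH =>
    simp only [Bool.and_eq_true, allB_spec, List.all_eq_true] at h
    refine hF H (List.mem_of_getElem? hH) ⟨fun u => f (φ.getD u 0), fun u hu v hv e => ?_,
      fun e he => has_spec (r := G.Adj) (fun _ _ => Adj.symm) hE (h.2 e he)⟩
    rcases lt_trichotomy u v with c | c | c
    · exact absurd e.symm (has_spec (r := (· ≠ ·)) (fun _ _ => Ne.symm) hD (h.1 v hv u c))
    · exact c
    · exact absurd e (has_spec (r := (· ≠ ·)) (fun _ _ => Ne.symm) hD (h.1 u hu v c))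
  | br u v a b iha ihb =>
    intro E D h hE hD
    change (a.ok F _ _ && b.ok F _ _) = true at h
    rw [Bool.and_eq_true] at h
    by_cases c : f u = f v
    · exact iha _ _ h.1 (mp_spec c hE) (mp_spec (r := (· ≠ ·)) c hD)
    · exact ihb _ _ h.2 hE (List.forall_mem_cons.2 ⟨c, hD⟩)

lemma star_free : ¬ G.Cont (5, [(0, 1), (0, 2), (0, 3), (0, 4)]) := by
  rintro ⟨f, h1, h2⟩
  simp only [List.forall_mem_cons, Adj] at h2
  obtain ⟨⟨a, ha⟩, ⟨b, hb⟩, ⟨c, hc⟩, ⟨d, hd⟩, -⟩ := h2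
  have : ∀ a b c d : Fin 3, a = b ∨ a = c ∨ a = d ∨ b = c ∨ b = d ∨ c = d := by decide
  rcases this a b c d with rfl | rfl | rfl | rfl | rfl | rfl
  · simpa using h1 _ (by simp) _ (by simp) (ha.symm.trans hb)
  · simpa using h1 _ (by simp) _ (by simp) (ha.symm.trans hc)
  · simpa using h1 _ (by simp) _ (by simp) (ha.symm.trans hd)
  · simpa using h1 _ (by simp) _ (by simp) (hb.symm.trans hc)
  · simpa using h1 _ (by simp) _ (by simp) (hb.symm.trans hd)
  · simpa using h1 _ (by simp) _ (by simp) (hc.symm.trans hd)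

variable (G)

/-- A cycle of length `L` through `v` that starts towards `u` and returns from `w`. -/
def Cyc (v u w : V) (L : ℕ) : Prop := ∃ f : ℕ → V, (∀ a < L, ∀ b < L, f a = f b → a = b) ∧
  (∀ a, G.Adj (f a) (f (a + 1))) ∧ f 0 = v ∧ f L = v ∧ f 1 = u ∧ f (L - 1) = w

variable {G}

lemma cyc_spec {L : ℕ} {f g : ℕ → V} {s : ℕ} (h1 : ∀ a < L, ∀ b < L, f a = f b → a = b)
    (h2 : ∀ a, G.Adj (f a) (f (a + 1))) (h3 : f L = f 0) (hg : ∀ j < L, g (s + j) = f j) :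
    (∀ e ∈ cycE s L, G.Adj (g e.1) (g e.2)) ∧ ∀ e ∈ cycD s L, g e.1 ≠ g e.2 := by
  simp only [cycE, cycD, List.forall_mem_map, List.mem_range, List.forall_mem_flatMap]
  refine ⟨fun j hj => ?_, fun j hj i hi => ?_⟩
  · rw [hg j hj, hg _ (Nat.mod_lt _ (by omega))]
    by_cases c : j + 1 < L
    · rw [Nat.mod_eq_of_lt c]; exact h2 j
    · obtain rfl : L = j + 1 := by omega
      rw [Nat.mod_self, ← h3]; exact h2 j
  · rw [hg j hj, hg i (by omega)]
    exact fun e => hi.ne (h1 i (by omega) j hj e)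

lemma Cyc.ne {v x y : V} {L : ℕ} (h : G.Cyc v x y L) (hL : 3 ≤ L) : x ≠ y := by
  obtain ⟨f, a1, -, -, -, rfl, rfl⟩ := h
  intro e
  have := a1 _ (by omega) _ (by omega) e
  omega

lemma Cyc.two {F : List (ℕ × List (ℕ × ℕ))} (hF : ∀ H ∈ F, ¬ G.Cont H) {v x y z : V} {a b : ℕ}
    (ha : G.Cyc v x y a) (hb : G.Cyc v y z b) (hn : z ≠ x) (h : a ≤ 8) (T : DT) :
    T.ok F (mps [(0, 8), (a - 1, 9)] (cycE 0 a ++ cycE 8 b))
      (mps [(0, 8), (a - 1, 9)] ((8 + (b - 1), 1) :: (cycD 0 a ++ cycD 8 b))) = false := by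
  obtain ⟨f, a1, a2, a3, a4, a5, a6⟩ := ha
  obtain ⟨g, b1, b2, b3, b4, b5, b6⟩ := hb
  let u : ℕ → V := fun p => if p < 8 then f p else g (p - 8)
  have c1 := cyc_spec (g := u) (s := 0) a1 a2 (a4.trans a3.symm) fun j hj => by
    simp [u, show j < 8 by omega]
  have c2 := cyc_spec (g := u) (s := 8) b1 b2 (b4.trans b3.symm) fun j hj => by simp [u]
  have c3 : ∀ p ∈ [(0, 8), (a - 1, 9)], u p.1 = u p.2 := by
    simp [u, show a - 1 < 8 by omega, *]
  rw [← Bool.not_eq_true]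
  exact fun hT => tree hF u T _ _ hT (mps_spec c3 (List.forall_mem_append.2 ⟨c1.1, c2.1⟩))
    (mps_spec (r := (· ≠ ·)) c3 (List.forall_mem_cons.2
      ⟨by simpa [u, a5, b6] using hn, List.forall_mem_append.2 ⟨c1.2, c2.2⟩⟩))

lemma Cyc.three {F : List (ℕ × List (ℕ × ℕ))} (hF : ∀ H ∈ F, ¬ G.Cont H) {v x y z : V}
    {a b c : ℕ} (ha : G.Cyc v x y a) (hb : G.Cyc v y z b) (hc : G.Cyc v z x c)
    (h : a ≤ 8 ∧ b ≤ 8) (T : DT) :
    T.ok F (mps [(0, 8), (0, 16), (a - 1, 9), (8 + (b - 1), 17), (1, 16 + (c - 1))]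
        (cycE 0 a ++ (cycE 8 b ++ cycE 16 c)))
      (mps [(0, 8), (0, 16), (a - 1, 9), (8 + (b - 1), 17), (1, 16 + (c - 1))]
        (cycD 0 a ++ (cycD 8 b ++ cycD 16 c))) = false := by
  obtain ⟨f, a1, a2, a3, a4, a5, a6⟩ := ha
  obtain ⟨g, b1, b2, b3, b4, b5, b6⟩ := hb
  obtain ⟨e, d1, d2, d3, d4, d5, d6⟩ := hc
  let u : ℕ → V := fun p => if p < 8 then f p else if p < 16 then g (p - 8) else e (p - 16)
  have c1 := cyc_spec (g := u) (s := 0) a1 a2 (a4.trans a3.symm) fun j hj => by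
    simp [u, show j < 8 by omega]
  have c2 := cyc_spec (g := u) (s := 8) b1 b2 (b4.trans b3.symm) fun j hj => by
    simp [u, show 8 + j < 16 by omega]
  have c4 := cyc_spec (g := u) (s := 16) d1 d2 (d4.trans d3.symm) fun j hj => by
    simp [u, show ¬ 16 + j < 8 by omega]
  have c3 : ∀ p ∈ [(0, 8), (0, 16), (a - 1, 9), (8 + (b - 1), 17), (1, 16 + (c - 1))],
      u p.1 = u p.2 := by
    simp [u, show a - 1 < 8 by omega, show 8 + (b - 1) < 16 by omega,
      show ¬ 16 + (c - 1) < 8 by omega, *]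
  rw [← Bool.not_eq_true]
  exact fun hT => tree hF u T _ _ hT
    (mps_spec c3 (List.forall_mem_append.2 ⟨c1.1, List.forall_mem_append.2 ⟨c2.1, c4.1⟩⟩))
    (mps_spec (r := (· ≠ ·)) c3
      (List.forall_mem_append.2 ⟨c1.2, List.forall_mem_append.2 ⟨c2.2, c4.2⟩⟩))

end DG

end Pool.Agent.P.MP_40718a_co
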