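import Pool.Agent.P.MP_40718a_co.Orb
import Pool.Agent.P.MP_40718a_co.Tree
import Pool.Agent.P.MP_40718a_co.Levels

/-! The counting argument. -/

namespace Pool.Agent.P.MP_40718a_co

open Function

/-- Weight of a cycle length. -/
def wt (L : ℕ) : ℕ := 840 / min L 8

lemma wt_mul (L : ℕ) (h : 0 < L) : 840 ≤ L * wt L := by
  unfold wt
  by_cases c : L < 8
  · interval_cases L <;> simp
  · rw [min_eq_right (by omega)]; omega

lemma wt_le {L : ℕ} (h : 5 ≤ L) : wt L ≤ 168 := by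
  unfold wt
  by_cases c : L < 8
  · interval_cases L <;> simp
  · rw [min_eq_right (by omega)]; omega

lemma tri {I : Type} (l r : Fin 3 → I) (h0 : ∀ j, l j ≠ r j)
    (h : ∀ i, ((i = l 0 ∨ i = r 0) ↔ ¬ ((i = l 1 ∨ i = r 1) ↔ (i = l 2 ∨ i = r 2)))) :
    ∃ a b c, ((l 0 = a ∧ r 0 = c) ∨ (l 0 = c ∧ r 0 = a)) ∧
      ((l 1 = a ∧ r 1 = b) ∨ (l 1 = b ∧ r 1 = a)) ∧ ((l 2 = b ∧ r 2 = c) ∨ (l 2 = c ∧ r 2 = b)) := by
  have a0 := h0 0
  have a1 := h0 1
  have a2 := h0 2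
  have b0 := h (l 0)
  have b1 := h (r 0)
  have b2 := h (l 1)
  have b3 := h (r 1)
  have b4 := h (l 2)
  have b5 := h (r 2)
  by_cases c1 : l 0 = l 1
  · exact ⟨l 0, r 1, r 0, by grind⟩
  by_cases c2 : l 0 = r 1
  · exact ⟨l 0, l 1, r 0, by grind⟩
  by_cases c3 : r 0 = l 1
  · exact ⟨r 0, r 1, l 0, by grind⟩
  · exact ⟨r 0, l 1, l 0, by grind⟩

namespace DG
variable {V : Type} [Fintype V] {G : DG V}

lemma Cyc.five (hB : G.Bridgeless) (hM : G.NoMulti) (h3 : ¬ G.Cont (3, c3E))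
    (h4 : ¬ G.Cont (4, c4E)) {v : V} {i j : Fin 3} (hij : i ≠ j) {L : ℕ} (hL : 0 < L)
    (h : G.Cyc v (G.σ (v, i)).1 (G.σ (v, j)).1 L) : 5 ≤ L := by
  obtain ⟨f, a1, a2, a3, a4, a5, a6⟩ := h
  by_contra c
  have b := a3.trans a4.symm
  interval_cases L
  · exact noLoop hB (v, i) (a5.symm.trans a4)
  · exact hij (hM v i j (a5.symm.trans a6))
  · exact h3 ⟨f, a1, by simpa [c3E] using ⟨a2 0, a2 1, b ▸ a2 2⟩⟩
  · exact h4 ⟨f, a1, by simpa [c4E] using ⟨a2 0, a2 1, a2 2, b ▸ a2 3⟩⟩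

theorem count [Nonempty V] (hB : G.Bridgeless) (hM : G.NoMulti) (hc : G.Conn Set.univ) {g : ℕ}
    (hF : G.Fam (2 ^ g)) (h3 : ¬ G.Cont (3, c3E)) (h4 : ¬ G.Cont (4, c4E))
    (hw : ∀ v x y z a b c, G.Cyc v x y a → G.Cyc v y z b → G.Cyc v z x c → 5 ≤ a → 5 ≤ b →
      5 ≤ c → wt a + wt b + wt c ≤ 413) : Fintype.card V + 240 ≤ 120 * g := by
  classical
  obtain ⟨I, ℓ, r, φ, a1, a2⟩ := hF
  let P : V × Fin 3 → I → Prop := fun d i => ℓ d ≠ r d ∧ (i = ℓ d ∨ i = r d)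
  have hP : ∀ d i, (if i = ℓ d then (1 : ZMod 2) else 0) + (if i = r d then 1 else 0) =
      if P d i then 1 else 0 := by
    intro d i
    by_cases c1 : i = ℓ d <;> by_cases c2 : i = r d
    · rw [if_pos c1, if_pos c2, z2_self, if_neg fun h => h.1 (c1.symm.trans c2)]
    · rw [if_pos c1, if_neg c2, add_zero, if_pos ⟨c1 ▸ c2, Or.inl c1⟩]
    · rw [if_neg c1, if_pos c2, zero_add, if_pos ⟨fun h => c1 (c2.trans h.symm), Or.inr c2⟩]
    · rw [if_neg c1, if_neg c2, zero_add, if_neg fun h => h.2.elim c1 c2]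
  have hE : ∀ i, G.Ev fun d => if P d i then 1 else 0 := fun i => by
    simpa only [hP] using a1 fun j => if i = j then 1 else 0
  have p1 : ∀ d i, P d i → P (G.σ d) i := fun d i h => by
    have := (hE i).1 d
    by_contra c
    simp [h, c] at this
  have p2 : ∀ v i, (P (v, 0) i ↔ ¬ (P (v, 1) i ↔ P (v, 2) i)) := fun v i => by
    have := (hE i).2 v
    unfold bd at this
    revert this
    by_cases c0 : P (v, 0) i <;> by_cases c1 : P (v, 1) i <;> by_cases c2 : P (v, 2) i <;>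
      simp only [c0, c1, c2, if_true, if_false] <;> decide
  have p3 : ∀ x : {x : (V × Fin 3) × I // P x.1 x.2}, ∃ j, j ≠ x.1.1.2 ∧ P (x.1.1.1, j) x.1.2 ∧
      ∀ j', P (x.1.1.1, j') x.1.2 → j' = x.1.1.2 ∨ j' = j := by
    rintro ⟨⟨⟨v, j⟩, i⟩, h⟩
    have := p2 v i
    simp only [Fin.exists_fin_succ, Fin.forall_fin_succ]
    fin_cases j <;> simp at h ⊢ <;> tauto
  choose o o1 o2 o3 using p3
  let X := {x : (V × Fin 3) × I // P x.1 x.2}
  let s : X → X := fun x => ⟨(G.σ x.1.1, x.1.2), p1 _ _ x.2⟩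
  let t : X → X := fun x => ⟨((x.1.1.1, o x), x.1.2), o2 x⟩
  have hs : ∀ x, s (s x) = x := fun x => by simp [s, G.inv]
  have hs' : ∀ x, s x ≠ x := fun x h => G.ne x.1.1 (congrArg (·.1.1) h)
  have ht' : ∀ x, t x ≠ x := fun x h => o1 x (congrArg (·.1.1.2) h)
  have t1 : ∀ x y : X, y.1.1.1 = x.1.1.1 → y.1.2 = x.1.2 → y = x ∨ y = t x := by
    rintro x ⟨⟨⟨v, j⟩, i⟩, h⟩ rfl rfl
    rcases o3 x j h with rfl | rfl
    · exact Or.inl rfl
    · exact Or.inr rfl
  have ht : ∀ x, t (t x) = x := fun x =>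
    ((t1 (t x) x rfl rfl).resolve_left (ht' x).symm).symm
  let e : X → (V × Fin 3) × Bool := fun x => (x.1.1, decide (x.1.2 = ℓ x.1.1))
  have he : Injective e := by
    rintro ⟨⟨d, i⟩, h1, h2⟩ ⟨⟨d', i'⟩, h3, h4⟩ h
    simp only [e, Prod.mk.injEq, decide_eq_decide] at h
    obtain ⟨rfl, h⟩ := h
    obtain rfl : i = i' := by grind
    rfl
  have : Finite X := Finite.of_injective e he
  let _ := Fintype.ofFinite X
  let L : X → ℕ := minimalPeriod (t ∘ s)
  have c1 : ∀ x : X, G.Cyc x.1.1.1 (G.σ x.1.1).1 (G.σ (t x).1.1).1 (L x) := by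
    intro x
    have hx := nu_mem hs ht x
    have b1 : ∀ n, ((t ∘ s)^[n] x).1.2 = x.1.2 := by
      intro n
      induction n with
      | zero => rfl
      | succ n ih => rw [iterate_succ_apply']; exact ih
    have b2 : (t ∘ s)^[L x] x = x := isPeriodicPt_minimalPeriod _ _
    refine ⟨fun n => ((t ∘ s)^[n] x).1.1.1, fun a ha b hb h => ?_, fun a => ?_, rfl,
      by simp only [b2], rfl, ?_⟩
    · rcases t1 _ _ h ((b1 a).trans (b1 b).symm) with c | c
      · exact iterate_injOn_Iio_minimalPeriod ha hb c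
      · exact absurd c (nu_ne' hs ht hs' ht' _ _ _)
    · simp only [iterate_succ_apply']
      exact ⟨_, rfl⟩
    · obtain ⟨m, hm⟩ := Nat.exists_eq_succ_of_ne_zero
        (minimalPeriod_pos_of_mem_periodicPts hx).ne'
      rw [show L x = m + 1 from hm, iterate_succ_apply'] at b2
      have := congrArg (fun z => (s (t z)).1.1.1) b2
      simp only [comp_apply, hs, ht] at this
      simp only [show L x = m + 1 from hm, Nat.add_sub_cancel, this]
      rfl
  have c2 : ∀ x, 5 ≤ L x := fun x => Cyc.five hB hM h3 h4 (o1 x).symm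
    (minimalPeriod_pos_of_mem_periodicPts (nu_mem hs ht x)) (c1 x)
  let W : V × Fin 3 → I → ℕ := fun d i => if h : P d i then wt (L ⟨(d, i), h⟩) else 0
  have c3 : ∑ x, wt (L x) = ∑ p : (V × Fin 3) × Bool, W p.1 (bif p.2 then ℓ p.1 else r p.1) := by
    refine Fintype.sum_of_injective e he _ _ ?_ ?_
    · rintro ⟨d, b⟩ hb
      refine dif_neg fun h : P d (bif b then ℓ d else r d) => hb ⟨⟨(d, _), h⟩, ?_⟩
      cases b <;> simp [e, h.1.symm]
    · rintro ⟨⟨d, i⟩, h⟩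
      have : (bif decide (i = ℓ d) then ℓ d else r d) = i := by
        by_cases c : i = ℓ d
        · simp [c]
        · simpa [c] using (h.2.resolve_left c).symm
      simp only [e, W, this, h, dite_true]
  have c4 : ∀ d i, W d i ≤ 168 := fun d i => by
    simp only [W]
    split_ifs
    · exact wt_le (c2 _)
    · simp
  have c5 : ∀ v i j k (h : P (v, j) i), P (v, k) i → j ≠ k → W (v, k) i = W (v, j) i ∧
      ∃ a, 5 ≤ a ∧ W (v, j) i = wt a ∧ G.Cyc v (G.σ (v, j)).1 (G.σ (v, k)).1 a := by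
    intro v i j k h h' hjk
    have b1 : (⟨((v, k), i), h'⟩ : X) = t ⟨((v, j), i), h⟩ :=
      (t1 ⟨((v, j), i), h⟩ ⟨((v, k), i), h'⟩ rfl rfl).resolve_left fun c =>
        hjk (congrArg (·.1.1.2) c).symm
    have b2 := c1 ⟨((v, j), i), h⟩
    rw [← b1] at b2
    refine ⟨?_, _, c2 _, dif_pos h, b2⟩
    simp only [W, h, h', dite_true, b1, L, nu_per hs ht]
  have c6 : ∑ x, wt (L x) ≤ Fintype.card V * 826 := by
    rw [c3, Fintype.sum_prod_type, Fintype.sum_prod_type, ← smul_eq_mul, ← Finset.card_univ]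
    refine Finset.sum_le_card_nsmul _ _ _ fun v _ => ?_
    simp only [Fin.sum_univ_three, Fintype.sum_bool, cond_true, cond_false]
    by_cases b0 : ∀ j, ℓ (v, j) ≠ r (v, j)
    · obtain ⟨a, b, c, b1, b2, b3⟩ := tri (fun j => ℓ (v, j)) (fun j => r (v, j)) b0 fun i => by
        simpa [P, b0] using p2 v i
      have d1 := c5 v a 0 1 ⟨b0 _, by grind⟩ ⟨b0 _, by grind⟩ (by decide)
      have d2 := c5 v b 1 2 ⟨b0 _, by grind⟩ ⟨b0 _, by grind⟩ (by decide)
      have d3 := c5 v c 2 0 ⟨b0 _, by grind⟩ ⟨b0 _, by grind⟩ (by decide)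
      obtain ⟨d1, x, x1, x2, x3⟩ := d1
      obtain ⟨d2, y, y1, y2, y3⟩ := d2
      obtain ⟨d3, z, z1, z2, z3⟩ := d3
      have := hw _ _ _ _ _ _ _ x3 y3 z3 x1 y1 z1
      rcases b1 with b1 | b1 <;> rcases b2 with b2 | b2 <;> rcases b3 with b3 | b3 <;>
        rw [b1.1, b1.2, b2.1, b2.2, b3.1, b3.2] <;> omega
    · obtain ⟨j, hj⟩ := not_forall.1 b0
      have b1 : ∀ i, W (v, j) i = 0 := fun i => dif_neg fun h => hj h.1
      have := c4 (v, 0) (ℓ (v, 0))
      have := c4 (v, 0) (r (v, 0))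
      have := c4 (v, 1) (ℓ (v, 1))
      have := c4 (v, 1) (r (v, 1))
      have := c4 (v, 2) (ℓ (v, 2))
      have := c4 (v, 2) (r (v, 2))
      fin_cases j <;> simp only [Fin.zero_eta, Fin.mk_one, Fin.reduceFinMk] at b1 <;>
        rw [b1, b1] <;> omega
  let rel : X → X → Prop := fun x y => y = s x ∨ y = t x
  let _ := Fintype.ofFinite (Quot rel)
  have k1 : ∀ x, Quot.mk rel (s x) = Quot.mk rel x := fun x =>
    (Quot.sound (r := rel) (Or.inl rfl)).symm
  have k2 : ∀ x, Quot.mk rel (t x) = Quot.mk rel x := fun x =>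
    (Quot.sound (r := rel) (Or.inr rfl)).symm
  have c7 := (class_sum hs ht hs' ht' _ Quot.mk_surjective k1 k2 wt 840 wt_mul).trans c6
  let lab : Quot rel → I := Quot.lift (·.1.2) (by rintro x y (rfl | rfl) <;> rfl)
  let T : (Quot rel → ZMod 2) → V × Fin 3 → ZMod 2 := fun u d => if h : ℓ d ≠ r d then
    u (Quot.mk _ ⟨(d, ℓ d), h, Or.inl rfl⟩) + u (Quot.mk _ ⟨(d, r d), h, Or.inr rfl⟩) else 0
  obtain ⟨Q, q1, q2⟩ : ∃ Q : Quot rel → Prop, Nat.card {c // Q c} = Fintype.card (Quot rel) - 1 ∧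
      ∀ u : Quot rel → ZMod 2, ∃ a, ∀ c, ¬ Q c → u c = a := by
    rcases isEmpty_or_nonempty (Quot rel) with c | ⟨⟨c⟩⟩
    · exact ⟨fun _ => True, by simp, fun _ => ⟨0, by simp⟩⟩
    · exact ⟨(· ≠ c), by simp, fun u => ⟨u c, by simp⟩⟩
  obtain ⟨m, m1, m2⟩ := card_ev hc
  have c8 : Nat.card {x // G.Ev x} ≤ Nat.card (Fin (2 ^ g) × ({c // Q c} → ZMod 2)) := by
    let rep : Fin (2 ^ g) → V × Fin 3 → ZMod 2 := fun a =>
      if h : ∃ x, G.Ev x ∧ φ x = a then h.choose else 0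
    have b1 : ∀ x : {x // G.Ev x}, ∃ p : Fin (2 ^ g) × ({c // Q c} → ZMod 2),
        x.1 = fun d => rep p.1 d + T (fun c => if h : Q c then p.2 ⟨c, h⟩ else 0) d := by
      intro x
      have h : ∃ y, G.Ev y ∧ φ y = φ x.1 := ⟨x.1, x.2, rfl⟩
      obtain ⟨u, hu⟩ := a2 _ _ h.choose_spec.1 x.2 h.choose_spec.2
      obtain ⟨a, ha⟩ := q2 (u ∘ lab)
      refine ⟨(φ x.1, fun c => u (lab c) + a), funext fun d => ?_⟩
      have b2 : (fun c => if h : Q c then u (lab c) + a else 0) = fun c => u (lab c) + a := by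
        funext c
        by_cases b : Q c
        · exact dif_pos b
        · rw [dif_neg b, ← ha c b, comp_apply, z2_self]
      have b3 := hu d
      have b4 := z2_self a
      have b5 := z2_self (h.choose d)
      simp only [rep, h, dite_true, b2, T, lab]
      split_ifs with b
      · linear_combination b3 - b4 - b5
      · rw [not_not.1 b, z2_self] at b3
        linear_combination b3 - b5
    choose p hp using b1
    exact Nat.card_le_card_of_injective p fun x y h => Subtype.ext (by rw [hp x, hp y, h])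
  rw [m2, Nat.card_prod, Nat.card_fun, q1, Nat.card_zmod, Nat.card_eq_fintype_card,
    Fintype.card_fin, ← pow_add, Nat.pow_le_pow_iff_right (by norm_num)] at c8
  obtain ⟨v⟩ := ‹Nonempty V›
  have c9 := Fintype.card_le_of_injective _ (hM v)
  rw [Fintype.card_fin] at c9
  omega

end DG

end Pool.Agent.P.MP_40718a_co
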