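import Pool.Agent.P.MP_40718a_co.F567A
import Pool.Agent.P.MP_40718a_co.F567P0
import Pool.Agent.P.MP_40718a_co.F567P1
import Pool.Agent.P.MP_40718a_co.F567P2
import Pool.Agent.P.MP_40718a_co.F567P3
import Pool.Agent.P.MP_40718a_co.F567P4
import Pool.Agent.P.MP_40718a_co.F567P5
import Pool.Agent.P.MP_40718a_co.F567P6
import Pool.Agent.P.MP_40718a_co.F567P7

/-! Certificate. -/

namespace Pool.Agent.P.MP_40718a_co

theorem fp567X_ok : Cov ((Tab.mk 9 swN 70993 fp567X 14 fp567W).ckX (extC 9 (9 + 3 * 13) 130 fp567C)) 70993 :=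
  allI_step (allI_step (allI_step (allI_step (allI_step (allI_step (allI_step (allI_step (allI_step (allI_step (allI_step (allI_step (allI_step (allI_step (allI_step (allI_step (allI_step (allI_step (allI_step (allI_step (allI_step (allI_step (allI_step (allI_step (allI_step (allI_step (allI_step (allI_step (allI_step (allI_step (allI_step (allI_step (allI_step (allI_step (allI_step (allI_step (allI_step (allI_step (allI_step (allI_step (allI_step (allI_step (allI_step (allI_step (allI_step (allI_step (allI_step (allI_step (allI_step (allI_step (allI_step (allI_step (allI_step (allI_step (allI_step (allI_step (allI_step (allI_step (allI_step (allI_step (allI_step (allI_step (allI_step (allI_step (allI_step (allI_step (allI_step (allI_step (allI_step (allI_step (allI_step (allI_step (allI_step (allI_step (allI_step (allI_step (allI_step (allI_step (allI_step (allI_step (allI_step (allI_step (allI_step (allI_step (allI_step (allI_step (allI_step (allI_step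 (allI_step (allI_step (allI_step (allI_step (allI_step (allI_step (allI_step (allI_step (allI_step (allI_step (allI_step (allI_step (allI_step (allI_step (allI_step (allI_step (allI_step (allI_step (allI_step (allI_step (allI_step (allI_step (allI_step (allI_step (allI_step (allI_step (allI_step (allI_step (allI_step (allI_step (allI_step (allI_step (allI_step (allI_step (allI_step (allI_step (allI_step (allI_step (allI_step (allI_step (allI_step (allI_step (allI_step (allI_step (allI_step (allI_step (allI_step (allI_step (allI_step (allI_step (allI_step (allI_step (allI_step (allI_step (allI_step (allI_step (allI_step (allI_step (allI_step (allI_step (allI_step (allI_step (allI_step (allI_step (allI_step (allI_step (allI_step (allI_step (allI_step (allI_step (allI_step (allI_step (allI_step (allI_step (allI_step (allI_step (allI_step (allI_step (allI_step (allI_step (allI_step (allI_step (allI_step (allI_step (allI_step (allI_step (allI_step (allI_step (allI_step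 (allI_step (allI_step (allI_step (allI_step (allI_step (allI_step (allI_step (allI_step (allI_step (allI_step (allI_zero _) fp567X_0) fp567X_1) fp567X_2) fp567X_3) fp567X_4) fp567X_5) fp567X_6) fp567X_7) fp567X_8) fp567X_9) fp567X_10) fp567X_11) fp567X_12) fp567X_13) fp567X_14) fp567X_15) fp567X_16) fp567X_17) fp567X_18) fp567X_19) fp567X_20) fp567X_21) fp567X_22) fp567X_23) fp567X_24) fp567X_25) fp567X_26) fp567X_27) fp567X_28) fp567X_29) fp567X_30) fp567X_31) fp567X_32) fp567X_33) fp567X_34) fp567X_35) fp567X_36) fp567X_37) fp567X_38) fp567X_39) fp567X_40) fp567X_41) fp567X_42) fp567X_43) fp567X_44) fp567X_45) fp567X_46) fp567X_47) fp567X_48) fp567X_49) fp567X_50) fp567X_51) fp567X_52) fp567X_53) fp567X_54) fp567X_55) fp567X_56) fp567X_57) fp567X_58) fp567X_59) fp567X_60) fp567X_61) fp567X_62) fp567X_63) fp567X_64) fp567X_65) fp567X_66) fp567X_67) fp567X_68) fp567X_69) fp567X_70) fp567X_71) fp567X_72) fp567X_73) fp567X_74) fp567X_75) fp567X_76) fp567X_77)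 fp567X_78) fp567X_79) fp567X_80) fp567X_81) fp567X_82) fp567X_83) fp567X_84) fp567X_85) fp567X_86) fp567X_87) fp567X_88) fp567X_89) fp567X_90) fp567X_91) fp567X_92) fp567X_93) fp567X_94) fp567X_95) fp567X_96) fp567X_97) fp567X_98) fp567X_99) fp567X_100) fp567X_101) fp567X_102) fp567X_103) fp567X_104) fp567X_105) fp567X_106) fp567X_107) fp567X_108) fp567X_109) fp567X_110) fp567X_111) fp567X_112) fp567X_113) fp567X_114) fp567X_115) fp567X_116) fp567X_117) fp567X_118) fp567X_119) fp567X_120) fp567X_121) fp567X_122) fp567X_123) fp567X_124) fp567X_125) fp567X_126) fp567X_127) fp567X_128) fp567X_129) fp567X_130) fp567X_131) fp567X_132) fp567X_133) fp567X_134) fp567X_135) fp567X_136) fp567X_137) fp567X_138) fp567X_139) fp567X_140) fp567X_141) fp567X_142) fp567X_143) fp567X_144) fp567X_145) fp567X_146) fp567X_147) fp567X_148) fp567X_149) fp567X_150) fp567X_151) fp567X_152) fp567X_153) fp567X_154) fp567X_155) fp567X_156) fp567X_157) fp567X_158) fp567X_159) fp567X_160)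 fp567X_161) fp567X_162) fp567X_163) fp567X_164) fp567X_165) fp567X_166) fp567X_167) fp567X_168) fp567X_169) fp567X_170) fp567X_171) fp567X_172) fp567X_173) fp567X_174) fp567X_175) fp567X_176) fp567X_177) fp567X_178) fp567X_179) fp567X_180) fp567X_181) fp567X_182) fp567X_183) fp567X_184) fp567X_185) fp567X_186

theorem fp567W_ok : Cov (Tab.mk 9 swN 70993 fp567X 14 fp567W).ckW 14 :=
  allI_step (allI_zero _) fp567W_0

theorem fp567_cfg {V : Type} [Fintype V] {G : DG V} {N : ℕ} (h : G.MinF N) {R : Set V}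
    {q : ℕ → V × Fin 3} (hq : G.Emb 9 13 fp567I R q)
    (hK : ∀ K ∈ fp567K, (∀ t ∈ K, t < 9) ∧ (K.map fun t => (q t).1).Nodup) :
    ∃ u ∈ fp567U, G.Split R 9 q u.1 u.2 :=
  hq.config h hK (by decide +kernel) fp567_safe (by decide) fp567_minor (by decide +kernel) sw9
    fp567X_ok fp567W_ok fp567_red

theorem fp567_free {V : Type} [Fintype V] {G : DG V} {N : ℕ} (h : G.MinF N)
    (hF : ∀ H ∈ ([(3, c3E), (4, c4E), (7, t233E), (8, t144E), (8, t234E), (8, t333E), (9, t244E), (9, t334E), (12, p566E), (11, d567aE), (12, d567bE), (12, d567cE)] : List (ℕ × List (ℕ × ℕ))), ¬ G.Cont H) : ¬ G.Cont (13, p567E) :=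
  h.free hF (k := 9) (ι := fp567I) (by decide +kernel)
    (W := [[], [], [0, 1, 4, 6], [1, 1, 4, 7, 6], [2, 0, 4, 1, 2, 5, 3, 8], [1, 2, 5, 4, 9], [2, 2, 4, 5, 0, 1, 9, 10], [4, 0, 4, 1, 2, 5, 3, 12, 11], [2, 0, 4, 1, 2, 5, 3, 12], [], [], [1, 1, 4, 5, 6], [2, 1, 5, 4, 0, 2, 6, 7], [2, 0, 5, 2, 1, 4, 3, 8], [0, 2, 5, 9], [1, 2, 5, 10, 9], [3, 2, 5, 0, 1, 4, 9, 10, 11], [2, 0, 5, 2, 1, 4, 3, 12], [0, 1, 4, 6], [1, 1, 4, 5, 6], [], [], [0, 6, 7, 8], [2, 1, 2, 0, 4, 5, 6, 9], [4, 1, 2, 0, 4, 5, 6, 10, 9], [5, 3, 6, 0, 1, 8, 7, 12, 11], [2, 3, 6, 12, 0, 1, 8, 7], [1, 1, 4, 7, 6], [2, 1, 5, 4, 0, 2, 6, 7], [], [], [], [4, 1, 2, 0, 4, 5, 6, 7, 9], [6, 3, 7, 8, 0, 1, 6, 12, 11, 10], [4, 3, 7, 8, 12, 11, 0, 1, 6], [1, 3, 8, 7, 12], [2, 0, 4, 1, 2, 5, 3, 8], [2, 0, 5, 2, 1, 4, 3, 8], [0, 6, 7, 8], [], [], [3, 0, 2, 1, 4, 5, 3, 8, 9], [4, 3, 10, 8, 12, 11, 0, 2, 9], [1, 3, 8, 11, 12], [0, 3, 8, 12], [1, 2, 5, 4, 9], [0, 2, 5, 9], [2, 1, 2, 0, 4, 5, 6, 9], [4, 1, 2,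 0, 4, 5, 6, 7, 9], [3, 0, 2, 1, 4, 5, 3, 8, 9], [], [], [0, 9, 10, 11], [1, 9, 10, 11, 12], [2, 2, 4, 5, 0, 1, 9, 10], [1, 2, 5, 10, 9], [4, 1, 2, 0, 4, 5, 6, 10, 9], [6, 3, 7, 8, 0, 1, 6, 12, 11, 10], [4, 3, 10, 8, 12, 11, 0, 2, 9], [], [], [], [0, 10, 11, 12], [4, 0, 4, 1, 2, 5, 3, 12, 11], [3, 2, 5, 0, 1, 4, 9, 10, 11], [5, 3, 6, 0, 1, 8, 7, 12, 11], [4, 3, 7, 8, 12, 11, 0, 1, 6], [1, 3, 8, 11, 12], [0, 9, 10, 11], [], [], [], [2, 0, 4, 1, 2, 5, 3, 12], [2, 0, 5, 2, 1, 4, 3, 12], [2, 3, 6, 12, 0, 1, 8, 7], [1, 3, 8, 7, 12], [0, 3, 8, 12], [1, 9, 10, 11, 12], [0, 10, 11, 12], [], []]) (by decide +kernel)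
    (W' := [[], [0, 4, 5, 13], [], [], [], [], [], [], [], [], [], [], [], [], [], [], [], [], [], [], [], [0, 6, 7, 13], [], [], [], [], [], [], [], [], [], [], [], [], [], [], [], [], [], [], [], [], [], [11, 3, 12, 11, 13, 8, 7, 6, 1, 0, 2, 9, 10], [], [], [], [], [], [], [], [], [], [], [], [], [], [], [], [], [], [], [], [], [], [], [], [], [], [], [], [], [], [], [], [], [], [], [], [], []]) (Cl := fp567K) (by decide +kernel)
    fun _ _ hq hK => by simpa [fp567U] using fp567_cfg h hq (hK _ hq)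

end Pool.Agent.P.MP_40718a_co
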