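import Pool.Agent.P.MP_40718a_co.F666A
import Pool.Agent.P.MP_40718a_co.F666P0
import Pool.Agent.P.MP_40718a_co.F666P1
import Pool.Agent.P.MP_40718a_co.F666P2
import Pool.Agent.P.MP_40718a_co.F666P3
import Pool.Agent.P.MP_40718a_co.F666P4
import Pool.Agent.P.MP_40718a_co.F666P5
import Pool.Agent.P.MP_40718a_co.F666P6
import Pool.Agent.P.MP_40718a_co.F666P7

/-! Certificate. -/

namespace Pool.Agent.P.MP_40718a_co

theorem fp666X_ok : Cov ((Tab.mk 9 swN 59777 fp666X 0 fp666W).ckX (extC 9 (9 + 3 * 13) 135 fp666C)) 59777 :=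
  allI_step (allI_step (allI_step (allI_step (allI_step (allI_step (allI_step (allI_step (allI_step (allI_step (allI_step (allI_step (allI_step (allI_step (allI_step (allI_step (allI_step (allI_step (allI_step (allI_step (allI_step (allI_step (allI_step (allI_step (allI_step (allI_step (allI_step (allI_step (allI_step (allI_step (allI_step (allI_step (allI_step (allI_step (allI_step (allI_step (allI_step (allI_step (allI_step (allI_step (allI_step (allI_step (allI_step (allI_step (allI_step (allI_step (allI_step (allI_step (allI_step (allI_step (allI_step (allI_step (allI_step (allI_step (allI_step (allI_step (allI_step (allI_step (allI_step (allI_step (allI_step (allI_step (allI_step (allI_step (allI_step (allI_step (allI_step (allI_step (allI_step (allI_step (allI_step (allI_step (allI_step (allI_step (allI_step (allI_step (allI_step (allI_step (allI_step (allI_step (allI_step (allI_step (allI_step (allI_step (allI_step (allI_step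 (allI_step (allI_step (allI_step (allI_step (allI_step (allI_step (allI_step (allI_step (allI_step (allI_step (allI_step (allI_step (allI_step (allI_step (allI_step (allI_step (allI_step (allI_step (allI_step (allI_step (allI_step (allI_step (allI_step (allI_step (allI_step (allI_step (allI_step (allI_step (allI_step (allI_step (allI_step (allI_step (allI_step (allI_step (allI_step (allI_step (allI_step (allI_step (allI_step (allI_step (allI_step (allI_step (allI_step (allI_step (allI_step (allI_step (allI_step (allI_step (allI_step (allI_step (allI_step (allI_step (allI_step (allI_step (allI_step (allI_step (allI_step (allI_step (allI_step (allI_step (allI_step (allI_step (allI_step (allI_step (allI_step (allI_step (allI_step (allI_step (allI_step (allI_step (allI_step (allI_step (allI_step (allI_step (allI_step (allI_step (allI_step (allI_step (allI_step (allI_step (allI_step (allI_step (allI_step (allI_step (allI_step (allI_step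 (allI_step (allI_step (allI_step (allI_step (allI_step (allI_step (allI_step (allI_step (allI_step (allI_step (allI_step (allI_step (allI_step (allI_step (allI_step (allI_step (allI_step (allI_zero _) fp666X_0) fp666X_1) fp666X_2) fp666X_3) fp666X_4) fp666X_5) fp666X_6) fp666X_7) fp666X_8) fp666X_9) fp666X_10) fp666X_11) fp666X_12) fp666X_13) fp666X_14) fp666X_15) fp666X_16) fp666X_17) fp666X_18) fp666X_19) fp666X_20) fp666X_21) fp666X_22) fp666X_23) fp666X_24) fp666X_25) fp666X_26) fp666X_27) fp666X_28) fp666X_29) fp666X_30) fp666X_31) fp666X_32) fp666X_33) fp666X_34) fp666X_35) fp666X_36) fp666X_37) fp666X_38) fp666X_39) fp666X_40) fp666X_41) fp666X_42) fp666X_43) fp666X_44) fp666X_45) fp666X_46) fp666X_47) fp666X_48) fp666X_49) fp666X_50) fp666X_51) fp666X_52) fp666X_53) fp666X_54) fp666X_55) fp666X_56) fp666X_57) fp666X_58) fp666X_59) fp666X_60) fp666X_61) fp666X_62) fp666X_63) fp666X_64) fp666X_65) fp666X_66) fp666X_67) fp666X_68)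 fp666X_69) fp666X_70) fp666X_71) fp666X_72) fp666X_73) fp666X_74) fp666X_75) fp666X_76) fp666X_77) fp666X_78) fp666X_79) fp666X_80) fp666X_81) fp666X_82) fp666X_83) fp666X_84) fp666X_85) fp666X_86) fp666X_87) fp666X_88) fp666X_89) fp666X_90) fp666X_91) fp666X_92) fp666X_93) fp666X_94) fp666X_95) fp666X_96) fp666X_97) fp666X_98) fp666X_99) fp666X_100) fp666X_101) fp666X_102) fp666X_103) fp666X_104) fp666X_105) fp666X_106) fp666X_107) fp666X_108) fp666X_109) fp666X_110) fp666X_111) fp666X_112) fp666X_113) fp666X_114) fp666X_115) fp666X_116) fp666X_117) fp666X_118) fp666X_119) fp666X_120) fp666X_121) fp666X_122) fp666X_123) fp666X_124) fp666X_125) fp666X_126) fp666X_127) fp666X_128) fp666X_129) fp666X_130) fp666X_131) fp666X_132) fp666X_133) fp666X_134) fp666X_135) fp666X_136) fp666X_137) fp666X_138) fp666X_139) fp666X_140) fp666X_141) fp666X_142) fp666X_143) fp666X_144) fp666X_145) fp666X_146) fp666X_147) fp666X_148) fp666X_149) fp666X_150)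 fp666X_151) fp666X_152) fp666X_153) fp666X_154) fp666X_155) fp666X_156) fp666X_157) fp666X_158) fp666X_159) fp666X_160) fp666X_161) fp666X_162) fp666X_163) fp666X_164) fp666X_165) fp666X_166) fp666X_167) fp666X_168) fp666X_169) fp666X_170) fp666X_171) fp666X_172) fp666X_173) fp666X_174) fp666X_175) fp666X_176) fp666X_177) fp666X_178) fp666X_179) fp666X_180) fp666X_181) fp666X_182) fp666X_183) fp666X_184) fp666X_185) fp666X_186) fp666X_187) fp666X_188

theorem fp666W_ok : Cov (Tab.mk 9 swN 59777 fp666X 0 fp666W).ckW 0 :=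
  allI_zero _

theorem fp666_cfg {V : Type} [Fintype V] {G : DG V} {N : ℕ} (h : G.MinF N) {R : Set V}
    {q : ℕ → V × Fin 3} (hq : G.Emb 9 13 fp666I R q)
    (hK : ∀ K ∈ fp666K, (∀ t ∈ K, t < 9) ∧ (K.map fun t => (q t).1).Nodup) :
    ∃ u ∈ fp666U, G.Split R 9 q u.1 u.2 :=
  hq.config h hK (by decide +kernel) fp666_safe (by decide) fp666_minor (by decide +kernel) sw9
    fp666X_ok fp666W_ok fp666_red

theorem fp666_free {V : Type} [Fintype V] {G : DG V} {N : ℕ} (h : G.MinF N)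
    (hF : ∀ H ∈ ([(3, c3E), (4, c4E), (7, t233E), (8, t144E), (8, t234E), (8, t333E), (9, t244E), (9, t334E), (12, p566E), (11, d567aE), (12, d567bE), (12, d567cE), (13, p567E)] : List (ℕ × List (ℕ × ℕ))), ¬ G.Cont H) : ¬ G.Cont (13, p666E) :=
  h.free hF (k := 9) (ι := fp666I) (by decide +kernel)
    (W := [[], [], [0, 4, 5, 6], [0, 1, 4, 7], [1, 1, 4, 8, 7], [2, 1, 9, 4, 0, 3, 7, 8], [2, 2, 4, 10, 0, 1, 6, 5], [5, 0, 11, 1, 4, 2, 10, 3, 12], [4, 0, 4, 1, 3, 12, 2, 6, 5], [], [], [], [1, 1, 4, 5, 7], [4, 1, 5, 4, 7, 8, 0, 2, 6], [5, 0, 5, 1, 4, 2, 6, 3, 9], [1, 2, 6, 5, 10], [4, 2, 5, 6, 10, 11, 0, 1, 4], [5, 0, 5, 1, 4, 2, 6, 3, 12], [0, 4, 5, 6], [], [], [2, 1, 6, 7, 0, 2, 4, 5], [5, 0, 8, 1, 7, 2, 6, 3, 9], [4, 0, 6, 2, 3, 9, 1, 4, 5], [0, 2, 6, 10], [1, 2, 6, 11, 10], [2, 2, 12, 6, 0, 3, 10, 11], [0, 1, 4, 7], [1, 1, 4, 5, 7], [2, 1, 6, 7, 0, 2, 4, 5], [], [], [0, 7, 8, 9], [4, 0, 7, 1, 2, 10, 3, 9, 8], [5, 0, 11, 1, 7, 2,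 10, 3, 12], [2, 3, 7, 12, 0, 1, 9, 8], [1, 1, 4, 8, 7], [4, 1, 5, 4, 7, 8, 0, 2, 6], [5, 0, 8, 1, 7, 2, 6, 3, 9], [], [], [], [5, 0, 8, 1, 7, 2, 10, 3, 9], [4, 3, 8, 9, 12, 11, 0, 1, 7], [1, 3, 9, 8, 12], [2, 1, 9, 4, 0, 3, 7, 8], [5, 0, 5, 1, 4, 2, 6, 3, 9], [4, 0, 6, 2, 3, 9, 1, 4, 5], [0, 7, 8, 9], [], [], [2, 3, 10, 9, 0, 2, 12, 11], [1, 3, 9, 11, 12], [0, 3, 9, 12], [2, 2, 4, 10, 0, 1, 6, 5], [1, 2, 6, 5, 10], [0, 2, 6, 10], [4, 0, 7, 1, 2, 10, 3, 9, 8], [5, 0, 8, 1, 7, 2, 10, 3, 9], [2, 3, 10, 9, 0, 2, 12, 11], [], [], [0, 10, 11, 12], [5, 0, 11, 1, 4, 2, 10, 3, 12], [4, 2, 5, 6, 10, 11, 0, 1, 4], [1, 2, 6, 11, 10], [5, 0, 11, 1, 7, 2, 10, 3, 12], [4, 3, 8, 9, 12, 11, 0, 1, 7], [1, 3, 9, 11, 12], [], [], [], [4, 0, 4, 1, 3, 12, 2, 6, 5], [5, 0, 5, 1, 4, 2, 6, 3, 12], [2, 2, 12, 6, 0, 3, 10, 11], [2, 3, 7, 12, 0, 1, 9, 8], [1, 3, 9, 8, 12], [0, 3, 9, 12], [0, 10, 11, 12], [], []]) (by decide +kernel)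
    (W' := [[], [0, 4, 5, 13], [], [1, 1, 4, 13, 7], [4, 1, 8, 7, 4, 13, 0, 3, 9], [5, 1, 9, 0, 3, 4, 13, 7, 8], [5, 2, 4, 0, 1, 6, 5, 10, 13], [7, 0, 11, 2, 10, 3, 12, 1, 4, 13], [6, 0, 4, 1, 2, 6, 5, 3, 12, 13], [], [], [0, 5, 6, 13], [4, 1, 5, 4, 7, 13, 0, 2, 6], [6, 1, 5, 4, 0, 2, 6, 7, 8, 13], [], [4, 2, 5, 6, 10, 13, 0, 1, 4], [6, 2, 5, 6, 0, 1, 4, 10, 11, 13], [7, 0, 5, 1, 4, 2, 6, 3, 12, 13], [], [], [], [5, 1, 6, 0, 2, 4, 5, 7, 13], [7, 0, 8, 1, 7, 3, 9, 2, 6, 13], [6, 0, 6, 2, 1, 4, 5, 3, 9, 13], [1, 2, 6, 13, 10], [4, 2, 11, 10, 6, 13, 0, 3, 12], [5, 2, 12, 0, 3, 6, 13, 10, 11], [], [], [], [], [0, 7, 8, 13], [1, 7, 8, 9, 13], [6, 0, 7, 1, 2, 10, 13, 3, 9, 8], [7, 0, 11, 2, 10, 3, 12, 1, 7, 13], [5, 3, 7, 0, 1, 9, 8, 12, 13], [], [], [], [], [], [0, 8, 9, 13], [7, 0, 8, 1, 7, 3, 9, 2, 10, 13], [6, 3, 8, 9, 0, 1, 7, 12, 11, 13], [4, 3, 8, 9, 12, 13, 0, 1, 7], [], [], [], [], [], [], [5, 3, 10, 0, 2, 9, 13, 12, 11], [],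 [1, 3, 9, 13, 12], [], [], [], [], [], [], [], [0, 10, 11, 13], [], [], [], [], [], [], [], [], [], [0, 11, 12, 13], [], [], [], [], [], [], [], [], []]) (Cl := fp666K) (by decide +kernel)
    fun _ _ hq hK =>
      have ha : autOK 9 13 fp666I (dig 252363986675203698318223986799085371628004773358685373057922296995182117602521388712390 6) (dig 228801267242194619570036870113913684534973473894719569736382742727289050774353915949317 6) = true := by decide +kernel
      hq.unc h.lev (hK _ hq) (wY := fp666Y) ha (L := [230, 294, 225, 353, 417, 293, 291, 214, 305, 206, 297, 220, 218, 94, 158, 286, 217, 281, 198, 289, 481, 295, 216, 30, 222, 313]) (by decide +kernel)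
        (fp666_cfg h hq (hK _ hq)) (fp666_cfg h (hq.aut ha) (hK _ (hq.aut ha)))

end Pool.Agent.P.MP_40718a_co
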