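import Pool.Agent.P.MP_40718a_co.Levels

/-! From dart graphs to simple graphs. -/

namespace Pool.Agent.P.MP_40718a_co

open SimpleGraph

namespace DG
variable {V : Type} [Fintype V] {G : DG V}

/-- The underlying simple graph. -/
def simple (hB : G.Bridgeless) : SimpleGraph V where
  Adj := G.Adj
  symm := ⟨fun _ _ h => h.symm⟩
  loopless := ⟨fun v ⟨i, h⟩ => noLoop hB (v, i) h⟩

variable (hB : G.Bridgeless) (hM : G.NoMulti)

include hM in
lemma simple_deg (v : V) : ((simple hB).neighborSet v).ncard = 3 := by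
  have : (simple hB).neighborSet v = (fun i => (G.σ (v, i)).1) '' Set.univ := by
    ext w; simp [simple, Adj]
  rw [this, Set.ncard_image_of_injective _ (hM v)]
  simp

include hM in
lemma simple_cut (X : Set V) :
    {p : V × V | p.1 ∈ X ∧ p.2 ∉ X ∧ (simple hB).Adj p.1 p.2}.ncard = G.cut X := by
  rw [cut_eq_ncard, ← Set.ncard_image_of_injective _
    (f := fun d : V × Fin 3 => (d.1, (G.σ d).1)) ?_]
  · congr 1
    ext ⟨u, w⟩
    simp only [simple, Adj, Set.mem_ofPred_eq, Set.mem_image, Prod.mk.injEq, Prod.exists]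
    constructor
    · rintro ⟨h1, h2, i, rfl⟩
      exact ⟨u, i, ⟨h1, h2⟩, rfl, rfl⟩
    · rintro ⟨u, i, ⟨h1, h2⟩, rfl, rfl⟩
      exact ⟨h1, h2, i, rfl⟩
  · rintro ⟨u, i⟩ ⟨w, j⟩ h
    simp only [Prod.mk.injEq] at h
    obtain ⟨rfl, h⟩ := h
    rw [hM u i j h]

include hM in
lemma simple_del [Nonempty V] (h0 : ∀ X, G.cut X = 0 → X = ∅ ∨ X = Set.univ) (e : Sym2 V) :
    ((simple hB).deleteEdges {e}).Connected := by
  refine ⟨fun v w => ?_⟩
  let X := {w | ((simple hB).deleteEdges {e}).Reachable v w}
  have key : ∀ d : V × Fin 3, d.1 ∈ X → (G.σ d).1 ∉ X → s(d.1, (G.σ d).1) = e := by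
    intro d h1 h2
    by_contra h
    exact h2 (Reachable.trans h1 (Adj.reachable (by
      simp only [deleteEdges_adj, Set.mem_singleton_iff, h, not_false_eq_true, and_true]
      exact ⟨d.2, rfl⟩)))
  have h1 : G.cut X ≤ 1 := by
    rw [cut_eq_ncard, Set.ncard_le_one_iff]
    rintro ⟨u, i⟩ ⟨u', j⟩ ⟨a1, a2⟩ ⟨b1, b2⟩
    have := (key _ a1 a2).trans (key _ b1 b2).symm
    rw [Sym2.eq_iff] at this
    rcases this with ⟨c1, c2⟩ | ⟨c1, c2⟩
    · simp only at c1; subst c1; rw [hM u i j c2]
    · exact absurd (c1 ▸ a1) b2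
  have h2 := hB X
  rcases h0 X (by omega) with h | h
  · exact absurd (h ▸ Reachable.refl v : v ∈ (∅ : Set V)) (by simp)
  · exact (h ▸ Set.mem_univ w : w ∈ X)

include hM in
lemma simple_cover (S : Fin 6 → Set (Sym2 V)) (h1 : ∀ i, S i ⊆ (simple hB).edgeSet)
    (h2 : ∀ (i : Fin 6) (v : V), Even (Set.ncard {e : Sym2 V | e ∈ S i ∧ v ∈ e}))
    (h3 : ∀ e ∈ (simple hB).edgeSet, Set.ncard {i : Fin 6 | e ∈ S i} = 4) : G.Cover := by
  classical
  let ed : V × Fin 3 → Sym2 V := fun d => s(d.1, (G.σ d).1)
  have a1 : ∀ d, (Finset.univ.filter fun j : Fin 6 => ed d ∈ S j).card = 4 := by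
    intro d
    rw [← h3 (ed d) ⟨d.2, rfl⟩, Set.ncard_eq_toFinset_card', Set.toFinset_ofPred]
  have a2 : ∀ j v, Even (Finset.univ.filter fun i : Fin 3 => ed (v, i) ∈ S j).card := by
    intro j v
    have : {e : Sym2 V | e ∈ S j ∧ v ∈ e} = (fun i => ed (v, i)) '' {i | ed (v, i) ∈ S j} := by
      ext e
      constructor
      · rintro ⟨b1, b2⟩
        obtain ⟨w, rfl⟩ := Sym2.mem_iff_exists.1 b2
        obtain ⟨i, hi⟩ : G.Adj v w := h1 j b1
        subst hi
        exact ⟨i, b1, rfl⟩
      · rintro ⟨i, b1, rfl⟩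
        exact ⟨b1, by simp [ed]⟩
    have b := h2 j v
    rw [this, Set.ncard_image_of_injective _ (fun i i' h => hM v i i' (Sym2.congr_right.1 h)),
      Set.ncard_eq_toFinset_card', Set.toFinset_ofPred] at b
    exact b
  have a3 : ∀ v j, ∃ i, ∀ x, i = x ↔ ed (v, x) ∉ S j := by
    intro v
    let b : Fin 6 → Fin 3 → Bool := fun j i => decide (ed (v, i) ∈ S j)
    have c1 : ∀ i, (Finset.univ.filter fun j : Fin 6 => b j i = true).card = 4 :=
      fun i => by simpa [b] using a1 (v, i)
    have c2 : ∀ j, Even (Finset.univ.filter fun i : Fin 3 => b j i = true).card :=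
      fun j => by simpa [b] using a2 j v
    have c3 : ∀ c : Fin 3 → Bool, Even (Finset.univ.filter fun i : Fin 3 => c i = true).card →
        (Finset.univ.filter fun i : Fin 3 => c i = true).card ≤ 2 ∧
        ((Finset.univ.filter fun i : Fin 3 => c i = true).card = 2 →
          ∃ i, ∀ x, i = x ↔ ¬ c x = true) := by decide
    have c4 : ∑ j, (Finset.univ.filter fun i : Fin 3 => b j i = true).card = 12 := by
      simp only [Finset.card_filter]
      rw [Finset.sum_comm]
      simp only [← Finset.card_filter, c1]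
      rfl
    intro j
    have c5 := fun j => (c3 _ (c2 j)).1
    have : (Finset.univ.filter fun i : Fin 3 => b j i = true).card = 2 := by
      rw [Fin.sum_univ_six] at c4
      have := c5 0; have := c5 1; have := c5 2; have := c5 3; have := c5 4; have := c5 5
      fin_cases j <;> simp only [Fin.zero_eta, Fin.mk_one, Fin.reduceFinMk] <;> omega
    simpa [b] using (c3 _ (c2 j)).2 this
  choose m hm using a3
  have a4 : ∀ d, ed (G.σ d) = ed d := fun d => by simp [ed, G.inv, Sym2.eq_swap]
  refine ⟨List.ofFn fun j v => m v j, by simp, ?_, ?_⟩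
  · intro M hM' d hd
    obtain ⟨j, rfl⟩ := List.mem_ofFn.1 hM'
    rw [hm] at hd ⊢
    exact a4 d ▸ hd
  · intro d
    have := a1 d
    have c : ∀ c : Fin 6 → Bool, (Finset.univ.filter fun j => c j = true).card = 4 →
      (List.ofFn c).countP (fun x => !x) = 2 := by decide
    have := c (fun j => decide (ed d ∈ S j)) (by simpa using this)
    rw [List.ofFn_eq_map, List.countP_map] at this ⊢
    rw [← this]
    exact List.countP_congr fun j _ => by simp [hm]

omit [Fintype V] in
lemma cont_cycle {H : SimpleGraph V} (hH : ∀ u v, H.Adj u v → G.Adj u v) {v : V}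
    {w : H.Walk v v} (hw : w.IsCycle) {E : List (ℕ × ℕ)}
    (hE : ∀ e ∈ E, (e.1 < w.length ∧ e.2 = e.1 + 1) ∨ (e.1 + 1 = w.length ∧ e.2 = 0)) :
    G.Cont (w.length, E) := by
  refine ⟨w.getVert, fun a ha b hb h => hw.getVert_injOn' ?_ ?_ h, fun e he => ?_⟩
  · simp only [Set.mem_ofPred_eq] at ha ⊢; omega
  · simp only [Set.mem_ofPred_eq] at hb ⊢; omega
  · rcases hE e he with h | h
    · rw [h.2]; exact hH _ _ (w.adj_getVert_succ h.1)
    · have := hH _ _ (w.adj_getVert_succ (i := e.1) (by omega))
      rwa [h.1, w.getVert_length, h.2, w.getVert_zero] at *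

lemma simple_girth (h3 : ¬ G.Cont (3, c3E)) (h4 : ¬ G.Cont (4, c4E)) : 5 ≤ (simple hB).egirth := by
  rw [le_egirth]
  intro v w hw
  by_contra h
  have a1 : w.length < 5 := by exact_mod_cast not_le.1 h
  have a2 := hw.three_le_length
  have a3 : w.length = 3 ∨ w.length = 4 := by omega
  rcases a3 with a3 | a3
  · exact h3 (a3 ▸ cont_cycle (fun _ _ h => h) hw (by rw [a3]; decide))
  · exact h4 (a3 ▸ cont_cycle (fun _ _ h => h) hw (by rw [a3]; decide))

end DG

/-- Index of the `i`-th vertex of a path of length `L` whose inner vertices start at `s`. -/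
def pidx (s L i : ℕ) : ℕ := if i = 0 then 0 else if i = L then 1 else s + i - 1

/-- Edges of a theta graph. -/
def thE (a b c : ℕ) : List (ℕ × ℕ) :=
  (List.range a).map (fun i => (pidx 2 a i, pidx 2 a (i + 1))) ++
  (List.range b).map (fun i => (pidx (a + 1) b i, pidx (a + 1) b (i + 1))) ++
  (List.range c).map (fun i => (pidx (a + b) c i, pidx (a + b) c (i + 1)))

lemma DG.cont_theta {V : Type} {G : DG V} {H : SimpleGraph V}
    (hH : ∀ u v, H.Adj u v → G.Adj u v) {u v : V} (huv : u ≠ v)
    {p q r : H.Walk u v} (hp : p.IsPath) (hq : q.IsPath) (hr : r.IsPath)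
    (hpq : ∀ x ∈ p.support, x ∈ q.support → x = u ∨ x = v)
    (hpr : ∀ x ∈ p.support, x ∈ r.support → x = u ∨ x = v)
    (hqr : ∀ x ∈ q.support, x ∈ r.support → x = u ∨ x = v) :
    G.Cont (p.length + q.length + r.length - 1, thE p.length q.length r.length) := by
  have pos : ∀ w : H.Walk u v, 0 < w.length := fun w =>
    Nat.pos_of_ne_zero fun h => huv (w.eq_of_length_eq_zero h)
  have inj : ∀ {w : H.Walk u v}, w.IsPath → ∀ i ≤ w.length, ∀ j ≤ w.length,
      w.getVert i = w.getVert j → i = j := fun hw i hi j hj h => hw.getVert_injOn hi hj h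
  have dis : ∀ {w w' : H.Walk u v}, w'.IsPath →
      (∀ x ∈ w.support, x ∈ w'.support → x = u ∨ x = v) → ∀ i j, 0 < j → j < w'.length →
        w.getVert i ≠ w'.getVert j := by
    intro w w' hw h i j a1 a2 e
    rcases h _ (w.getVert_mem_support i) (e ▸ w'.getVert_mem_support j) with c | c
    · have := inj hw j (by omega) 0 (by omega) (by rw [← e, c, w'.getVert_zero]); omega
    · have := inj hw j (by omega) _ le_rfl (by rw [← e, c, w'.getVert_length]); omega
  have pp := pos p
  have pq := pos q
  have pr := pos r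
  let f : ℕ → V := fun x => if x < p.length + 1 then
      p.getVert (if x = 0 then 0 else if x = 1 then p.length else x - 1)
    else if x < p.length + q.length then q.getVert (x - p.length)
    else r.getVert (x - p.length - q.length + 1)
  have f0 : f 0 = u := by simp [f]
  have f1 : f 1 = v := by
    simp only [f]
    rw [if_pos (by omega)]
    simp
  have fp : ∀ i ≤ p.length, f (pidx 2 p.length i) = p.getVert i := by
    intro i hi
    unfold pidx
    split_ifs with a1 a2
    · rw [f0, a1, p.getVert_zero]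
    · rw [f1, a2, p.getVert_length]
    · simp only [f]
      rw [if_pos (by omega), if_neg (by omega), if_neg (by omega)]
      congr 1; omega
  have fq : ∀ i ≤ q.length, f (pidx (p.length + 1) q.length i) = q.getVert i := by
    intro i hi
    unfold pidx
    split_ifs with a1 a2
    · rw [f0, a1, q.getVert_zero]
    · rw [f1, a2, q.getVert_length]
    · simp only [f]
      rw [if_neg (by omega), if_pos (by omega)]
      congr 1; omega
  have fr : ∀ i ≤ r.length, f (pidx (p.length + q.length) r.length i) = r.getVert i := by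
    intro i hi
    unfold pidx
    split_ifs with a1 a2
    · rw [f0, a1, r.getVert_zero]
    · rw [f1, a2, r.getVert_length]
    · simp only [f]
      rw [if_neg (by omega), if_neg (by omega)]
      congr 1; omega
  refine ⟨f, fun x hx y hy h => ?_, fun e he => ?_⟩
  · simp only [f] at h hx hy
    by_cases a1 : x < p.length + 1 <;> by_cases a2 : y < p.length + 1 <;>
      by_cases a3 : x < p.length + q.length <;> by_cases a4 : y < p.length + q.length <;>
      simp only [a1, a2, a3, a4, if_true, if_false] at h <;>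
      first
        | omega
        | exact absurd h (dis hq hpq _ _ (by omega) (by omega))
        | exact absurd h.symm (dis hq hpq _ _ (by omega) (by omega))
        | exact absurd h (dis hr hpr _ _ (by omega) (by omega))
        | exact absurd h.symm (dis hr hpr _ _ (by omega) (by omega))
        | exact absurd h (dis hr hqr _ _ (by omega) (by omega))
        | exact absurd h.symm (dis hr hqr _ _ (by omega) (by omega))
        | (have := inj hq _ (by omega) _ (by omega) h; omega)
        | (have := inj hr _ (by omega) _ (by omega) h; omega)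
        | (have := inj hp _ (by split_ifs <;> omega) _ (by split_ifs <;> omega) h
           split_ifs at this <;> omega)
  · simp only [thE, List.mem_append, List.mem_map, List.mem_range] at he
    rcases he with (⟨i, hi, rfl⟩ | ⟨i, hi, rfl⟩) | ⟨i, hi, rfl⟩
    · rw [fp i (by omega), fp _ (by omega)]; exact hH _ _ (p.adj_getVert_succ hi)
    · rw [fq i (by omega), fq _ (by omega)]; exact hH _ _ (q.adj_getVert_succ hi)
    · rw [fr i (by omega), fr _ (by omega)]; exact hH _ _ (r.adj_getVert_succ hi)

end Pool.Agent.P.MP_40718a_co
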