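import Pool.Agent.P.MP_40718a_co.FA
import Pool.Agent.P.MP_40718a_co.FB
import Pool.Agent.P.MP_40718a_co.FC
import Pool.Agent.P.MP_40718a_co.F567
import Pool.Agent.P.MP_40718a_co.F666
import Pool.Agent.P.MP_40718a_co.Count
import Pool.Agent.P.MP_40718a_co.Simple

/-! The bound for a smallest labelled counterexample. -/

namespace Pool.Agent.P.MP_40718a_co

/-- The forbidden graphs. -/
def forbF : List (ℕ × List (ℕ × ℕ)) := [(3, c3E), (4, c4E), (7, t233E), (8, t144E), (8, t234E), (8, t333E), (9, t244E), (9, t334E), (12, p566E), (11, d567aE), (12, d567bE), (12, d567cE), (13, p567E), (13, p666E),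
  (5, [(0, 1), (0, 2), (0, 3), (0, 4)])]

/-- decision tree -/
def dt55 : DT := (.br 1 11 (.leaf [0, 0, 1, 12])
  (.br 1 10 (.leaf [0, 0, 1, 4])
  (.br 2 12 (.leaf [0, 0, 1, 2])
  (.br 2 11 (.leaf [1, 0, 1, 2, 12])
  (.br 2 10 (.leaf [0, 2, 3, 4])
  (.br 3 12 (.leaf [0, 0, 3, 4])
  (.br 3 11 (.leaf [0, 3, 4, 10])
  (.br 3 10 (.leaf [2, 0, 3, 4, 1, 2, 12, 11])
  (.leaf [3, 0, 4, 1, 2, 3, 12, 11, 10])))))))))

/-- decision tree -/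
def dt566 : DT := (.br 1 10 (.leaf [0, 0, 1, 4])
  (.br 1 11 (.leaf [1, 0, 1, 10, 4])
  (.br 1 12 (.leaf [0, 0, 1, 13])
  (.br 4 20 (.leaf [0, 0, 1, 4])
  (.br 4 19 (.leaf [1, 0, 1, 20, 4])
  (.br 4 18 (.leaf [0, 0, 4, 13])
  (.br 13 2 (.leaf [0, 0, 1, 13])
  (.br 13 3 (.leaf [0, 0, 13, 4])
  (.br 2 20 (.br 3 18 (.leaf [0, 2, 3, 19])
  (.br 3 19 (.leaf [2, 0, 3, 4, 1, 2, 13, 18])
  (.leaf [4, 0, 2, 1, 4, 3, 13, 18, 19])))
  (.br 2 19 (.leaf [0, 1, 2, 20])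
  (.br 2 18 (.leaf [1, 0, 1, 2, 13])
  (.br 2 10 (.leaf [0, 2, 3, 4])
  (.br 2 11 (.leaf [2, 0, 2, 1, 4, 10, 13, 12])
  (.br 2 12 (.leaf [1, 0, 1, 2, 13])
  (.br 3 20 (.leaf [0, 1, 2, 3])
  (.br 3 19 (.leaf [1, 1, 2, 3, 20])
  (.br 3 18 (.leaf [1, 0, 4, 3, 13])
  (.br 3 10 (.leaf [4, 0, 3, 4, 1, 2, 13, 12, 11])
  (.br 3 11 (.leaf [0, 3, 4, 10])
  (.br 3 12 (.leaf [1, 0, 4, 3, 13])
  (.br 20 10 (.leaf [1, 0, 1, 20, 4])
  (.br 20 11 (.leaf [2, 0, 20, 1, 4, 10, 13, 12])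
  (.br 20 12 (.leaf [1, 0, 1, 20, 13])
  (.br 19 10 (.leaf [2, 0, 19, 4, 1, 20, 13, 18])
  (.br 19 11 (.leaf [4, 1, 4, 0, 2, 3, 20, 19, 10])
  (.br 19 12 (.leaf [0, 19, 13, 18])
  (.br 18 10 (.leaf [1, 0, 4, 18, 13])
  (.br 18 11 (.leaf [0, 18, 12, 13])
  (.br 18 12 (.leaf [6, 0, 18, 13, 1, 20, 19, 4, 10, 11])
  (.leaf [8, 0, 1, 4, 13, 2, 3, 20, 19, 18, 10, 11, 12]))))))))))))))))))))))))))))))

/-- decision tree -/
def dt666 : DT := (.br 1 10 (.leaf [0, 0, 1, 5])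
  (.br 1 11 (.leaf [1, 0, 1, 10, 5])
  (.br 1 12 (.leaf [0, 0, 1, 13])
  (.br 5 20 (.leaf [0, 0, 1, 5])
  (.br 5 19 (.leaf [1, 0, 1, 20, 5])
  (.br 5 18 (.leaf [0, 0, 5, 13])
  (.br 13 2 (.leaf [0, 0, 1, 13])
  (.br 13 3 (.leaf [1, 0, 1, 2, 13])
  (.br 13 4 (.leaf [0, 0, 13, 5])
  (.br 2 20 (.br 4 18 (.leaf [1, 0, 5, 4, 13])
  (.br 4 19 (.leaf [0, 2, 3, 4])
  (.br 3 18 (.leaf [0, 2, 3, 19])
  (.br 3 19 (.leaf [5, 0, 3, 1, 2, 5, 4, 13, 18])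
  (.leaf [6, 0, 2, 1, 5, 4, 3, 13, 18, 19])))))
  (.br 2 19 (.leaf [0, 1, 2, 20])
  (.br 2 18 (.leaf [1, 0, 1, 2, 13])
  (.br 2 10 (.leaf [1, 0, 1, 2, 5])
  (.br 2 11 (.leaf [2, 0, 2, 1, 5, 10, 13, 12])
  (.br 2 12 (.leaf [1, 0, 1, 2, 13])
  (.br 3 20 (.leaf [0, 1, 2, 3])
  (.br 3 19 (.leaf [1, 1, 2, 3, 20])
  (.br 3 18 (.leaf [2, 0, 3, 13, 1, 2, 5, 4])
  (.br 3 10 (.leaf [0, 3, 4, 5])
  (.br 3 11 (.leaf [5, 0, 3, 1, 2, 5, 10, 13, 12])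
  (.br 3 12 (.leaf [2, 0, 3, 13, 1, 2, 5, 4])
  (.br 4 20 (.leaf [1, 0, 1, 4, 5])
  (.br 4 19 (.leaf [2, 0, 4, 5, 1, 20, 13, 18])
  (.br 4 18 (.leaf [1, 0, 5, 4, 13])
  (.br 4 10 (.leaf [6, 0, 4, 5, 1, 2, 3, 13, 12, 11])
  (.br 4 11 (.leaf [0, 4, 5, 10])
  (.br 4 12 (.leaf [1, 0, 5, 4, 13])
  (.br 20 10 (.leaf [1, 0, 1, 20, 5])
  (.br 20 11 (.leaf [2, 0, 20, 1, 5, 10, 13, 12])
  (.br 20 12 (.leaf [1, 0, 1, 20, 13])
  (.br 19 10 (.leaf [2, 0, 19, 5, 1, 20, 13, 18])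
  (.br 19 11 (.leaf [5, 0, 19, 1, 20, 5, 10, 13, 12])
  (.br 19 12 (.leaf [0, 19, 13, 18])
  (.br 18 10 (.leaf [1, 0, 5, 18, 13])
  (.br 18 11 (.leaf [0, 18, 12, 13])
  (.br 18 12 (.leaf [6, 0, 18, 13, 1, 20, 19, 5, 10, 11])
  (.leaf [13, 0, 1, 5, 13, 2, 3, 4, 20, 19, 18, 10, 11, 12])))))))))))))))))))))))))))))))))))))

/-- decision tree -/
def dt567 : DT := (.br 4 21 (.leaf [0, 0, 1, 4])
  (.br 4 20 (.leaf [1, 0, 1, 21, 4])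
  (.br 4 19 (.leaf [1, 0, 4, 18, 13])
  (.br 4 18 (.leaf [0, 0, 4, 13])
  (.br 1 10 (.leaf [0, 0, 1, 4])
  (.br 1 11 (.leaf [1, 0, 1, 10, 4])
  (.br 1 12 (.leaf [0, 0, 1, 13])
  (.br 13 3 (.leaf [0, 0, 13, 4])
  (.br 13 2 (.leaf [0, 0, 1, 13])
  (.br 3 10 (.br 2 12 (.leaf [0, 2, 3, 11])
  (.br 2 11 (.leaf [2, 0, 2, 1, 4, 3, 13, 12])
  (.leaf [4, 0, 3, 4, 1, 2, 13, 12, 11])))
  (.br 3 11 (.leaf [0, 3, 4, 10])
  (.br 3 12 (.leaf [1, 0, 4, 3, 13])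
  (.br 3 21 (.leaf [0, 1, 2, 3])
  (.br 3 20 (.leaf [4, 0, 3, 4, 1, 21, 13, 18, 19])
  (.br 3 19 (.leaf [4, 0, 3, 4, 13, 18, 1, 21, 20])
  (.br 3 18 (.leaf [1, 0, 4, 3, 13])
  (.br 2 10 (.leaf [0, 2, 3, 4])
  (.br 2 11 (.leaf [1, 2, 3, 4, 10])
  (.br 2 12 (.leaf [1, 0, 1, 2, 13])
  (.br 2 21 (.br 10 18 (.leaf [1, 0, 4, 10, 13])
  (.br 10 19 (.leaf [2, 2, 4, 3, 1, 0, 20, 10])
  (.br 10 20 (.leaf [1, 2, 3, 4, 10])
  (.br 11 18 (.leaf [0, 11, 12, 13])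
  (.br 11 19 (.leaf [4, 2, 4, 3, 1, 0, 20, 11, 10])
  (.br 11 20 (.leaf [2, 2, 4, 3, 1, 0, 11, 10])
  (.br 12 18 (.leaf [9, 0, 1, 2, 3, 4, 10, 11, 12, 13, 19, 20])
  (.br 12 19 (.leaf [0, 12, 13, 18])
  (.br 12 20 (.leaf [1, 12, 13, 18, 19])
  (.leaf [11, 0, 1, 2, 3, 4, 10, 11, 12, 13, 18, 19, 20]))))))))))
  (.br 2 20 (.leaf [0, 1, 2, 21])
  (.br 2 19 (.leaf [1, 1, 2, 20, 21])
  (.br 2 18 (.leaf [1, 0, 1, 2, 13])
  (.br 10 21 (.leaf [1, 0, 1, 10, 4])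
  (.br 10 20 (.leaf [2, 1, 4, 0, 2, 3, 21, 10])
  (.br 10 19 (.leaf [3, 0, 4, 1, 2, 3, 13, 18, 10])
  (.br 10 18 (.leaf [1, 0, 4, 10, 13])
  (.br 11 21 (.leaf [2, 0, 11, 1, 4, 10, 13, 12])
  (.br 11 20 (.leaf [4, 1, 4, 0, 2, 3, 21, 11, 10])
  (.br 11 19 (.leaf [7, 0, 11, 4, 10, 13, 18, 1, 21, 20])
  (.br 11 18 (.leaf [0, 11, 12, 13])
  (.br 12 21 (.leaf [1, 0, 1, 12, 13])
  (.br 12 20 (.leaf [1, 12, 13, 18, 19])
  (.br 12 19 (.leaf [0, 12, 13, 18])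
  (.br 12 18 (.leaf [10, 0, 1, 2, 3, 4, 10, 11, 12, 13, 19, 20, 21])
  (.leaf [12, 0, 4, 1, 13, 3, 2, 10, 11, 12, 21, 20, 19, 18]))))))))))))))))))))))))))))))))))))

/-- decision tree -/
def dt576 : DT := (.br 1 10 (.leaf [0, 0, 1, 4])
  (.br 1 11 (.leaf [1, 0, 1, 10, 4])
  (.br 1 12 (.leaf [1, 0, 1, 13, 14])
  (.br 1 13 (.leaf [0, 0, 1, 14])
  (.br 4 20 (.leaf [0, 0, 1, 4])
  (.br 4 19 (.leaf [1, 0, 1, 20, 4])
  (.br 4 18 (.leaf [0, 0, 4, 14])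
  (.br 14 2 (.leaf [0, 0, 1, 14])
  (.br 14 3 (.leaf [0, 0, 14, 4])
  (.br 2 20 (.br 3 18 (.leaf [0, 2, 3, 19])
  (.br 3 19 (.leaf [2, 0, 3, 4, 1, 2, 14, 18])
  (.leaf [4, 0, 2, 1, 4, 3, 14, 18, 19])))
  (.br 2 19 (.leaf [0, 1, 2, 20])
  (.br 2 18 (.leaf [1, 0, 1, 2, 14])
  (.br 2 10 (.leaf [0, 2, 3, 4])
  (.br 2 11 (.leaf [4, 0, 2, 1, 4, 10, 14, 13, 12])
  (.br 2 12 (.leaf [4, 0, 2, 1, 14, 13, 4, 10, 11])
  (.br 2 13 (.leaf [1, 0, 1, 2, 14])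
  (.br 3 20 (.leaf [0, 1, 2, 3])
  (.br 3 19 (.leaf [1, 1, 2, 3, 20])
  (.br 3 18 (.leaf [1, 0, 4, 3, 14])
  (.br 3 10 (.br 20 13 (.leaf [1, 0, 1, 20, 14])
  (.br 20 12 (.leaf [2, 1, 3, 2, 0, 4, 20, 11])
  (.br 20 11 (.leaf [1, 1, 2, 3, 20])
  (.br 19 13 (.leaf [0, 19, 14, 18])
  (.br 19 12 (.leaf [4, 1, 3, 2, 0, 4, 20, 19, 11])
  (.br 19 11 (.leaf [2, 1, 3, 2, 0, 4, 20, 19])
  (.br 18 13 (.leaf [9, 0, 4, 3, 2, 1, 20, 19, 18, 14, 12, 11])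
  (.br 18 12 (.leaf [0, 18, 13, 14])
  (.br 18 11 (.leaf [1, 18, 12, 13, 14])
  (.leaf [11, 0, 4, 3, 2, 1, 20, 19, 18, 14, 13, 12, 11]))))))))))
  (.br 3 11 (.leaf [0, 3, 4, 10])
  (.br 3 12 (.leaf [1, 3, 4, 10, 11])
  (.br 3 13 (.leaf [1, 0, 4, 3, 14])
  (.br 20 10 (.leaf [1, 0, 1, 20, 4])
  (.br 20 11 (.leaf [2, 1, 4, 0, 2, 3, 20, 10])
  (.br 20 12 (.leaf [3, 0, 1, 4, 3, 2, 14, 13, 20])
  (.br 20 13 (.leaf [1, 0, 1, 20, 14])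
  (.br 19 10 (.leaf [2, 0, 19, 4, 1, 20, 14, 18])
  (.br 19 11 (.leaf [4, 1, 4, 0, 2, 3, 20, 19, 10])
  (.br 19 12 (.leaf [7, 0, 19, 1, 20, 14, 13, 4, 10, 11])
  (.br 19 13 (.leaf [0, 19, 14, 18])
  (.br 18 10 (.leaf [1, 0, 4, 18, 14])
  (.br 18 11 (.leaf [1, 18, 12, 13, 14])
  (.br 18 12 (.leaf [0, 18, 13, 14])
  (.br 18 13 (.leaf [10, 0, 4, 3, 2, 1, 20, 19, 18, 14, 12, 11, 10])
  (.leaf [12, 0, 1, 4, 14, 2, 3, 20, 19, 18, 10, 11, 12, 13]))))))))))))))))))))))))))))))))))))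

lemma forbF_free {V : Type} [Fintype V] {G : DG V} {N : ℕ} (h : G.MinF N) :
    ∀ H ∈ forbF, ¬ G.Cont H := by
  have h0 := fc3_free h (by simp only [List.forall_mem_cons, List.not_mem_nil, false_imp_iff, imp_true_iff, and_self, not_false_eq_true])
  have h1 := fc4_free h (by simp only [List.forall_mem_cons, List.not_mem_nil, false_imp_iff, imp_true_iff, and_self, not_false_eq_true, h0])
  have h2 := ft233_free h (by simp only [List.forall_mem_cons, List.not_mem_nil, false_imp_iff, imp_true_iff, and_self, not_false_eq_true, h0, h1])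
  have h3 := ft144_free h (by simp only [List.forall_mem_cons, List.not_mem_nil, false_imp_iff, imp_true_iff, and_self, not_false_eq_true, h0, h1, h2])
  have h4 := ft234_free h (by simp only [List.forall_mem_cons, List.not_mem_nil, false_imp_iff, imp_true_iff, and_self, not_false_eq_true, h0, h1, h2, h3])
  have h5 := ft333_free h (by simp only [List.forall_mem_cons, List.not_mem_nil, false_imp_iff, imp_true_iff, and_self, not_false_eq_true, h0, h1, h2, h3, h4])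
  have h6 := ft244_free h (by simp only [List.forall_mem_cons, List.not_mem_nil, false_imp_iff, imp_true_iff, and_self, not_false_eq_true, h0, h1, h2, h3, h4, h5])
  have h7 := ft334_free h (by simp only [List.forall_mem_cons, List.not_mem_nil, false_imp_iff, imp_true_iff, and_self, not_false_eq_true, h0, h1, h2, h3, h4, h5, h6])
  have h8 := fp566_free h (by simp only [List.forall_mem_cons, List.not_mem_nil, false_imp_iff, imp_true_iff, and_self, not_false_eq_true, h0, h1, h2, h3, h4, h5, h6, h7])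
  have h9 := fd567a_free h (by simp only [List.forall_mem_cons, List.not_mem_nil, false_imp_iff, imp_true_iff, and_self, not_false_eq_true, h0, h1, h2, h3, h4, h5, h6, h7, h8])
  have h10 := fd567b_free h (by simp only [List.forall_mem_cons, List.not_mem_nil, false_imp_iff, imp_true_iff, and_self, not_false_eq_true, h0, h1, h2, h3, h4, h5, h6, h7, h8, h9])
  have h11 := fd567c_free h (by simp only [List.forall_mem_cons, List.not_mem_nil, false_imp_iff, imp_true_iff, and_self, not_false_eq_true, h0, h1, h2, h3, h4, h5, h6, h7, h8, h9, h10])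
  have h12 := fp567_free h (by simp only [List.forall_mem_cons, List.not_mem_nil, false_imp_iff, imp_true_iff, and_self, not_false_eq_true, h0, h1, h2, h3, h4, h5, h6, h7, h8, h9, h10, h11])
  have h13 := fp666_free h (by simp only [List.forall_mem_cons, List.not_mem_nil, false_imp_iff, imp_true_iff, and_self, not_false_eq_true, h0, h1, h2, h3, h4, h5, h6, h7, h8, h9, h10, h11, h12])
  simp only [forbF, List.forall_mem_cons, List.not_mem_nil, false_imp_iff, imp_true_iff, and_self, not_false_eq_true, DG.star_free, h0, h1, h2, h3, h4, h5, h6, h7, h8, h9, h10, h11, h12, h13]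

theorem DG.MinF.bound {V : Type} [Fintype V] [Nonempty V] {G : DG V} {g : ℕ}
    (h : G.MinF (2 ^ g)) : Fintype.card V + 240 ≤ 120 * g := by
  have hF := forbF_free h
  refine DG.count h.bl h.multi (fun Y _ hY => h.conn Y ?_) h.fam (hF _ (by simp [forbF]))
    (hF _ (by simp [forbF])) ?_
  · exact Finset.sum_eq_zero fun d _ => ind_neg fun c => c.2 (hY d c.1 trivial)
  have a1 : ∀ {v x y z}, G.Cyc v x y 5 → z ≠ x → ¬ G.Cyc v y z 5 := fun a c b =>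
    absurd (a.two hF b c (by decide) dt55) (by decide +kernel)
  have a2 : ∀ {v x y z}, G.Cyc v x y 5 → G.Cyc v y z 6 → ¬ G.Cyc v z x 6 := fun a b c =>
    absurd (a.three hF b c (by decide) dt566) (by decide +kernel)
  have a3 : ∀ {v x y z}, G.Cyc v x y 6 → G.Cyc v y z 6 → ¬ G.Cyc v z x 6 := fun a b c =>
    absurd (a.three hF b c (by decide) dt666) (by decide +kernel)
  have a4 : ∀ {v x y z}, G.Cyc v x y 5 → G.Cyc v y z 6 → ¬ G.Cyc v z x 7 := fun a b c =>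
    absurd (a.three hF b c (by decide) dt567) (by decide +kernel)
  have a5 : ∀ {v x y z}, G.Cyc v x y 5 → G.Cyc v y z 7 → ¬ G.Cyc v z x 6 := fun a b c =>
    absurd (a.three hF b c (by decide) dt576) (by decide +kernel)
  have key : ∀ a, 5 ≤ a → (a = 5 ∧ wt a = 168) ∨ (a = 6 ∧ wt a = 140) ∨ (a = 7 ∧ wt a = 120) ∨
      wt a = 105 := by
    intro a ha
    by_cases c : a < 8
    · interval_cases a <;> simp [wt]
    · simp [wt, min_eq_right (not_lt.1 c)]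
  intro v x y z a b c ha hb hc h1 h2 h3
  rcases key a h1 with ⟨rfl, e1⟩ | ⟨rfl, e1⟩ | ⟨rfl, e1⟩ | e1 <;>
    rcases key b h2 with ⟨rfl, e2⟩ | ⟨rfl, e2⟩ | ⟨rfl, e2⟩ | e2 <;>
    rcases key c h3 with ⟨rfl, e3⟩ | ⟨rfl, e3⟩ | ⟨rfl, e3⟩ | e3 <;>
    first
      | omega
      | exact absurd hb (a1 ha (hc.ne (by omega)))
      | exact absurd hc (a1 hb (ha.ne (by omega)))
      | exact absurd ha (a1 hc (hb.ne (by omega)))
      | exact absurd hc (a2 ha hb)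
      | exact absurd ha (a2 hb hc)
      | exact absurd hb (a2 hc ha)
      | exact absurd hc (a3 ha hb)
      | exact absurd hc (a4 ha hb)
      | exact absurd ha (a4 hb hc)
      | exact absurd hb (a4 hc ha)
      | exact absurd hc (a5 ha hb)
      | exact absurd ha (a5 hb hc)
      | exact absurd hb (a5 hc ha)

end Pool.Agent.P.MP_40718a_co
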