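import Pool.Agent.P.MP_40718a_co.Cert344P0
import Pool.Agent.P.MP_40718a_co.Cert344P1
import Pool.Agent.P.MP_40718a_co.Cert344P2
import Pool.Agent.P.MP_40718a_co.Cert344P3
import Pool.Agent.P.MP_40718a_co.Cert344P4
import Pool.Agent.P.MP_40718a_co.Cert344P5
import Pool.Agent.P.MP_40718a_co.Cert344P6
import Pool.Agent.P.MP_40718a_co.Cert344P7
import Pool.Agent.P.MP_40718a_co.Cert344P8

/-! Certificate. -/

namespace Pool.Agent.P.MP_40718a_co

theorem t344X_ok : Cov ((Tab.mk 8 sw 36030 t344X 3005 t344W).ckX (extC 8 (8 + 3 * 10) 61 t344C)) 36030 :=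
  allI_step (allI_step (allI_step (allI_step (allI_step (allI_step (allI_step (allI_step (allI_step (allI_step (allI_step (allI_step (allI_step (allI_step (allI_step (allI_step (allI_step (allI_step (allI_step (allI_step (allI_step (allI_step (allI_step (allI_step (allI_step (allI_step (allI_step (allI_step (allI_step (allI_step (allI_step (allI_step (allI_step (allI_step (allI_step (allI_step (allI_step (allI_step (allI_step (allI_step (allI_step (allI_step (allI_step (allI_step (allI_step (allI_step (allI_step (allI_step (allI_step (allI_step (allI_step (allI_step (allI_step (allI_step (allI_step (allI_step (allI_step (allI_step (allI_step (allI_step (allI_step (allI_step (allI_step (allI_step (allI_step (allI_step (allI_step (allI_step (allI_step (allI_step (allI_step (allI_step (allI_step (allI_step (allI_step (allI_step (allI_step (allI_step (allI_step (allI_step (allI_step (allI_step (allI_step (allI_step (allI_step (allI_step (allI_step (allI_step (allI_step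 (allI_step (allI_step (allI_step (allI_step (allI_step (allI_step (allI_step (allI_step (allI_step (allI_step (allI_step (allI_step (allI_step (allI_step (allI_step (allI_step (allI_step (allI_step (allI_step (allI_step (allI_step (allI_zero _) t344X_0) t344X_1) t344X_2) t344X_3) t344X_4) t344X_5) t344X_6) t344X_7) t344X_8) t344X_9) t344X_10) t344X_11) t344X_12) t344X_13) t344X_14) t344X_15) t344X_16) t344X_17) t344X_18) t344X_19) t344X_20) t344X_21) t344X_22) t344X_23) t344X_24) t344X_25) t344X_26) t344X_27) t344X_28) t344X_29) t344X_30) t344X_31) t344X_32) t344X_33) t344X_34) t344X_35) t344X_36) t344X_37) t344X_38) t344X_39) t344X_40) t344X_41) t344X_42) t344X_43) t344X_44) t344X_45) t344X_46) t344X_47) t344X_48) t344X_49) t344X_50) t344X_51) t344X_52) t344X_53) t344X_54) t344X_55) t344X_56) t344X_57) t344X_58) t344X_59) t344X_60) t344X_61) t344X_62) t344X_63) t344X_64) t344X_65) t344X_66) t344X_67) t344X_68) t344X_69) t344X_70) t344X_71) t344X_72) t344X_73)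 t344X_74) t344X_75) t344X_76) t344X_77) t344X_78) t344X_79) t344X_80) t344X_81) t344X_82) t344X_83) t344X_84) t344X_85) t344X_86) t344X_87) t344X_88) t344X_89) t344X_90) t344X_91) t344X_92) t344X_93) t344X_94) t344X_95) t344X_96) t344X_97) t344X_98) t344X_99) t344X_100) t344X_101) t344X_102) t344X_103) t344X_104) t344X_105) t344X_106) t344X_107) t344X_108) t344X_109

theorem t344W_ok : Cov (Tab.mk 8 sw 36030 t344X 3005 t344W).ckW 3005 :=
  allI_step (allI_step (allI_step (allI_step (allI_step (allI_step (allI_step (allI_step (allI_step (allI_step (allI_step (allI_step (allI_step (allI_step (allI_step (allI_step (allI_step (allI_step (allI_step (allI_step (allI_step (allI_step (allI_step (allI_step (allI_step (allI_step (allI_zero _) t344W_0) t344W_1) t344W_2) t344W_3) t344W_4) t344W_5) t344W_6) t344W_7) t344W_8) t344W_9) t344W_10) t344W_11) t344W_12) t344W_13) t344W_14) t344W_15) t344W_16) t344W_17) t344W_18) t344W_19) t344W_20) t344W_21) t344W_22) t344W_23)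 t344W_24) t344W_25

theorem t344_red : chk (2 ^ (8 + 3 * 4) - 1) (fun M => (Tab.mk 8 sw 36030 t344X 3005 t344W).test (M.map (· % 2 ^ 8))) 6
    (pms 8 4 t344J) 0 0 [] = true := by decide +kernel

theorem t344_safe : safe 8 4 t344J 4 [[], [0], [2], [0, 1], [2, 3], [6, 7], [0, 1, 3], [0, 1, 6], [2, 3, 4], [2, 4, 7]] = true := by decide +kernel

theorem t344_free {V : Type} [Fintype V] {G : DG V} (h : G.Min)
    (hF : ∀ H ∈ ([(3, c3E), (4, c4E), (7, t233E), (8, t144E), (8, t234E), (8, t333E), (9, t244E), (9, t334E)] : List (ℕ × List (ℕ × ℕ))), ¬ G.Cont H) : ¬ G.Cont (10, t344E) :=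
  DG.config h.multi h.small h.nocover h.lev hF (ι := t344I) (by decide +kernel)
    (W := [[], [], [0, 0, 2, 4], [1, 0, 2, 5, 4], [1, 1, 3, 2, 6], [0, 0, 2, 7], [1, 0, 2, 8, 7], [1, 1, 3, 2, 9], [], [], [1, 0, 2, 3, 4], [1, 1, 3, 5, 6], [0, 1, 3, 6], [1, 0, 2, 3, 7], [1, 1, 3, 8, 9], [0, 1, 3, 9], [0, 0, 2, 4], [1, 0, 2, 3, 4], [], [], [0, 4, 5, 6], [0, 0, 4, 7], [1, 0, 4, 8, 7], [3, 4, 9, 0, 7, 8, 5, 6, 1], [1, 0, 2, 5, 4], [1, 1, 3, 5, 6], [], [], [], [1, 0, 4, 5, 7], [3, 5, 8, 4, 0, 7, 6, 1, 9], [1, 1, 6, 5, 9], [1, 1, 3, 2, 6], [0, 1, 3, 6], [0, 4, 5, 6], [], [], [3, 6, 7, 1, 9, 8, 5, 4, 0], [1, 1, 6, 8, 9], [0, 1, 6, 9], [0, 0, 2, 7], [1, 0, 2, 3, 7], [0, 0, 4, 7], [1, 0, 4, 5, 7], [3, 6, 7, 1, 9, 8, 5, 4, 0], [], [], [0, 7, 8, 9], [1, 0, 2, 8, 7], [1, 1, 3, 8, 9], [1, 0, 4, 8, 7], [3, 5, 8, 4, 0, 7, 6, 1, 9], [1, 1, 6, 8, 9], [], [], [], [1, 1, 3, 2, 9], [0, 1, 3, 9], [3, 4, 9, 0, 7, 8, 5, 6, 1], [1, 1, 6, 5, 9], [0, 1, 6, 9], [0, 7, 8, 9], [], []]) (by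 decide +kernel)
    (W' := [[], [0, 2, 3, 10], [], [4, 2, 5, 10, 0, 4, 3, 1, 6], [], [], [4, 2, 8, 10, 0, 7, 3, 1, 9], [], [], [], [], [4, 3, 5, 10, 1, 6, 2, 0, 4], [], [], [4, 3, 8, 10, 1, 9, 2, 0, 7], [], [], [], [], [0, 4, 5, 10], [1, 4, 5, 6, 10], [], [], [6, 4, 9, 10, 0, 7, 8, 5, 6, 1], [], [], [], [], [0, 5, 6, 10], [], [], [], [], [], [], [], [], [], [], [1, 1, 6, 10, 9], [], [], [], [], [], [], [], [], [], [], [], [], [], [], [], [0, 8, 9, 10], [], [], [], [], [], [], [], []]) (by decide +kernel)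
    (by decide +kernel) t344_safe (by decide) (by decide +kernel) sw8 t344X_ok t344W_ok t344_red

end Pool.Agent.P.MP_40718a_co
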