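import Pool.Agent.P.MP_40718a_co.LevF

/-! Reducible configurations within a class of labelled graphs. -/

namespace Pool.Agent.P.MP_40718a_co

/-- The sum of the entries chosen by the bits. -/
def ssum : List (ZMod 2) → ℕ → ZMod 2
  | [], _ => 0
  | a :: l, n => (if n % 2 = 1 then a else 0) + ssum l (n / 2)

lemma ssum_zero : ∀ l, ssum l 0 = 0
  | [] => rfl
  | _ :: l => by simp [ssum, ssum_zero l]

lemma ssum_xor : ∀ l a b, ssum l (a ^^^ b) = ssum l a + ssum l b
  | [], _, _ => by simp [ssum]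
  | x :: l, a, b => by
    simp only [ssum, Nat.xor_div_two, ssum_xor l, Nat.xor_mod_two_eq_one]
    have := z2_self x
    by_cases h1 : a % 2 = 1 <;> by_cases h2 : b % 2 = 1 <;>
      simp only [h1, h2, iff_self, not_true, not_false_iff, if_true, if_false, iff_false,
        iff_true]
    · linear_combination -this
    all_goals ring

lemma ssum_sub (l : List (ZMod 2)) : ∀ Ms c, ssum l (sub Ms c) = ssum (Ms.map (ssum l)) c
  | [], _ => ssum_zero l
  | m :: Ms, c => by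
    by_cases h : c % 2 = 1
    · simp [sub, ssum, h, ssum_xor, ssum_sub l Ms]
    · have : Nat.beq (c % 2) 1 = false := by rw [← Bool.not_eq_true, Nat.beq_eq]; exact h
      simp [sub, ssum, h, this, ssum_sub l Ms]

lemma ssum_pow : ∀ l p, ssum l (2 ^ p) = l.getD p 0
  | [], _ => rfl
  | a :: l, 0 => by simp [ssum, ssum_zero]
  | a :: l, p + 1 => by simp [ssum, pow_succ, ssum_pow l p]

lemma ssum_eq_zero : ∀ l, (∀ a ∈ l, a = 0) → ∀ n, ssum l n = 0
  | [], _, _ => rfl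
  | a :: l, h, n => by
    simp [ssum, h a List.mem_cons_self, ssum_eq_zero l fun b hb => h b (List.mem_cons_of_mem _ hb)]

lemma ssum_range {N p : ℕ} (X : ℕ → ZMod 2) (h : p < N) :
    ssum ((List.range N).map X) (2 ^ p) = X p := by simp [ssum_pow, h]

lemma ssum_lin {l : List (ZMod 2)} {Cs A W : List ℕ} (h : A = W.map (sub Cs))
    (hX : ∀ c ∈ Cs, ssum l c = 0) : ∀ c ∈ A, ssum l c = 0 := by
  intro c hc
  obtain ⟨w, -, rfl⟩ := List.mem_map.1 (h ▸ hc)
  rw [ssum_sub]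
  exact ssum_eq_zero _ (by simpa using hX) _

/-- The linear conditions of a table with the points `D` deleted. -/
def cons (k n : ℕ) (ι : ℕ → ℕ) (D : List ℕ) : List ℕ :=
  (List.range (k + 3 * n)).map (fun p => 2 ^ ι p ^^^ 2 ^ p) ++
    ((List.range n).map (fun v => 2 ^ (k + 3 * v) ^^^ 2 ^ (k + 3 * v + 1) ^^^ 2 ^ (k + 3 * v + 2))
      ++ D.map (2 ^ ·))

lemma cons_iff {k n : ℕ} {ι : ℕ → ℕ} {D : List ℕ} (h1 : ∀ p < k + 3 * n, ι p < k + 3 * n)
    (h2 : ∀ p ∈ D, p < k + 3 * n) (X : ℕ → ZMod 2) :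
    (∀ c ∈ cons k n ι D, ssum ((List.range (k + 3 * n)).map X) c = 0) ↔
      EvT k n ι X ∧ ∀ p ∈ D, X p = 0 := by
  simp only [cons, List.forall_mem_append, List.forall_mem_map, List.mem_range, ssum_xor, EvT,
    and_assoc]
  refine and_congr (forall₂_congr fun p hp => ?_) (and_congr (forall₂_congr fun v hv => ?_)
    (forall₂_congr fun p hp => ?_))
  · rw [ssum_range _ hp, ssum_range _ (h1 p hp), z2_add]
  · rw [ssum_range _ (by omega), ssum_range _ (by omega), ssum_range _ (by omega)]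
  · rw [ssum_range _ (h2 p hp)]

/-- The reducer is a minor of the configuration. -/
noncomputable def minorOK (k n : ℕ) (ι : ℕ → ℕ) (n' : ℕ) (ι' : ℕ → ℕ) (D : List ℕ) (π μ : ℕ → ℕ)
    (W1 W2 W3 : List ℕ) : Bool :=
  D.all (fun p => Nat.ble k p && Nat.blt p (k + 3 * n)) &&
    allB (fun p => Nat.blt (π p) (k + 3 * n) &&
      bif Nat.blt p k then Nat.beq (π p) p else Nat.ble k (π p)) (k + 3 * n') &&
    (cons k n' ι' []).map (sub ((List.range (k + 3 * n')).map fun p => 2 ^ π p)) ==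
      W1.map (sub (cons k n ι D)) &&
    (cons k n ι D).map (sub ((List.range (k + 3 * n)).map μ)) == W2.map (sub (cons k n' ι' [])) &&
    (List.range (k + 3 * n')).map (fun p => μ (π p) ^^^ 2 ^ p) == W3.map (sub (cons k n' ι' []))

/-- One of the two sides is impossible. -/
noncomputable def bad2 (k n : ℕ) (ι : ℕ → ℕ) (Cl : List (List ℕ)) (wY : ℕ → ℕ → ℕ) (a T : ℕ) :
    Bool :=
  bad1 k n ι 3 Cl wY a T || bad1 k n ι 3 Cl wY a (T ^^^ (2 ^ k - 1))

/-- Two exceptional splits cannot occur together. -/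
noncomputable def uncOK (k : ℕ) (bad : ℕ → ℕ → Bool) (ψ' : ℕ → ℕ) (U : List (ℕ × ℕ))
    (L : List ℕ) : Bool :=
  U.all fun u => U.all fun v => L.any fun S =>
    (allB (fun t => S.testBit t == v.2.testBit (ψ' t)) k ||
      allB (fun t => (S ^^^ (2 ^ k - 1)).testBit t == v.2.testBit (ψ' t)) k) &&
    allB (fun x => allB (fun y => Nat.blt (u.1 + v.1) (x + y) || bad x (u.2 &&& S) ||
      bad y (u.2 ||| S)) (u.1 + v.1 + 1)) (u.1 + v.1 + 1)

namespace DG
variable {V : Type} {G : DG V}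

theorem embed (hM : G.NoMulti) {F : List (ℕ × List (ℕ × ℕ))} (hF : ∀ H ∈ F, ¬ G.Cont H)
    {k n : ℕ} {ι : ℕ → ℕ} {E : List (ℕ × ℕ)} (h1 : cfgOK k n ι E = true)
    {W : List (List ℕ)} (h2 : chordOK k n ι E F W = true) (hc : G.Cont (n, E)) :
    ∃ R q, G.Emb k n ι R q := by
  classical
  obtain ⟨f, finj, fadj⟩ := hc
  simp only at finj fadj
  simp only [cfgOK, Bool.and_eq_true, allB_spec, Nat.ble_eq, Nat.beq_eq, Bool.or_eq_true,
    Nat.blt_eq, List.any_eq_true, Bool.not_eq_true', List.all_eq_true] at h1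
  obtain ⟨⟨⟨t1, t2⟩, t3⟩, t4⟩ := h1
  replace t1 := tblOK_spec t1
  have t5 : ∀ p < k + 3 * n, k ≤ p → (p - k) % 3 ≠ 2 → k ≤ ι p := by
    intro p hp a1 a2
    by_contra a3
    have := (t2 (ι p) (by omega)).2
    rw [(t1 p hp).2.1] at this
    exact a2 this
  have hadj : ∀ p < k + 3 * n, k ≤ p → k ≤ ι p → G.Adj (f ((p - k) / 3)) (f ((ι p - k) / 3)) := by
    intro p hp a1 a2
    obtain ⟨e, he, a3⟩ := ((t3 p hp).resolve_left (by omega)).1
    rcases a3 with a3 | a3
    · rw [← a3.1, ← a3.2]; exact fadj e he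
    · rw [← a3.1, ← a3.2]; exact (fadj e he).symm
  have hdis : ∀ v < n, ∀ i j, i < j → j < 3 → k ≤ ι (k + 3 * v + i) → k ≤ ι (k + 3 * v + j) →
      f ((ι (k + 3 * v + i) - k) / 3) ≠ f ((ι (k + 3 * v + j) - k) / 3) := by
    intro v hv i j a1 a2 a3 a4 a5
    have b1 := (t1 (k + 3 * v + i) (by omega)).1
    have b2 := (t1 (k + 3 * v + j) (by omega)).1
    have := ((t3 (k + 3 * v + j) (by omega)).resolve_left (by omega)).2 i (by omega)
    rw [show (k + 3 * v + j - k) / 3 = v by omega] at this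
    exact Nat.ne_of_beq_eq_false (this.resolve_left (by omega))
      (finj _ (by omega) _ (by omega) a5)
  have hg : ∀ v, ∃ g : Fin 3 → Fin 3, v < n → Function.Bijective g ∧ ∀ i : Fin 3,
      k ≤ ι (k + 3 * v + i) → (G.σ (f v, g i)).1 = f ((ι (k + 3 * v + i) - k) / 3) := by
    intro v
    by_cases hv : v < n
    swap
    · exact ⟨id, fun h => absurd h hv⟩
    have a0 := t5 (k + 3 * v + 0) (by omega) (by omega) (by omega)
    have a1 := t5 (k + 3 * v + 1) (by omega) (by omega) (by omega)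
    have e : ∀ i < 3, (k + 3 * v + i - k) / 3 = v := by omega
    obtain ⟨j0, b0⟩ := hadj _ (by omega) (by omega) a0
    obtain ⟨j1, b1⟩ := hadj _ (by omega) (by omega) a1
    rw [e _ (by omega)] at b0 b1
    have c01 : j0 ≠ j1 := by
      rintro rfl
      exact hdis v hv 0 1 (by omega) (by omega) a0 a1 (b0.symm.trans b1)
    have : ∀ x y : Fin 3, x ≠ y → ∃ z, Function.Bijective ![x, y, z] ∧
      ∀ w, w ≠ x → w ≠ y → w = z := by decide
    obtain ⟨j2, c1, c2⟩ := this j0 j1 c01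
    refine ⟨![j0, j1, j2], fun _ => ⟨c1, fun i => ?_⟩⟩
    fin_cases i
    · exact fun _ => b0
    · exact fun _ => b1
    · intro a2
      obtain ⟨j, b2⟩ := hadj (k + 3 * v + 2) (by omega) (by omega) a2
      rw [e _ (by omega)] at b2
      have := c2 j (by
        rintro rfl
        exact hdis v hv 0 2 (by omega) (by omega) a0 a2 (b0.symm.trans b2)) (by
        rintro rfl
        exact hdis v hv 1 2 (by omega) (by omega) a1 a2 (b1.symm.trans b2))
      subst this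
      exact b2
  choose g hg using hg
  let q : ℕ → V × Fin 3 := fun p =>
    (f ((p - k) / 3), g ((p - k) / 3) ⟨(p - k) % 3, Nat.mod_lt _ (by omega)⟩)
  have q1 : ∀ p < k + 3 * n, k ≤ p → k ≤ ι p → (G.σ (q p)).1 = f ((ι p - k) / 3) := by
    intro p hp a1 a2
    have := (hg ((p - k) / 3) (by omega)).2 ⟨(p - k) % 3, Nat.mod_lt _ (by omega)⟩
    simp only [show k + 3 * ((p - k) / 3) + (p - k) % 3 = p by omega] at this
    exact this a2
  have qc : ∀ p < k + 3 * n, k ≤ p → k ≤ ι p → G.σ (q p) = q (ι p) := by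
    intro p hp a1 a2
    have b1 := q1 p hp a1 a2
    have b2 := q1 (ι p) (t1 p hp).1 a2 (by rw [(t1 p hp).2.1]; exact a1)
    rw [(t1 p hp).2.1] at b2
    refine Prod.ext b1 (hM (q (ι p)).1 _ _ ?_)
    rw [show ((q (ι p)).1, (q (ι p)).2) = q (ι p) from rfl, b2,
      show (q (ι p)).1 = (G.σ (q p)).1 from b1.symm]
    simp [G.inv, q]
  have qinj : ∀ p < k + 3 * n, k ≤ p → ∀ p' < k + 3 * n, k ≤ p' → q p = q p' → p = p' := by
    intro p hp a1 p' hp' a2 h
    have b1 := finj _ (by omega) _ (by omega) (congrArg Prod.fst h)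
    have b2 := congrArg Prod.snd h
    simp only [q, b1] at b2
    have := congrArg Fin.val ((hg _ (by omega)).1.1 b2)
    simp only at this
    omega
  let R : Set V := {w | ∀ u < n, f u ≠ w}
  have qs : ∀ d : V × Fin 3, d.1 ∉ R → ∃ p < k + 3 * n, k ≤ p ∧ q p = d := by
    rintro ⟨w, j⟩ hd
    simp only [R, Set.mem_ofPred_eq, not_forall, not_not] at hd
    obtain ⟨u, hu, rfl⟩ := hd
    obtain ⟨i, rfl⟩ := (hg u hu).1.2 j
    refine ⟨k + 3 * u + i, by omega, by omega, ?_⟩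
    have a3 : (k + 3 * u + i - k) / 3 = u := by omega
    have a4 : (k + 3 * u + i - k) % 3 = i := by omega
    simp [q, a3, a4]
  have qR : ∀ p < k + 3 * n, k ≤ p → (q p).1 ∉ R := fun p hp a1 h => h _ (by omega) rfl
  have hbd : ∀ t < k, (G.σ (q (ι t))).1 ∈ R := by
    intro t ht
    by_contra hc
    obtain ⟨p, hp, a1, a2⟩ := qs _ hc
    have b1 := t1 t (by omega)
    have b2 := t1 p hp
    have b3 := t2 t ht
    have a3 : G.σ (q p) = q (ι t) := by rw [a2, G.inv]
    by_cases a4 : k ≤ ι p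
    · rw [qc p hp a1 a4] at a3
      have := qinj _ b2.1 a4 _ b1.1 b3.1 a3
      have : p = t := by rw [← b2.2.1, this, b1.2.1]
      omega
    have a5 : G.Adj (f ((ι t - k) / 3)) (f ((p - k) / 3)) := ⟨(q (ι t)).2, congrArg Prod.fst a2.symm⟩
    have := allB_spec.1 (allB_spec.1 h2 (ι p) (by omega)) t ht
    simp only [Bool.or_eq_true, Nat.beq_eq, b2.2.1] at this
    have a6 : ∀ i, i < 2 → (ι (k + 3 * ((ι t - k) / 3) + i) - k) / 3 ≠ (p - k) / 3 := by
      intro i hi h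
      have c1 := (hg ((ι t - k) / 3) (by omega)).2 ⟨i, by omega⟩
        (t5 _ (by simp only; omega) (by omega) (by simp only; omega))
      simp only [h] at c1
      have c2 := hM _ _ (q (ι t)).2 (c1.trans (congrArg Prod.fst a2))
      have := congrArg Fin.val ((hg _ (by omega)).1.1 c2)
      simp only at this
      omega
    rcases this with ((h | h) | h) | h
    · refine G.ne (q p) ?_
      rw [a3, ← h, b2.2.1]
    · exact a6 0 (by omega) h
    · exact a6 1 (by omega) h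
    · refine not_cont hF h ⟨f, finj, fun e he => ?_⟩
      rcases List.mem_cons.1 he with rfl | he
      · exact a5
      · exact fadj e he
  have e1 : ∀ t < k, k ≤ ι t := fun t ht => (t2 t ht).1
  have e2 : ∀ t < k, ι t < k + 3 * n := fun t ht => (t1 t (by omega)).1
  refine ⟨R, fun p => if p < k then G.σ (q (ι p)) else q p, t1, e1, fun p hp => ?_,
    fun p hp p' hp' => ?_, fun t ht => ?_, fun p hp a => ?_, fun p hp a p' hp' a' => ?_,
    fun d hd => ?_⟩
  · by_cases a : p < k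
    · rw [if_pos a, if_neg (by have := e1 p a; omega), G.inv]
    · rw [if_neg a]
      by_cases b : ι p < k
      · rw [if_pos b, (t1 p hp).2.1]
      · rw [if_neg b, qc p hp (by omega) (by omega)]
  · by_cases a : p < k <;> by_cases b : p' < k <;> simp only [a, b, if_true, if_false] <;>
      intro e
    · have := qinj _ (e2 p a) (e1 p a) _ (e2 p' b) (e1 p' b)
        (by simpa [G.inv] using congrArg G.σ e)
      rw [← (t1 p hp).2.1, this, (t1 p' hp').2.1]
    · exact absurd (e ▸ hbd p a) (qR p' hp' (by omega))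
    · exact absurd (e ▸ hbd p' b) (qR p hp (by omega))
    · exact qinj p hp (by omega) p' hp' (by omega) e
  · rw [if_pos ht]; exact hbd t ht
  · rw [if_neg (by omega)]; exact qR p hp a
  · rw [if_neg (by omega), if_neg (by omega)]
    exact ⟨finj _ (by omega) _ (by omega), fun e => by simp only [q, e]⟩
  · obtain ⟨p, hp, a, e⟩ := qs d hd
    exact ⟨p, hp, a, by rw [if_neg (by omega), e]⟩

namespace Emb
variable {k n : ℕ} {ι : ℕ → ℕ} {R : Set V} {q : ℕ → V × Fin 3} (h : G.Emb k n ι R q)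
include h

lemma bd_eq (x : V × Fin 3 → ZMod 2) {v : ℕ} (hv : v < n) : DG.bd x (q (k + 3 * v)).1 =
    x (q (k + 3 * v)) + x (q (k + 3 * v + 1)) + x (q (k + 3 * v + 2)) := by
  have a1 : (q (k + 3 * v + 1)).1 = (q (k + 3 * v)).1 :=
    (h.vtx _ (by omega) (by omega) _ (by omega) (by omega)).2 (by omega)
  have a2 : (q (k + 3 * v + 2)).1 = (q (k + 3 * v)).1 :=
    (h.vtx _ (by omega) (by omega) _ (by omega) (by omega)).2 (by omega)
  have b1 := h.inj (k + 3 * v) (by omega) (k + 3 * v + 1) (by omega)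
  have b2 := h.inj (k + 3 * v) (by omega) (k + 3 * v + 2) (by omega)
  have b3 := h.inj (k + 3 * v + 1) (by omega) (k + 3 * v + 2) (by omega)
  generalize q (k + 3 * v) = a, q (k + 3 * v + 1) = b, q (k + 3 * v + 2) = c at *
  obtain ⟨w, a⟩ := a
  obtain ⟨_, b⟩ := b
  obtain ⟨_, c⟩ := c
  subst a1 a2
  unfold DG.bd
  fin_cases a <;> fin_cases b <;> fin_cases c <;> simp at b1 b2 b3 ⊢ <;> ring

lemma fam {n' : ℕ} {ι' : ℕ → ℕ} (hι : tblOK (k + 3 * n') ι' = true) {N : ℕ} (hF : G.Fam N)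
    {D : List ℕ} {π μ : ℕ → ℕ} {W1 W2 W3 : List ℕ}
    (hm : minorOK k n ι n' ι' D π μ W1 W2 W3 = true) : (h.pole.glued hι).Fam N := by
  classical
  simp only [minorOK, Bool.and_eq_true, List.all_eq_true, allB_spec, Nat.ble_eq, Nat.blt_eq,
    beq_iff_eq] at hm
  obtain ⟨⟨⟨⟨m1, m2⟩, m3⟩, m4⟩, m5⟩ := hm
  have a1 : ∀ t < k, π t = t := fun t ht => by
    have := (m2 t (by omega)).2
    rwa [Nat.blt_eq.mpr ht, cond_true, Nat.beq_eq] at this
  have a2 : ∀ p < k + 3 * n', k ≤ p → k ≤ π p := fun p hp a => by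
    have := (m2 p hp).2
    rwa [show Nat.blt p k = false by rw [← Bool.not_eq_true, Nat.blt_eq]; omega, cond_false,
      Nat.ble_eq] at this
  have c1 := cons_iff (fun p hp => (h.tbl p hp).1) fun p hp => (m1 p hp).2
  have c2 := cons_iff (D := []) (fun p hp => (tblOK_spec hι p hp).1) (by simp)
  refine h.pole.fam_glued hι hF (q '' {p | p ∈ D}) (q ∘ π) ?_ (fun t ht => by simp [a1 t ht])
    (fun p hp a => h.ins _ (m2 p hp).1 (a2 p hp a)) (fun x hx hd => ?_) fun X hX => ?_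
  · rintro _ ⟨p, hp, rfl⟩
    exact h.ins p (m1 p hp).2 (m1 p hp).1
  · have b1 := ssum_lin m3 ((c1 (x ∘ q)).2 ⟨⟨fun p hp => by
      simp only [Function.comp, ← h.comm p hp, hx.1], fun v hv =>
        (h.bd_eq x hv).symm.trans (hx.2 _)⟩, fun p hp => hd _ ⟨p, hp, rfl⟩⟩)
    refine ((c2 _).1 fun c hc => ?_).1
    rw [← b1 _ (List.mem_map_of_mem hc), ssum_sub, List.map_map]
    congr 1
    exact List.map_congr_left fun p hp =>
      (ssum_range (x ∘ q) (m2 p (List.mem_range.1 hp)).1).symm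
  · have b0 := (c2 X).2 ⟨hX, by simp⟩
    let Y : ℕ → ZMod 2 := fun p => ssum ((List.range (k + 3 * n')).map X) (μ p)
    obtain ⟨⟨b1, b2⟩, b3⟩ := (c1 Y).1 fun c hc => by
      rw [← ssum_lin m4 b0 _ (List.mem_map_of_mem hc), ssum_sub, List.map_map]
      rfl
    have b4 : ∀ p < k + 3 * n', Y (π p) = X p := fun p hp => by
      have := ssum_lin m5 b0 _ (List.mem_map_of_mem (List.mem_range.2 hp))
      rwa [ssum_xor, ssum_range _ hp, z2_add] at this
    let y : V × Fin 3 → ZMod 2 := fun d =>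
      if a : ∃ p < k + 3 * n, q p = d then Y a.choose else 0
    have hy : ∀ p < k + 3 * n, y (q p) = Y p := fun p hp => by
      have a : ∃ p' < k + 3 * n, q p' = q p := ⟨p, hp, rfl⟩
      simp only [y, a, dite_true, h.inj _ a.choose_spec.1 _ hp a.choose_spec.2]
    refine ⟨y, fun v hv => ?_, fun d hd _ => ?_, fun t ht => ?_, ?_, fun p hp _ => ?_⟩
    · obtain ⟨p, hp, a, e⟩ := h.surj (v, 0) hv
      have a3 : (p - k) / 3 < n := by omega
      rw [show v = (q p).1 by rw [e], h.fst_eq p hp a, h.bd_eq y a3, hy _ (by omega),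
        hy _ (by omega), hy _ (by omega), b2 _ a3]
    · obtain ⟨p, hp, -, rfl⟩ := h.surj d hd
      rw [h.comm p hp, hy _ hp, hy _ (h.tbl p hp).1, b1 p hp]
    · rw [h.comm t (by omega), hy _ (h.tbl t (by omega)).1, b1 t (by omega), ← b4 t (by omega),
        a1 t ht]
    · rintro _ ⟨p, hp, rfl⟩
      rw [hy p (m1 p hp).2, b3 p hp]
    · rw [← b4 p hp]
      exact hy _ (m2 p hp).1

lemma not_bad2 [Fintype V] (hl : G.Lev 3) {Cl : List (List ℕ)}
    (hCl : ∀ K ∈ Cl, (∀ t ∈ K, t < k) ∧ (K.map fun t => (q t).1).Nodup) {wY : ℕ → ℕ → ℕ}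
    {a T : ℕ} (hs : G.Split R k q a T) : bad2 k n ι Cl wY a T = false := by
  rw [bad2, h.not_bad hl hCl hs, h.not_bad hl hCl (hs.compl h.pole)]
  rfl

theorem config [Fintype V] {N : ℕ} (hG : G.MinF N) {Cl : List (List ℕ)}
    (hCl : ∀ K ∈ Cl, (∀ t ∈ K, t < k) ∧ (K.map fun t => (q t).1).Nodup)
    {n' : ℕ} {ι' : ℕ → ℕ} (h4 : tblOK (k + 3 * n') ι' = true) {wY : ℕ → ℕ → ℕ}
    {U : List (ℕ × ℕ)}
    (h5 : safe2 k n' ι' (fun a T => bad2 k n ι Cl wY a T || U.elem (a, T)) = true)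
    (hn : n' < n) {D : List ℕ} {π μ : ℕ → ℕ} {W1 W2 W3 : List ℕ}
    (hm : minorOK k n ι n' ι' D π μ W1 W2 W3 = true) {len : ℕ} {cd : ℕ → ℕ}
    (h6 : allB (fun i => codeOK k n ι (cd i)) len = true) {sw : ℕ → List ℕ} (hsw : swOK k sw = true)
    {nX nW : ℕ} {tX tW : ℕ → ℕ}
    (hX : Cov ((Tab.mk k sw nX tX nW tW).ckX (extC k (k + 3 * n) len cd)) nX)
    (hW : Cov (Tab.mk k sw nX tX nW tW).ckW nW)
    (h7 : chk (2 ^ (k + 3 * n') - 1)
      (fun M => (Tab.mk k sw nX tX nW tW).test (M.map (· % 2 ^ k))) 6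
      (pms k n' ι') 0 0 [] = true) : ∃ u ∈ U, G.Split R k q u.1 u.2 := by
  classical
  by_cases hb : (h.pole.glued h4).Bridgeless
  · obtain ⟨xs, -, x2, x3⟩ := h.pole.glued_real h4
      (hG.small _ _ (Pole.small (h.card ▸ hn)) (h.fam h4 hG.fam hm) hb) h7
    exact absurd x3 ((Tab.mk k sw nX tX nW tW).test_sound h.pole.sys hsw
      (fun ys _ y1 y2 y3 => hG.nocover (h.pole.glue y1 y3 (h.extend h6 y2))) hX hW xs x2)
  · obtain ⟨a, T, a1, a2⟩ := h.pole.bridge h4 h5 hb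
    rw [h.not_bad2 hG.lev hCl a2, Bool.false_or] at a1
    exact ⟨(a, T), List.mem_of_elem_eq_true a1, a2⟩

lemma unc [Fintype V] (hl : G.Lev 3) {Cl : List (List ℕ)}
    (hCl : ∀ K ∈ Cl, (∀ t ∈ K, t < k) ∧ (K.map fun t => (q t).1).Nodup) {wY : ℕ → ℕ → ℕ}
    {ψ ψ' : ℕ → ℕ} (ha : autOK k n ι ψ ψ' = true) {U : List (ℕ × ℕ)} {L : List ℕ}
    (hu : uncOK k (bad2 k n ι Cl wY) ψ' U L = true) (h1 : ∃ u ∈ U, G.Split R k q u.1 u.2)
    (h2 : ∃ u ∈ U, G.Split R k (q ∘ ψ) u.1 u.2) : False := by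
  obtain ⟨u, hu1, h1⟩ := h1
  obtain ⟨v, hv1, X, a1, a2, a3⟩ := h2
  simp only [uncOK, List.all_eq_true, List.any_eq_true, Bool.and_eq_true, allB_spec,
    Bool.or_eq_true, beq_iff_eq, Nat.blt_eq] at hu
  obtain ⟨S, -, b1, b2⟩ := hu u hu1 v hv1
  simp only [autOK, allB_spec, Bool.and_eq_true, Nat.blt_eq, Nat.beq_eq, beq_iff_eq] at ha
  have key : ∀ S : ℕ, (∀ t < k, S.testBit t = v.2.testBit (ψ' t)) → G.Split R k q v.1 S := by
    refine fun S hS => ⟨X, a1, a2, fun t ht => ?_⟩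
    have c1 := (ha t (by omega)).1.1.1.1
    have c2 := (ha _ c1.1.2).1.2
    rw [c1.2, Nat.blt_eq.mpr ht, Nat.blt_eq] at c2
    rw [hS t ht, a3 _ c2, Function.comp, c1.2]
  have b3 : G.Split R k q v.1 S := by
    rcases b1 with b1 | b1
    · exact key S b1
    · simpa [Nat.xor_assoc] using (key _ b1).compl h.pole
  obtain ⟨x, y, c1, c2, c3⟩ := h1.uncross b3
  have := b2 x (by omega) y (by omega)
  rw [h.not_bad2 hl hCl c2, h.not_bad2 hl hCl c3] at this
  simp at this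
  omega

end Emb

theorem MinF.free [Fintype V] {N : ℕ} (hG : G.MinF N) {F : List (ℕ × List (ℕ × ℕ))}
    (hF : ∀ H ∈ F, ¬ G.Cont H) {k n : ℕ} {ι : ℕ → ℕ} {E : List (ℕ × ℕ)}
    (h1 : (cfgOK k n ι E && (edgOK k n ι E && E.all fun e => Nat.blt e.2 n)) = true)
    {W W' : List (List ℕ)} (h2 : chordOK k n ι E F W = true) {Cl : List (List ℕ)}
    (h3 : cliqOK k n ι E F W' Cl = true)
    (h : ∀ R q, G.Emb k n ι R q → (∀ q, G.Emb k n ι R q →
      ∀ K ∈ Cl, (∀ t ∈ K, t < k) ∧ (K.map fun t => (q t).1).Nodup) → False) :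
    ¬ G.Cont (n, E) := by
  intro hc
  simp only [Bool.and_eq_true] at h1
  obtain ⟨R, q, hq⟩ := embed hG.multi hF h1.1 h2 hc
  exact h R q hq fun q hq => hq.cliq hF h1.2.1 h1.2.2 h3

end DG

end Pool.Agent.P.MP_40718a_co
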