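import Mathlib

/-! Certificate checker for Kempe-type reducibility of six-matching colourings. -/

namespace Pool.Agent.P.MP_40718a_co

/-- The set bits of `D` below `k`. -/
def bitsOf : ℕ → ℕ → List ℕ
  | 0, _ => []
  | k + 1, D => bif D.testBit k then k :: bitsOf k D else bitsOf k D

lemma mem_bitsOf {k D t : ℕ} : t ∈ bitsOf k D ↔ t < k ∧ D.testBit t = true := by
  induction k with
  | zero => simp [bitsOf]
  | succ k ih =>
    cases h : D.testBit k
    · simp only [bitsOf, h, cond_false, ih]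
      constructor
      · rintro ⟨h1, h2⟩; exact ⟨by omega, h2⟩
      · rintro ⟨h1, h2⟩
        refine ⟨?_, h2⟩
        rcases Nat.lt_succ_iff_lt_or_eq.1 h1 with h3 | rfl
        · exact h3
        · rw [h] at h2; cases h2
    · simp only [bitsOf, h, cond_true, List.mem_cons, ih]
      constructor
      · rintro (rfl | ⟨h1, h2⟩)
        · exact ⟨by omega, h⟩
        · exact ⟨by omega, h2⟩
      · rintro ⟨h1, h2⟩
        rcases Nat.lt_succ_iff_lt_or_eq.1 h1 with h3 | rfl
        · exact Or.inr ⟨h3, h2⟩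
        · exact Or.inl rfl

lemma nodup_bitsOf (k D : ℕ) : (bitsOf k D).Nodup := by
  induction k with
  | zero => simp [bitsOf]
  | succ k ih =>
    cases h : D.testBit k
    · simpa [bitsOf, h] using ih
    · simp only [bitsOf, h, cond_true, List.nodup_cons, ih, and_true, mem_bitsOf]
      omega

lemma length_bitsOf (k D : ℕ) : (bitsOf k D).length ≤ k := by
  induction k with
  | zero => simp [bitsOf]
  | succ k ih =>
    cases h : D.testBit k <;> simp [bitsOf, h] <;> omega

/-- All perfect matchings of a list, each pair written as a bit mask. -/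
def genm : ℕ → List ℕ → List (List ℕ)
  | 0, _ => [[]]
  | _ + 1, [] => [[]]
  | f + 1, a :: r => r.flatMap fun b => (genm f (r.erase b)).map fun m => (1 <<< a ||| 1 <<< b) :: m

/-- The union of the pairs chosen by the bits of `n`. -/
def sub : List ℕ → ℕ → ℕ
  | [], _ => 0
  | p :: π, n => bif Nat.beq (n % 2) 1 then p ^^^ sub π (n / 2) else sub π (n / 2)

lemma genm_complete (π : ℕ → ℕ) : ∀ (f : ℕ) (l : List ℕ), l.length ≤ f → l.Nodup →
    (∀ t ∈ l, π t ∈ l ∧ π t ≠ t ∧ π (π t) = t) →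
    ∃ m ∈ genm f l, ∀ n t, (sub m n).testBit t = true →
      t ∈ l ∧ (sub m n).testBit (π t) = true := by
  intro f
  induction f with
  | zero => intro l _ _ _; exact ⟨[], by simp [genm], by simp [sub]⟩
  | succ f ih =>
    intro l hl hnd hπ
    cases l with
    | nil => exact ⟨[], by simp [genm], by simp [sub]⟩
    | cons a r =>
      obtain ⟨h1, h2, h3⟩ := hπ a List.mem_cons_self
      have hb : π a ∈ r := (List.mem_cons.1 h1).resolve_left h2
      have har : a ∉ r := (List.nodup_cons.1 hnd).1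
      have hr : r.Nodup := (List.nodup_cons.1 hnd).2
      have hmem : ∀ t, t ∈ r.erase (π a) ↔ t ≠ π a ∧ t ∈ r := fun t => hr.mem_erase_iff
      obtain ⟨m, hm, hm'⟩ := ih (r.erase (π a))
        (by rw [List.length_erase_of_mem hb]; simp at hl; omega) (hr.erase _) (by
          intro t ht
          rw [hmem] at ht
          obtain ⟨g1, g2, g3⟩ := hπ t (List.mem_cons_of_mem _ ht.2)
          refine ⟨(hmem _).2 ⟨?_, ?_⟩, g2, g3⟩
          · intro h
            have : t = a := by rw [← g3, h, h3]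
            exact har (this ▸ ht.2)
          · refine (List.mem_cons.1 g1).resolve_left fun h => ht.1 ?_
            rw [← g3, h])
      refine ⟨(1 <<< a ||| 1 <<< π a) :: m, ?_, ?_⟩
      · simp only [genm, List.mem_flatMap, List.mem_map]
        exact ⟨π a, hb, m, hm, rfl⟩
      · intro n t ht
        have hna : (sub m (n / 2)).testBit a = false := by
          cases h : (sub m (n / 2)).testBit a
          · rfl
          · exact absurd ((hmem _).1 (hm' _ _ h).1).2 har
        have hnb : (sub m (n / 2)).testBit (π a) = false := by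
          cases h : (sub m (n / 2)).testBit (π a)
          · rfl
          · exact absurd rfl ((hmem _).1 (hm' _ _ h).1).1
        cases hn : Nat.beq (n % 2) 1
        · simp only [sub, hn, cond_false] at ht ⊢
          obtain ⟨g1, g2⟩ := hm' _ _ ht
          exact ⟨List.mem_cons_of_mem _ ((hmem _).1 g1).2, g2⟩
        · simp only [sub, hn, cond_true, Nat.testBit_xor, Nat.testBit_or, Nat.one_shiftLeft,
            Nat.testBit_two_pow] at ht ⊢
          by_cases hta : a = t
          · subst hta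
            exact ⟨List.mem_cons_self, by simp [hnb]⟩
          by_cases htb : π a = t
          · subst htb
            exact ⟨h1, by simp [h3, hna]⟩
          simp only [hta, htb, decide_false, Bool.or_self, Bool.false_bne] at ht
          obtain ⟨g1, g2⟩ := hm' _ _ ht
          have g3 := (hm' _ _ g2).1
          rw [hmem] at g1 g3
          refine ⟨List.mem_cons_of_mem _ g1.2, ?_⟩
          have e1 : a ≠ π t := fun h => har (h ▸ g3.2)
          have e2 : π a ≠ π t := fun h => g3.1 h.symm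
          simp [e1, e2, g2]

/-- An abstract side of a cut: matchings, their traces, and double covers. -/
structure Sys (k : ℕ) where
  /-- matchings -/
  M : Type
  /-- trace on the cut -/
  Tr : M → ℕ → Prop
  /-- double covers -/
  Good : List M → Prop
  perm : ∀ {L L'}, L.Perm L' → Good L → Good L'
  kempe : ∀ A B a b, Tr A a → Tr B b → ∃ π ∈ genm k (bitsOf k (a ^^^ b)), ∀ n, ∃ A' B',
    Tr A' (a ^^^ sub π n) ∧ Tr B' (b ^^^ sub π n) ∧ ∀ L, Good (A :: B :: L) → Good (A' :: B' :: L)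

namespace Sys
variable {k : ℕ} (S : Sys k)

/-- The list of traces is realised. -/
def Real (xs : List ℕ) : Prop := ∃ L, List.Forall₂ S.Tr L xs ∧ S.Good L

/-- A whole orbit of pairs is realised with the same remaining matchings. -/
def RealW (As D : ℕ) (q : List ℕ) : Prop := ∃ L, List.Forall₂ S.Tr L q ∧
  ∀ x, As.testBit x = true → ∃ A B, S.Tr A x ∧ S.Tr B (x ^^^ D) ∧ S.Good (A :: B :: L)

lemma exists_perm {L : List S.M} {xs ys : List ℕ} (h : List.Forall₂ S.Tr L xs) (hp : xs.Perm ys) :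
    ∃ L', L.Perm L' ∧ List.Forall₂ S.Tr L' ys := by
  obtain ⟨L', h1, h2⟩ := List.perm_comp_forall₂ hp.symm h.flip
  exact ⟨L', h2.symm, h1.flip⟩

lemma Real.perm {xs ys : List ℕ} (h : S.Real xs) (hp : xs.Perm ys) : S.Real ys := by
  obtain ⟨L, h1, h2⟩ := h
  obtain ⟨L', h3, h4⟩ := S.exists_perm h1 hp
  exact ⟨L', h4, S.perm h3 h2⟩

lemma RealW.perm {As D : ℕ} {xs ys : List ℕ} (h : S.RealW As D xs) (hp : xs.Perm ys) :
    S.RealW As D ys := by
  obtain ⟨L, h1, h2⟩ := h
  obtain ⟨L', h3, h4⟩ := S.exists_perm h1 hp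
  refine ⟨L', h4, fun x hx => ?_⟩
  obtain ⟨A, B, g1, g2, g3⟩ := h2 x hx
  exact ⟨A, B, g1, g2, S.perm ((h3.cons B).cons A) g3⟩

lemma RealW.real {As D x : ℕ} {q : List ℕ} (h : S.RealW As D q) (hx : As.testBit x = true) :
    S.Real (x :: (x ^^^ D) :: q) := by
  obtain ⟨L, h1, h2⟩ := h
  obtain ⟨A, B, g1, g2, g3⟩ := h2 x hx
  exact ⟨A :: B :: L, .cons g1 (.cons g2 h1), g3⟩

lemma Real.step {a b : ℕ} {q : List ℕ} (h : S.Real (a :: b :: q)) :
    ∃ π ∈ genm k (bitsOf k (a ^^^ b)), (∀ As : ℕ, (∀ x, As.testBit x = true →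
      ∃ n, x = a ^^^ sub π n) → S.RealW As (a ^^^ b) q) ∧
      ∀ n, S.Real ((a ^^^ sub π n) :: (b ^^^ sub π n) :: q) := by
  obtain ⟨L, h1, h2⟩ := h
  cases h1 with
  | cons ha h1 =>
  cases h1 with
  | cons hb h1 =>
  obtain ⟨π, hπ, h3⟩ := S.kempe _ _ a b ha hb
  refine ⟨π, hπ, fun As hAs => ⟨_, h1, fun x hx => ?_⟩, fun n => ?_⟩
  · obtain ⟨n, rfl⟩ := hAs x hx
    obtain ⟨A', B', g1, g2, g3⟩ := h3 n
    refine ⟨A', B', g1, ?_, g3 _ h2⟩
    have : a ^^^ sub π n ^^^ (a ^^^ b) = b ^^^ sub π n := by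
      apply Nat.eq_of_testBit_eq
      intro i
      simp only [Nat.testBit_xor]
      cases a.testBit i <;> cases b.testBit i <;> cases (sub π n).testBit i <;> rfl
    rwa [this]
  · obtain ⟨A', B', g1, g2, g3⟩ := h3 n
    exact ⟨_, .cons g1 (.cons g2 h1), g3 _ h2⟩

lemma RealW.step {As D c d e f : ℕ} (h : S.RealW As D [c, d, e, f]) (lvl : Bool) :
    ∃ π ∈ genm k (bitsOf k (c ^^^ d)), ∃ ρ ∈ (bif lvl then genm k (bitsOf k (e ^^^ f)) else [[]]),
      ∀ n m, S.RealW As D [c ^^^ sub π n, d ^^^ sub π n, e ^^^ sub ρ m, f ^^^ sub ρ m] := by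
  obtain ⟨L, h1, h2⟩ := h
  cases h1 with
  | @cons C _ _ _ hc h1 =>
  cases h1 with
  | @cons D' _ _ _ hd h1 =>
  cases h1 with
  | @cons E _ _ _ he h1 =>
  cases h1 with
  | @cons F _ _ _ hf h1 =>
  cases h1
  obtain ⟨π, hπ, h3⟩ := S.kempe _ _ c d hc hd
  have h4 : ∃ ρ ∈ (bif lvl then genm k (bitsOf k (e ^^^ f)) else [[]]), ∀ n, ∃ A' B',
      S.Tr A' (e ^^^ sub ρ n) ∧ S.Tr B' (f ^^^ sub ρ n) ∧
        ∀ L, S.Good (E :: F :: L) → S.Good (A' :: B' :: L) := by
    cases lvl
    · exact ⟨[], by simp, fun n => ⟨E, F, by simpa [sub] using he, by simpa [sub] using hf,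
        fun _ h => h⟩⟩
    · exact S.kempe _ _ e f he hf
  obtain ⟨ρ, hρ, h5⟩ := h4
  refine ⟨π, hπ, ρ, hρ, fun n m => ?_⟩
  obtain ⟨C', D'', g1, g2, g3⟩ := h3 n
  obtain ⟨E', F', g4, g5, g6⟩ := h5 m
  refine ⟨[C', D'', E', F'], .cons g1 (.cons g2 (.cons g4 (.cons g5 .nil))), fun x hx => ?_⟩
  obtain ⟨A, B, g7, g8, g9⟩ := h2 x hx
  refine ⟨A, B, g7, g8, ?_⟩
  have p1 : [A, B, C, D', E, F].Perm [C, D', A, B, E, F] :=
    (List.perm_append_comm (l₁ := [A, B]) (l₂ := [C, D'])).append_right [E, F]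
  have p2 : [C', D'', A, B, E, F].Perm [E, F, C', D'', A, B] :=
    List.perm_append_comm (l₁ := [C', D'', A, B]) (l₂ := [E, F])
  have p3 : [E', F', C', D'', A, B].Perm [A, B, C', D'', E', F'] :=
    (List.perm_append_comm (l₁ := [E', F']) (l₂ := [C', D'', A, B])).trans
      ((List.perm_append_comm (l₁ := [C', D'']) (l₂ := [A, B])).append_right [E', F'])
  exact S.perm p3 (g6 _ (S.perm p2 (g3 _ (S.perm p1 g9))))

end Sys

end Pool.Agent.P.MP_40718a_co
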