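import Pool.Agent.P.MP_40718a_co.Dart

/-! Small multipoles as tables, matchings as bit masks. -/

namespace Pool.Agent.P.MP_40718a_co

/-- All `p < n` pass. -/
noncomputable def allB (f : ℕ → Bool) (n : ℕ) : Bool :=
  Nat.rec true (fun p ih => f p && ih) n

lemma allB_spec {f : ℕ → Bool} {n : ℕ} : allB f n = true ↔ ∀ p < n, f p = true := by
  induction n with
  | zero => simp [allB]
  | succ n ih =>
    change (f n && allB f n) = true ↔ _
    rw [Bool.and_eq_true, ih, Nat.forall_lt_succ_right, and_comm]

/-- The number of `p < n` that pass. -/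
noncomputable def cntB (f : ℕ → Bool) (n : ℕ) : ℕ :=
  Nat.rec 0 (fun p ih => bif f p then ih + 1 else ih) n

lemma cntB_eq (f : ℕ → Bool) (n : ℕ) :
    cntB f n = ∑ p : Fin n, if f p = true then 1 else 0 := by
  rw [Fin.sum_univ_eq_sum_range (fun p => if f p = true then 1 else 0)]
  induction n with
  | zero => simp [cntB]
  | succ n ih =>
    change (bif f n then cntB f n + 1 else cntB f n) = _
    rw [Finset.sum_range_succ, ← ih]
    cases f n <;> simp

/-- The table is a fixed point free involution of the points. -/
noncomputable def tblOK (N : ℕ) (ι : ℕ → ℕ) : Bool :=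
  allB (fun p => Nat.blt (ι p) N && Nat.beq (ι (ι p)) p && !Nat.beq (ι p) p) N

lemma tblOK_spec {N : ℕ} {ι : ℕ → ℕ} (h : tblOK N ι = true) (p : ℕ) (hp : p < N) :
    ι p < N ∧ ι (ι p) = p ∧ ι p ≠ p := by
  have := allB_spec.1 h p hp
  simp only [Bool.and_eq_true, Nat.blt_eq, Nat.beq_eq, Bool.not_eq_true'] at this
  exact ⟨this.1.1, this.1.2, Nat.ne_of_beq_eq_false this.2⟩

/-- Exactly one of three bits. -/
def one3 (a b c : Bool) : Bool := (a && !b && !c) || (!a && b && !c) || (!a && !b && c)

/-- Each vertex has one chosen dart. -/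
noncomputable def vtxOK (k n c : ℕ) : Bool :=
  allB (fun v => one3 (c.testBit (k + 3 * v)) (c.testBit (k + 3 * v + 1))
    (c.testBit (k + 3 * v + 2))) n

/-- The mask is a matching of the table. -/
noncomputable def codeOK (k n : ℕ) (ι : ℕ → ℕ) (c : ℕ) : Bool :=
  allB (fun p => c.testBit p == c.testBit (ι p)) (k + 3 * n) && vtxOK k n c

/-- All masks invariant under the table. -/
noncomputable def allCodes (ι : ℕ → ℕ) (N : ℕ) : List ℕ :=
  Nat.rec [0] (fun p ih => ih.flatMap fun c =>
    bif Nat.blt (ι p) p then [bif c.testBit (ι p) then c ||| 1 <<< p else c]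
    else [c, c ||| 1 <<< p]) N

lemma allCodes_complete (ι : ℕ → ℕ) (f : ℕ → Bool) (N : ℕ) (hf : ∀ p < N, f (ι p) = f p) :
    ∃ c ∈ allCodes ι N, (∀ q < N, c.testBit q = f q) ∧ ∀ q, N ≤ q → c.testBit q = false := by
  induction N with
  | zero => exact ⟨0, by simp [allCodes], by simp, by simp⟩
  | succ p ih =>
    obtain ⟨c, hc, h1, h2⟩ := ih fun q hq => hf q (by omega)
    refine ⟨bif f p then c ||| 1 <<< p else c, ?_, ?_, ?_⟩
    · change _ ∈ (allCodes ι p).flatMap _
      refine List.mem_flatMap.2 ⟨c, hc, ?_⟩
      cases h : Nat.blt (ι p) p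
      · cases f p <;> simp
      · have : ι p < p := by simpa using h
        rw [h1 _ this, hf p (by omega)]; simp
    · intro q hq
      rcases Nat.lt_succ_iff_lt_or_eq.1 hq with h | rfl
      · cases f p <;> simp [Nat.one_shiftLeft, h1 q h, h.ne']
      · cases h : f q <;> simp [Nat.one_shiftLeft, h2 q le_rfl]
    · intro q hq
      have : p ≠ q := by omega
      cases f p <;> simp [Nat.one_shiftLeft, h2 q (by omega), this]

/-- All matchings of the table. -/
noncomputable def pms (k n : ℕ) (ι : ℕ → ℕ) : List ℕ :=
  (allCodes ι (k + 3 * n)).filter (vtxOK k n)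

/-- The multiplicity recorded by the masks `o` (once) and `t` (twice). -/
def mult (o t p : ℕ) : ℕ := (if o.testBit p = true then 1 else 0) + (if t.testBit p = true then 1 else 0)

lemma mult_step {o t c p : ℕ} (h : t.testBit p = true → o.testBit p = true)
    (h' : (t &&& c).testBit p = false) :
    mult (o ||| c) (t ||| o &&& c) p = mult o t p + (if c.testBit p = true then 1 else 0) ∧
      ((t ||| o &&& c).testBit p = true → (o ||| c).testBit p = true) := by
  simp only [mult, Nat.testBit_or, Nat.testBit_and] at *
  revert h h'
  cases o.testBit p <;> cases t.testBit p <;> cases c.testBit p <;> simp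

/-- Each point below the mask is covered exactly twice. -/
noncomputable def twice (full : ℕ) (L : List ℕ) : ℕ → ℕ → Bool :=
  List.rec (fun _ t => Nat.beq t full)
    (fun c _ ih o t => Nat.beq (t &&& c) 0 && ih (o ||| c) (t ||| o &&& c)) L

lemma twice_spec {N : ℕ} (L : List ℕ) : ∀ o t, twice (2 ^ N - 1) L o t = true →
    ∀ p < N, (t.testBit p = true → o.testBit p = true) →
      mult o t p + L.countP (fun c => c.testBit p) = 2 := by
  induction L with
  | nil =>
    intro o t h p hp hi
    have : t = 2 ^ N - 1 := Nat.eq_of_beq_eq_true h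
    have h1 : t.testBit p = true := by simp [this, hp]
    simp [mult, h1, hi h1]
  | cons c L ih =>
    intro o t h p hp hi
    change (Nat.beq (t &&& c) 0 && twice _ L _ _) = true at h
    rw [Bool.and_eq_true] at h
    have h0 : t &&& c = 0 := Nat.eq_of_beq_eq_true h.1
    obtain ⟨h1, h2⟩ := mult_step (c := c) hi (by rw [h0]; simp)
    have := ih _ _ h.2 p hp h2
    rw [List.countP_cons]
    omega

/-- Every way to pick `r` more masks from the list, covering twice, passes `test`. -/
noncomputable def chk (full : ℕ) (test : List ℕ → Bool) (r : ℕ) :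
    List ℕ → ℕ → ℕ → List ℕ → Bool :=
  Nat.rec (motive := fun _ => List ℕ → ℕ → ℕ → List ℕ → Bool)
    (fun _ _ t acc => !Nat.beq (t &&& full) full || test acc)
    (fun _ ih P o t acc => List.rec true (fun c P' ihP =>
      (!Nat.beq (t &&& c &&& full) 0 || ih (c :: P') (o ||| c) (t ||| o &&& c) (c :: acc))
        && ihP) P) r

lemma chk_spec {N : ℕ} {test : List ℕ → Bool} (r : ℕ) : ∀ (P : List ℕ) (o t : ℕ) (acc : List ℕ),
    chk (2 ^ N - 1) test r P o t acc = true → ∀ L : List ℕ, L.length = r → (∀ c ∈ L, c ∈ P) →
    (∀ p < N, (t.testBit p = true → o.testBit p = true) ∧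
      mult o t p + L.countP (fun c => c.testBit p) = 2) →
    ∃ M, M.Perm (L ++ acc) ∧ test M = true := by
  induction r with
  | zero =>
    intro P o t acc h L hL _ hc
    obtain rfl := List.eq_nil_of_length_eq_zero hL
    change (!Nat.beq (t &&& _) _ || test acc) = true at h
    have : t &&& (2 ^ N - 1) = 2 ^ N - 1 := by
      apply Nat.eq_of_testBit_eq
      intro p
      rw [Nat.testBit_and, Nat.testBit_two_pow_sub_one]
      by_cases hp : p < N
      · have := (hc p hp).2
        simp only [mult, List.countP_nil] at this
        cases h : t.testBit p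
        · rw [h] at this; split_ifs at this <;> simp_all
        · simp
      · simp [hp]
    rw [this] at h
    exact ⟨acc, by simp, by simpa using h⟩
  | succ r ih =>
    intro P
    induction P with
    | nil =>
      intro o t acc _ L hL hP _
      cases L with
      | nil => simp at hL
      | cons c L => simpa using hP c List.mem_cons_self
    | cons c P ihP =>
      intro o t acc h L hL hP hc
      change ((!Nat.beq (t &&& c &&& _) 0 || chk _ test r (c :: P) _ _ _) &&
        chk _ test (r + 1) P o t acc) = true at h
      rw [Bool.and_eq_true] at h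
      by_cases hcL : c ∈ L
      · have hp := List.perm_cons_erase hcL
        have hz : ∀ p < N, (t &&& c).testBit p = false := by
          intro p hp'
          obtain ⟨h1, h2⟩ := hc p hp'
          rw [hp.countP_eq, List.countP_cons] at h2
          simp only [mult] at h2
          rw [Nat.testBit_and]
          revert h1 h2
          cases o.testBit p <;> cases t.testBit p <;> cases c.testBit p <;> simp
        have h0 : t &&& c &&& (2 ^ N - 1) = 0 := by
          apply Nat.eq_of_testBit_eq
          intro p
          rw [Nat.testBit_and, Nat.testBit_two_pow_sub_one]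
          by_cases hp' : p < N
          · simp [hz p hp']
          · simp [hp']
        rw [h0] at h
        obtain ⟨M, h1, h2⟩ := ih _ _ _ _ (by simpa using h.1) (L.erase c)
          (by rw [List.length_erase_of_mem hcL]; omega)
          (fun x hx => hP x (List.mem_of_mem_erase hx)) (by
            intro p hp'
            obtain ⟨g1, g2⟩ := hc p hp'
            obtain ⟨g3, g4⟩ := mult_step (c := c) g1 (hz p hp')
            rw [hp.countP_eq, List.countP_cons] at g2
            exact ⟨g4, by omega⟩)
        exact ⟨M, h1.trans (List.perm_middle.trans (hp.append_right acc).symm), h2⟩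
      · exact ihP o t acc h.2 L hL
          (fun x hx => (List.mem_cons.1 (hP x hx)).resolve_left fun e => hcL (e ▸ hx)) hc

end Pool.Agent.P.MP_40718a_co
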