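import Pool.Agent.P.MP_40718a_co.Codes

/-! A fast certificate checker. -/

namespace Pool.Agent.P.MP_40718a_co

/-- The first 512 primes. -/
def primeTab : ℕ := nat_lit 3025683460144040653184266326641211749873778263207350544558671865068335714080113392903044931928032891539843824781637947756864801260791387278051106683408958393917519820584542271772864748861024536906891829436918206184327238829548061487540702368358247177764110363949632139062694756029680425897690585752546505450439614690883955983167615515446488223473857365450763097775248574588770194669575255681999393722751562254280722495236921223939564535838903864816542209153915697566595334407427691047527358249833394307841678930923830854752223626173841914482718396288124784743429031571907774829831000436634994068898908466992237052915620008960281987457249598031214380579662449958449609000111060796957420903032524346661469003716236266466705100776023302014975548098484911780429541993733121797615520080317849169659084047151313247934611270405964989421732399122870368274146820334019860435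0549304564397412608777052123864412722979760959874670000158165521399605632366351951194750226977529532144730096134826424468161921292348798566994191694824430505145512657515718275470358037177441508631391005620841738774516109171005329249179227835446374987222377091896938168576061218989489039013172591006274580762774659907679451357333329016303518521497082081545982494575191326474941713470904201744954774981720715412560894436481886457803045353128401642291550934756993846745800356900054319840221501707334877748734934277711049449937631439706442997960160764115040218432050115314690472617349504799557864176427106626336130137692040628337727428111792283077749231663364301167705963294692477396855989012378844758338477747490234540185110722529529342393601631348436733965767138049972200351238914730556095300958515870130376945992728933642873625570331989081422492651330429854049545204495488253209676718373910200320551604512805047439662719849677443761178949424512311494860742506095657610359929580956954626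

/-- A prime label. -/
def pr (x : ℕ) : ℕ := Nat.mod (Nat.shiftRight primeTab (Nat.mul (nat_lit 12) x)) (nat_lit 4096)

set_option exponentiation.threshold 7000 in
lemma pr_ok : allB (fun x => Nat.blt (pr x) (pr (x + 1)) || Nat.beq x 511) 512 = true ∧
    allB (fun x => Nat.ble 2 (pr x) && allB (fun d => Nat.blt d 2 || Nat.blt (pr x) (d * d) ||
      !Nat.beq (pr x % d) 0) 64) 512 = true ∧ Nat.blt primeTab (2 ^ 6144) = true := by
  refine ⟨?_, ?_, ?_⟩ <;> decide +kernel

set_option exponentiation.threshold 7000 in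
lemma pr_zero {x : ℕ} (h : 512 ≤ x) : pr x = 0 := by
  have h2 : primeTab < 2 ^ (12 * x) :=
    (Nat.blt_eq.mp pr_ok.2.2).trans_le (Nat.pow_le_pow_right (by norm_num) (by omega))
  change primeTab >>> (12 * x) % 4096 = 0
  rw [Nat.shiftRight_eq_div_pow, Nat.div_eq_of_lt h2]

lemma pr_prime {x : ℕ} (h : x < 512) : (pr x).Prime := by
  have h1 := allB_spec.1 pr_ok.2.1 x h
  rw [Bool.and_eq_true, allB_spec, Nat.ble_eq] at h1
  have h2 : pr x < 4096 := Nat.mod_lt _ (by norm_num)
  refine Nat.prime_def_le_sqrt.2 ⟨h1.1, fun d hd hs hdvd => ?_⟩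
  rw [Nat.le_sqrt] at hs
  have h3 : d < 64 := by nlinarith
  have := h1.2 d h3
  simp only [Bool.or_eq_true, Nat.blt_eq, Bool.not_eq_true'] at this
  rcases this with (h4 | h4) | h4
  · omega
  · omega
  · exact Nat.ne_of_beq_eq_false h4 (Nat.mod_eq_zero_of_dvd hdvd)

lemma pr_inj {x y : ℕ} (hx : x < 512) (hy : y < 512) (h : pr x = pr y) : x = y := by
  have key : ∀ y < 512, ∀ x < y, pr x < pr y := by
    intro y
    induction y with
    | zero => simp
    | succ y ih =>
      intro hy x hx
      have h1 := allB_spec.1 pr_ok.1 y (by omega)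
      simp only [Bool.or_eq_true, Nat.blt_eq, Nat.beq_eq] at h1
      have h2 : pr y < pr (y + 1) := h1.resolve_right (by omega)
      rcases Nat.lt_succ_iff_lt_or_eq.1 hx with h3 | rfl
      · exact (ih (by omega) x h3).trans h2
      · exact h2
  rcases lt_trichotomy x y with c | c | c
  · exact absurd h (key y hy x c).ne
  · exact c
  · exact absurd h (key x hx y c).ne'

lemma perm_of_pr {l l' : List ℕ} (h : (l.map pr).prod = (l'.map pr).prod)
    (h' : ∀ x ∈ l', x < 512) : l.Perm l' := by
  have h0 : (l'.map pr).prod ≠ 0 := by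
    refine List.prod_ne_zero fun h0 => ?_
    obtain ⟨x, hx, e⟩ := List.mem_map.1 h0
    exact (pr_prime (h' x hx)).ne_zero e
  have h1 : ∀ x ∈ l, x < 512 := by
    intro x hx
    by_contra hc
    rw [← h] at h0
    exact h0 (List.prod_eq_zero (List.mem_map.2 ⟨x, hx, pr_zero (by omega)⟩))
  have hp : (l.map pr).Perm (l'.map pr) := perm_of_prod_eq_prod h
    (by
      intro p hp
      obtain ⟨x, hx, rfl⟩ := List.mem_map.1 hp
      exact (pr_prime (h1 x hx)).prime)
    (by
      intro p hp
      obtain ⟨x, hx, rfl⟩ := List.mem_map.1 hp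
      exact (pr_prime (h' x hx)).prime)
  classical
  let g : ℕ → ℕ := fun p => if h : ∃ x < 512, pr x = p then h.choose else 0
  have hg : ∀ x < 512, g (pr x) = x := by
    intro x hx
    have e : ∃ y < 512, pr y = pr x := ⟨x, hx, rfl⟩
    simp only [g, e, dite_true]
    exact pr_inj e.choose_spec.1 hx e.choose_spec.2
  have := hp.map g
  rwa [List.map_map, List.map_map,
    List.map_congr_left (f := g ∘ pr) (g := id) (fun x hx => hg x (h1 x hx)),
    List.map_congr_left (f := g ∘ pr) (g := id) (fun x hx => hg x (h' x hx)),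
    List.map_id, List.map_id] at this

lemma prod4 (a b c d : ℕ) : ([a, b, c, d].map pr).prod = pr a * (pr b * (pr c * pr d)) := by
  simp

lemma prod6 (a b c d e f : ℕ) : ([a, b, c, d, e, f].map pr).prod =
    pr a * (pr b * (pr c * (pr d * (pr e * pr f)))) := by
  simp

/-- Nine bit field. -/
def fld (d i : ℕ) : ℕ := Nat.mod (Nat.shiftRight d i) (nat_lit 512)

lemma fld_lt (d i : ℕ) : fld d i < 512 := Nat.mod_lt _ (by norm_num)

/-- Switch number `n` of a packed matching. -/
def su (pk n : ℕ) : ℕ := fld pk (Nat.mul (nat_lit 9) n)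

/-- Lazy conjunction. -/
noncomputable def an (x y : Bool) : Bool := Bool.rec false y x

lemma an_eq {x y : Bool} : an x y = true ↔ x = true ∧ y = true := by
  cases x <;> simp [an]

/-- Evaluate a number first. -/
noncomputable def force (x : ℕ) (f : ℕ → Bool) : Bool :=
  Nat.rec (f (nat_lit 0)) (fun n _ => f (Nat.succ n)) x

lemma force_eq (x : ℕ) (f : ℕ → Bool) : force x f = f x := by cases x <;> rfl

/-- Check a list against packed witnesses. -/
noncomputable def allN (f : ℕ → ℕ → Bool) (b : ℕ) (L : List ℕ) : ℕ → Bool :=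
  List.rec (fun _ => true) (fun pk _ ih w => an (f pk w) (ih (Nat.shiftRight w b))) L

lemma allN_spec {f : ℕ → ℕ → Bool} {b : ℕ} {L : List ℕ} : ∀ {w : ℕ}, allN f b L w = true →
    ∀ a ∈ L, ∃ w, f a w = true := by
  induction L with
  | nil => simp
  | cons c L ih =>
    intro w h a ha
    change an (f c w) (allN f b L _) = true at h
    rw [an_eq] at h
    rcases List.mem_cons.1 ha with rfl | ha
    · exact ⟨w, h.1⟩
    · exact ih h.2 a ha

/-- Check a list of nodes numbered from `i`. -/
noncomputable def allI (f : ℕ → ℕ → Bool) (L : List ℕ) : ℕ → Bool :=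
  List.rec (fun _ => true)
    (fun w _ ih i => force i fun i => an (f i w) (ih (Nat.succ i))) L

lemma allI_spec {f : ℕ → ℕ → Bool} {L : List ℕ} : ∀ {s : ℕ}, allI f L s = true →
    (∀ i < s, ∃ w, f i w = true) → ∀ i < s + L.length, ∃ w, f i w = true := by
  induction L with
  | nil => intro s _ h; simpa using h
  | cons c L ih =>
    intro s h h0
    change force s (fun i => an (f i c) (allI f L (Nat.succ i))) = true at h
    rw [force_eq, an_eq] at h
    have := ih h.2 (fun i hi => by
      rcases Nat.lt_succ_iff_lt_or_eq.1 hi with h1 | rfl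
      · exact h0 i h1
      · exact ⟨c, h.1⟩)
    intro i hi
    exact this i (by simp at hi; omega)

/-- All nodes below `n` pass. -/
def Cov (f : ℕ → ℕ → Bool) (n : ℕ) : Prop := ∀ i < n, ∃ w, f i w = true

/-- The nodes from `s` to `t` pass. -/
noncomputable def partOK (f : ℕ → ℕ → Bool) (L : List ℕ) (s t : ℕ) : Bool :=
  an (allI f L s) (Nat.beq t (s + L.length))

lemma allI_step {f : ℕ → ℕ → Bool} {L : List ℕ} {s t : ℕ} (h0 : Cov f s)
    (h : partOK f L s t = true) : Cov f t := by
  rw [partOK, an_eq, Nat.beq_eq] at h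
  rw [h.2]
  exact allI_spec h.1 h0

lemma allI_zero (f : ℕ → ℕ → Bool) : Cov f 0 := by simp [Cov]

/-- The table lists the switches of all matchings. -/
noncomputable def swOK (k : ℕ) (sw : ℕ → List ℕ) : Bool :=
  allB (fun D => (genm k (bitsOf k D)).length == (sw D).length &&
    ((genm k (bitsOf k D)).zip (sw D)).all fun x =>
      allB (fun n => Nat.beq (su x.2 n) (sub x.1 n)) 16) (2 ^ k)

lemma swOK_spec {k : ℕ} {sw : ℕ → List ℕ} (h : swOK k sw = true) {D : ℕ} (hD : D < 2 ^ k)
    {π : List ℕ} (hπ : π ∈ genm k (bitsOf k D)) : ∃ pk ∈ sw D, ∀ n < 16, su pk n = sub π n := by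
  have := allB_spec.1 h D hD
  rw [Bool.and_eq_true, beq_iff_eq, List.all_eq_true] at this
  obtain ⟨i, hi, rfl⟩ := List.mem_iff_getElem.1 hπ
  refine ⟨(sw D)[i]'(this.1 ▸ hi), List.getElem_mem _, fun n hn => ?_⟩
  have h1 := this.2 (((genm k (bitsOf k D)).zip (sw D))[i]'(by simp [← this.1, hi]))
    (List.getElem_mem _)
  simpa using allB_spec.1 h1 n hn

/-- The orbit of `a`, as a bit set. -/
noncomputable def orb (pk a n : ℕ) : ℕ :=
  Nat.rec (nat_lit 0) (fun n ih => Nat.lor ih (Nat.shiftLeft (nat_lit 1) (Nat.xor a (su pk n)))) n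

lemma orb_spec (pk a x : ℕ) : ∀ n, (orb pk a n).testBit x = true → ∃ m < n, x = a ^^^ su pk m := by
  intro n
  induction n with
  | zero => intro h; simp [orb] at h
  | succ n ih =>
    intro h
    change (orb pk a n ||| 1 <<< (a ^^^ su pk n)).testBit x = true at h
    rw [Nat.testBit_or, Bool.or_eq_true, Nat.one_shiftLeft, Nat.testBit_two_pow,
      decide_eq_true_eq] at h
    rcases h with h | h
    · obtain ⟨m, h1, h2⟩ := ih h
      exact ⟨m, by omega, h2⟩
    · exact ⟨n, by omega, h.symm⟩

/-- The tables of a certificate. -/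
structure Tab where
  /-- number of switchable edges -/
  k : ℕ
  /-- switches -/
  sw : ℕ → List ℕ
  /-- number of colouring nodes -/
  nX : ℕ
  /-- keys and ranks of colouring nodes -/
  tX : ℕ → ℕ
  /-- number of orbit nodes -/
  nW : ℕ
  /-- keys and ranks of orbit nodes -/
  tW : ℕ → ℕ

namespace Tab
variable (C : Tab)

/-- Node `i` has key `K` and rank below `r`. -/
noncomputable def lookX (K r i : ℕ) : Bool :=
  an (Nat.blt i C.nX) (force (C.tX i) fun e => an (Nat.beq (Nat.shiftRight e (nat_lit 10)) K)
    (Nat.blt (Nat.mod e (nat_lit 1024)) r))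

/-- Node `i` has keys `A`, `K` and rank below `r`. -/
noncomputable def lookW (A K r i : ℕ) : Bool :=
  an (Nat.blt i C.nW) (force (C.tW i) fun e => an (Nat.beq (Nat.shiftRight e (nat_lit 58)) A)
    (an (Nat.beq (Nat.mod (Nat.shiftRight e (nat_lit 10)) (nat_lit 281474976710656)) K)
      (Nat.blt (Nat.mod e (nat_lit 1024)) r)))

/-- One matching at a colouring node. -/
noncomputable def stepX (a b K r pk w : ℕ) : Bool :=
  force (Nat.mod w (nat_lit 16)) fun u =>
  force (Nat.mod (Nat.shiftRight w (nat_lit 4)) (nat_lit 131072)) fun i =>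
    Bool.rec
      (force (su pk u) fun s =>
        C.lookX (Nat.mul (pr (Nat.xor a s)) (Nat.mul (pr (Nat.xor b s)) K)) r i)
      (C.lookW (Nat.add (Nat.mul (orb pk a (nat_lit 16)) (nat_lit 512)) (Nat.xor a b)) K r i)
      (Nat.beq u (nat_lit 0))

/-- Check of a colouring node. -/
noncomputable def ckX (ext : List ℕ → ℕ → Bool) (i w : ℕ) : Bool :=
  force (fld w (nat_lit 0)) fun a => force (fld w (nat_lit 9)) fun b =>
  force (fld w (nat_lit 18)) fun c => force (fld w (nat_lit 27)) fun d =>
  force (fld w (nat_lit 36)) fun e => force (fld w (nat_lit 45)) fun f =>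
  force (Nat.mul (pr c) (Nat.mul (pr d) (Nat.mul (pr e) (pr f)))) fun K =>
  force (C.tX i) fun y => force (Nat.mod y (nat_lit 1024)) fun r =>
    an (Nat.beq (Nat.shiftRight y (nat_lit 10)) (Nat.mul (pr a) (Nat.mul (pr b) K)))
      (Bool.rec
        (an (Nat.blt (Nat.xor a b) (Nat.pow (nat_lit 2) C.k))
          (allN (C.stepX a b K r) (nat_lit 21) (C.sw (Nat.xor a b))
            (Nat.shiftRight w (nat_lit 54))))
        (ext [a, b, c, d, e, f] (Nat.shiftRight w (nat_lit 54))) (Nat.beq r (nat_lit 0)))

/-- One pair of matchings at an orbit node. -/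
noncomputable def stepW (A c d e f r pk pl w : ℕ) : Bool :=
  force (su pk (Nat.mod w (nat_lit 16))) fun s =>
  force (su pl (Nat.mod (Nat.shiftRight w (nat_lit 4)) (nat_lit 16))) fun s' =>
  force (Nat.mod (Nat.shiftRight w (nat_lit 8)) (nat_lit 1024)) fun t =>
  force (Nat.mod (Nat.shiftRight w (nat_lit 18)) (nat_lit 131072)) fun i =>
  force (Nat.mul (pr (Nat.xor c s)) (Nat.mul (pr (Nat.xor d s))
    (Nat.mul (pr (Nat.xor e s')) (pr (Nat.xor f s'))))) fun K =>
    Bool.rec
      (an (Nat.testBit (Nat.div A (nat_lit 512)) (Nat.pred t))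
        (C.lookX (Nat.mul (pr (Nat.pred t))
          (Nat.mul (pr (Nat.xor (Nat.pred t) (Nat.mod A (nat_lit 512)))) K)) r i))
      (C.lookW A K r i) (Nat.beq t (nat_lit 0))

/-- Check of an orbit node. -/
noncomputable def ckW (i w : ℕ) : Bool :=
  force (fld w (nat_lit 0)) fun c => force (fld w (nat_lit 9)) fun d =>
  force (fld w (nat_lit 18)) fun e => force (fld w (nat_lit 27)) fun f =>
  force (C.tW i) fun y => force (Nat.mod y (nat_lit 1024)) fun r =>
  force (Nat.shiftRight y (nat_lit 58)) fun A =>
    an (Nat.beq (Nat.mod (Nat.shiftRight y (nat_lit 10)) (nat_lit 281474976710656))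
      (Nat.mul (pr c) (Nat.mul (pr d) (Nat.mul (pr e) (pr f)))))
      (an (Nat.blt (Nat.xor c d) (Nat.pow (nat_lit 2) C.k))
        (Bool.rec
          (allN (fun pk w => C.stepW A c d e f r pk (nat_lit 0) w) (nat_lit 35)
            (C.sw (Nat.xor c d)) (Nat.shiftRight w (nat_lit 45)))
          (an (Nat.blt (Nat.xor e f) (Nat.pow (nat_lit 2) C.k))
            (allN (fun pk w => allN (C.stepW A c d e f r pk) (nat_lit 35) (C.sw (Nat.xor e f)) w)
              (Nat.mul (nat_lit 35) (C.sw (Nat.xor e f)).length)
              (C.sw (Nat.xor c d)) (Nat.shiftRight w (nat_lit 45))))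
          (Nat.beq (fld w (nat_lit 36)) (nat_lit 1))))

theorem sound (S : Sys C.k) {ext : List ℕ → ℕ → Bool} (hsw : swOK C.k C.sw = true)
    (hext : ∀ xs wit, xs.length = 6 → ext xs wit = true → ¬ S.Real xs)
    (hX : Cov (C.ckX ext) C.nX) (hW : Cov C.ckW C.nW) (r : ℕ) :
    (∀ (xs : List ℕ) (i : ℕ), C.lookX (xs.map pr).prod r i = true → ¬ S.Real xs) ∧
    (∀ A (q : List ℕ) (i : ℕ), C.lookW A (q.map pr).prod r i = true →
      ¬ S.RealW (A / 512) (A % 512) q) := by
  induction r using Nat.strong_induction_on with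
  | _ r ih =>
  constructor
  · intro xs i hlt hreal
    simp only [lookX, an_eq, force_eq, Nat.blt_eq, Nat.beq_eq] at hlt
    obtain ⟨h1, h2, h3⟩ := hlt
    obtain ⟨w, hc⟩ := hX i h1
    simp only [ckX, an_eq, force_eq, Nat.beq_eq] at hc
    obtain ⟨h4, hc⟩ := hc
    have hp : xs.Perm [fld w 0, fld w 9, fld w 18, fld w 27, fld w 36, fld w 45] :=
      perm_of_pr (by rw [← h2, h4]; simp) (by simp [fld_lt])
    have hreal' := hreal.perm S hp
    cases hk : Nat.beq (Nat.mod (C.tX i) 1024) 0
    · rw [hk] at hc
      simp only [an_eq, Nat.blt_eq] at hc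
      obtain ⟨π, hπ, a1, a2⟩ := hreal'.step S
      obtain ⟨pk, b1, b2⟩ := swOK_spec hsw hc.1 hπ
      obtain ⟨v, hv⟩ := allN_spec hc.2 pk b1
      simp only [stepX, force_eq] at hv
      cases hu : Nat.beq (Nat.mod v 16) 0
      · rw [hu] at hv
        have a3 := a2 (v % 16)
        rw [← b2 _ (Nat.mod_lt _ (by norm_num))] at a3
        exact (ih _ h3).1 _ _ (by rw [prod6]; exact hv) a3
      · rw [hu] at hv
        have hD : fld w 0 ^^^ fld w 9 < 512 :=
          Nat.xor_lt_two_pow (n := 9) (fld_lt _ _) (fld_lt _ _)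
        refine (ih _ h3).2 (orb pk (fld w 0) 16 * 512 + (fld w 0 ^^^ fld w 9))
          [fld w 18, fld w 27, fld w 36, fld w 45] _ (by rw [prod4]; exact hv) ?_
        rw [show (orb pk (fld w 0) 16 * 512 + (fld w 0 ^^^ fld w 9)) / 512 = orb pk (fld w 0) 16
          by omega, show (orb pk (fld w 0) 16 * 512 + (fld w 0 ^^^ fld w 9)) % 512 =
          fld w 0 ^^^ fld w 9 by omega]
        refine a1 _ fun x hx => ?_
        obtain ⟨m, c1, c2⟩ := orb_spec _ _ _ _ hx
        exact ⟨m, by rw [c2, b2 m c1]⟩
    · rw [hk] at hc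
      exact hext _ _ (by simp) hc hreal'
  · intro A q i hlt hreal
    simp only [lookW, an_eq, force_eq, Nat.blt_eq, Nat.beq_eq] at hlt
    obtain ⟨h1, rfl, h2, h3⟩ := hlt
    obtain ⟨w, hc⟩ := hW i h1
    simp only [ckW, an_eq, force_eq, Nat.beq_eq, Nat.blt_eq] at hc
    obtain ⟨h4, h5, hc⟩ := hc
    have hp : q.Perm [fld w 0, fld w 9, fld w 18, fld w 27] :=
      perm_of_pr (by rw [← h2, h4]; simp) (by simp [fld_lt])
    obtain ⟨π, hπ, ρ, hρ, a1⟩ := (hreal.perm S hp).step S (Nat.beq (fld w 36) 1)
    obtain ⟨pk, b1, b2⟩ := swOK_spec hsw h5 hπ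
    have key : ∃ pl v, (∀ n < 16, su pl n = sub ρ n) ∧ C.stepW (Nat.shiftRight (C.tW i) 58)
        (fld w 0) (fld w 9) (fld w 18) (fld w 27) (Nat.mod (C.tW i) 1024) pk pl v = true := by
      cases hk : Nat.beq (fld w 36) 1
      · rw [hk] at hc hρ
        obtain ⟨v, hv⟩ := allN_spec hc pk b1
        obtain rfl : ρ = [] := by simpa using hρ
        exact ⟨0, v, fun n _ => by simp [su, fld, sub], hv⟩
      · rw [hk] at hc hρ
        simp only [an_eq, Nat.blt_eq] at hc
        obtain ⟨pl, c1, c2⟩ := swOK_spec hsw hc.1 hρ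
        obtain ⟨v, hv⟩ := allN_spec hc.2 pk b1
        obtain ⟨v', hv'⟩ := allN_spec hv pl c1
        exact ⟨pl, v', c2, hv'⟩
    obtain ⟨pl, v, c2, hv⟩ := key
    simp only [stepW, force_eq] at hv
    have a2 := a1 (v % 16) (v >>> 4 % 16)
    rw [← b2 _ (Nat.mod_lt _ (by norm_num)), ← c2 _ (Nat.mod_lt _ (by norm_num))] at a2
    cases hu : Nat.beq (Nat.mod (Nat.shiftRight v 8) 1024) 0
    · rw [hu] at hv
      simp only [an_eq] at hv
      exact (ih _ h3).1 _ _ (by rw [prod6]; exact hv.2) (a2.real S hv.1)
    · rw [hu] at hv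
      exact (ih _ h3).2 _ _ _ (by rw [prod4]; exact hv) a2

/-- Binary search for a key. -/
noncomputable def bs (K n : ℕ) : ℕ → ℕ → ℕ :=
  Nat.rec (motive := fun _ => ℕ → ℕ → ℕ) (fun lo _ => lo) (fun _ ih lo s =>
    Bool.rec (ih lo (Nat.div s (nat_lit 2))) (ih (Nat.add lo s) (Nat.div s (nat_lit 2)))
      (an (Nat.blt (Nat.add lo s) C.nX)
        (Nat.ble (Nat.shiftRight (C.tX (Nat.add lo s)) (nat_lit 10)) K))) n

/-- The colouring is refuted. -/
noncomputable def test (xs : List ℕ) : Bool :=
  force (xs.map pr).prod fun K =>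
    C.lookX K (nat_lit 1024) (C.bs K (nat_lit 17) (nat_lit 0) (nat_lit 65536))

theorem test_sound (S : Sys C.k) {ext : List ℕ → ℕ → Bool} (hsw : swOK C.k C.sw = true)
    (hext : ∀ xs wit, xs.length = 6 → ext xs wit = true → ¬ S.Real xs)
    (hX : Cov (C.ckX ext) C.nX) (hW : Cov C.ckW C.nW)
    (xs : List ℕ) (h : C.test xs = true) : ¬ S.Real xs := by
  rw [test, force_eq] at h
  exact (C.sound S hsw hext hX hW _).1 xs _ h

end Tab

end Pool.Agent.P.MP_40718a_co
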