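import Pool.Agent.P.MP_40718a_co.Reduce
import Pool.Agent.P.MP_40718a_co.Fast

/-! Reducible configurations. -/

namespace Pool.Agent.P.MP_40718a_co

/-- Digit `i` of `b` in base `2 ^ w`. -/
def dig (b w i : ℕ) : ℕ := Nat.mod (Nat.shiftRight b (Nat.mul w i)) (Nat.pow (nat_lit 2) w)

/-- Concatenation of blocks of `w` bits. -/
noncomputable def cat (w : ℕ) (L : List ℕ) : ℕ :=
  List.rec (nat_lit 0) (fun a _ ih => Nat.add a (Nat.shiftLeft ih w)) L

/-- Entry of a list. -/
noncomputable def nth {α : Type} (d : α) (L : List α) : ℕ → α :=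
  List.rec (fun _ => d) (fun a _ ih i => Nat.rec a (fun j _ => ih j) i) L

/-- Graph number `w.head` of `F` maps into the graph `(n, E)` by `w.tail`. -/
noncomputable def subG (n : ℕ) (E : List (ℕ × ℕ)) (F : List (ℕ × List (ℕ × ℕ))) (w : List ℕ) :
    Bool :=
  match w with
  | [] => false
  | i :: φ => match F[i]? with
    | none => false
    | some H => allB (fun u => Nat.blt (φ.getD u 0) n &&
        allB (fun v => !Nat.beq (φ.getD u 0) (φ.getD v 0)) u) H.1 &&
      H.2.all fun e => E.any fun e' =>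
        (Nat.beq e'.1 (φ.getD e.1 0) && Nat.beq e'.2 (φ.getD e.2 0)) ||
        (Nat.beq e'.2 (φ.getD e.1 0) && Nat.beq e'.1 (φ.getD e.2 0))

/-- All pairs are related. -/
def pairB (r : ℕ → ℕ → Bool) : List ℕ → Bool
  | [] => true
  | a :: l => l.all (r a) && pairB r l

lemma pairB_spec {r : ℕ → ℕ → Bool} : ∀ {l : List ℕ}, pairB r l = true →
    l.Pairwise fun a b => r a b = true
  | [], _ => .nil
  | a :: l, h => by
    rw [pairB, Bool.and_eq_true, List.all_eq_true] at h
    exact .cons h.1 (pairB_spec h.2)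

/-- The table describes the graph `(n, E)` with `k` pendant edges. -/
noncomputable def cfgOK (k n : ℕ) (ι : ℕ → ℕ) (E : List (ℕ × ℕ)) : Bool :=
  tblOK (k + 3 * n) ι && allB (fun t => Nat.ble k (ι t) && Nat.beq ((ι t - k) % 3) 2) k &&
    allB (fun p => Nat.blt p k || Nat.blt (ι p) k ||
      (E.any (fun e => (Nat.beq e.1 ((p - k) / 3) && Nat.beq e.2 ((ι p - k) / 3)) ||
        (Nat.beq e.2 ((p - k) / 3) && Nat.beq e.1 ((ι p - k) / 3))) &&
      allB (fun i => Nat.blt (ι (k + 3 * ((p - k) / 3) + i)) k ||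
        !Nat.beq ((ι (k + 3 * ((p - k) / 3) + i) - k) / 3) ((ι p - k) / 3)) ((p - k) % 3)))
      (k + 3 * n) &&
    E.all fun e => Nat.blt e.1 n && Nat.blt e.2 n

/-- Chords are impossible. -/
noncomputable def chordOK (k n : ℕ) (ι : ℕ → ℕ) (E : List (ℕ × ℕ))
    (F : List (ℕ × List (ℕ × ℕ))) (W : List (List ℕ)) : Bool :=
  allB (fun s => allB (fun t => Nat.beq s t ||
    Nat.beq ((ι (k + 3 * ((ι t - k) / 3)) - k) / 3) ((ι s - k) / 3) ||
    Nat.beq ((ι (k + 3 * ((ι t - k) / 3) + 1) - k) / 3) ((ι s - k) / 3) ||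
    subG n (((ι t - k) / 3, (ι s - k) / 3) :: E) F (W.getD (s * k + t) [])) k) k

/-- The listed sets of pendant edges have distinct ends. -/
noncomputable def cliqOK (k n : ℕ) (ι : ℕ → ℕ) (E : List (ℕ × ℕ))
    (F : List (ℕ × List (ℕ × ℕ))) (W : List (List ℕ)) (Cl : List (List ℕ)) : Bool :=
  Cl.all fun K => K.all (fun t => Nat.blt t k) && pairB (fun s t =>
    subG (n + 1) (((ι s - k) / 3, n) :: ((ι t - k) / 3, n) :: E) F (W.getD (s * k + t) [])) K

/-- The six traces extend into the configuration. -/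
noncomputable def extL (k N len : ℕ) (cd : ℕ → ℕ) (xs wit : List ℕ) : Bool :=
  wit.all (fun i => Nat.blt i len) && (wit.map fun i => cd i % 2 ^ k) == xs &&
    twice (2 ^ N - 1) (wit.map cd) 0 0

/-- The same with a packed witness. -/
noncomputable def extC (k N len : ℕ) (cd : ℕ → ℕ) (xs : List ℕ) (w : ℕ) : Bool :=
  extL k N len cd xs [fld w (nat_lit 0), fld w (nat_lit 9), fld w (nat_lit 18), fld w (nat_lit 27),
    fld w (nat_lit 36), fld w (nat_lit 45)]

namespace DG
variable {V : Type} (G : DG V)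

/-- Adjacency. -/
def Adj (u v : V) : Prop := ∃ i, (G.σ (u, i)).1 = v

/-- No parallel edges. -/
def NoMulti : Prop := ∀ v i j, (G.σ (v, i)).1 = (G.σ (v, j)).1 → i = j

/-- `G` contains the graph `(n, E)`. -/
def Cont (H : ℕ × List (ℕ × ℕ)) : Prop := ∃ f : ℕ → V, (∀ u < H.1, ∀ v < H.1, f u = f v → u = v) ∧
  ∀ e ∈ H.2, G.Adj (f e.1) (f e.2)

/-- Cuts of size at most `l` are trivial. -/
def Lev [Fintype V] (l : ℕ) : Prop := ∀ X, G.cut X ≤ l →
  G.cut X = 0 ∨ X.ncard + 2 ≤ G.cut X ∨ Xᶜ.ncard + 2 ≤ G.cut X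

variable {G}

lemma Adj.symm {u v : V} (h : G.Adj u v) : G.Adj v u := by
  obtain ⟨i, rfl⟩ := h
  exact ⟨(G.σ (u, i)).2, by simp [G.inv]⟩

lemma not_cont {n : ℕ} {E : List (ℕ × ℕ)} {F : List (ℕ × List (ℕ × ℕ))} {w : List ℕ}
    (hF : ∀ H ∈ F, ¬ G.Cont H) (h : subG n E F w = true) : ¬ G.Cont (n, E) := by
  rintro ⟨f, h1, h2⟩
  unfold subG at h
  split at h
  · cases h
  next i φ =>
  split at h
  · cases h
  next H hH =>
  rw [Bool.and_eq_true, allB_spec, List.all_eq_true] at h
  refine hF H (List.mem_of_getElem? hH) ⟨fun u => f (φ.getD u 0), ?_, ?_⟩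
  · have key : ∀ u < H.1, φ.getD u 0 < n ∧ ∀ v < u, φ.getD u 0 ≠ φ.getD v 0 := by
      intro u hu
      have := h.1 u hu
      rw [Bool.and_eq_true, allB_spec] at this
      exact ⟨Nat.blt_eq.mp this.1, fun v hv => Nat.ne_of_beq_eq_false (by simpa using this.2 v hv)⟩
    intro u hu v hv e
    have := h1 _ (key u hu).1 _ (key v hv).1 e
    rcases lt_trichotomy u v with c | c | c
    · exact absurd this.symm ((key v hv).2 u c)
    · exact c
    · exact absurd this ((key u hu).2 v c)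
  · intro e he
    obtain ⟨e', a1, a2⟩ := List.any_eq_true.1 (h.2 e he)
    simp only [Bool.or_eq_true, Bool.and_eq_true, Nat.beq_eq] at a2
    dsimp only
    rcases a2 with a2 | a2
    · rw [← a2.1, ← a2.2]; exact h2 e' a1
    · rw [← a2.1, ← a2.2]; exact (h2 e' a1).symm

theorem config [Fintype V] (hM : G.NoMulti) (IH : Small (Fintype.card V)) (hC : ¬ G.Cover)
    {l : ℕ} (hl : G.Lev l) {F : List (ℕ × List (ℕ × ℕ))} (hF : ∀ H ∈ F, ¬ G.Cont H)
    {k n : ℕ} {ι : ℕ → ℕ} {E : List (ℕ × ℕ)} (h1 : cfgOK k n ι E = true)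
    {W W' : List (List ℕ)} (h2 : chordOK k n ι E F W = true)
    {Cl : List (List ℕ)} (h3 : cliqOK k n ι E F W' Cl = true)
    {n' : ℕ} {ι' : ℕ → ℕ} (h4 : tblOK (k + 3 * n') ι' = true) (h5 : safe k n' ι' l Cl = true)
    (hn : n' < n ∧ l < n + 2) {len : ℕ} {cd : ℕ → ℕ}
    (h6 : allB (fun i => codeOK k n ι (cd i)) len = true) {sw : ℕ → List ℕ} (hsw : swOK k sw = true)
    {nX nW : ℕ} {tX tW : ℕ → ℕ}
    (hX : Cov ((Tab.mk k sw nX tX nW tW).ckX (extC k (k + 3 * n) len cd)) nX)
    (hW : Cov (Tab.mk k sw nX tX nW tW).ckW nW)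
    (h7 : chk (2 ^ (k + 3 * n') - 1)
      (fun M => (Tab.mk k sw nX tX nW tW).test (M.map (· % 2 ^ k))) 6
      (pms k n' ι') 0 0 [] = true) : ¬ G.Cont (n, E) := by
  classical
  rintro ⟨f, finj, fadj⟩
  simp only at finj fadj
  simp only [cfgOK, Bool.and_eq_true, allB_spec, Nat.ble_eq, Nat.beq_eq, Bool.or_eq_true,
    Nat.blt_eq, List.any_eq_true, Bool.not_eq_true', List.all_eq_true] at h1
  obtain ⟨⟨⟨t1, t2⟩, t3⟩, t4⟩ := h1
  replace t1 := tblOK_spec t1
  have t5 : ∀ p < k + 3 * n, k ≤ p → (p - k) % 3 ≠ 2 → k ≤ ι p := by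
    intro p hp a1 a2
    by_contra a3
    have := (t2 (ι p) (by omega)).2
    rw [(t1 p hp).2.1] at this
    exact a2 this
  have hadj : ∀ p < k + 3 * n, k ≤ p → k ≤ ι p → G.Adj (f ((p - k) / 3)) (f ((ι p - k) / 3)) := by
    intro p hp a1 a2
    obtain ⟨e, he, a3⟩ := ((t3 p hp).resolve_left (by omega)).1
    rcases a3 with a3 | a3
    · rw [← a3.1, ← a3.2]; exact fadj e he
    · rw [← a3.1, ← a3.2]; exact (fadj e he).symm
  have hdis : ∀ v < n, ∀ i j, i < j → j < 3 → k ≤ ι (k + 3 * v + i) → k ≤ ι (k + 3 * v + j) →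
      f ((ι (k + 3 * v + i) - k) / 3) ≠ f ((ι (k + 3 * v + j) - k) / 3) := by
    intro v hv i j a1 a2 a3 a4 a5
    have b1 := (t1 (k + 3 * v + i) (by omega)).1
    have b2 := (t1 (k + 3 * v + j) (by omega)).1
    have := ((t3 (k + 3 * v + j) (by omega)).resolve_left (by omega)).2 i (by omega)
    rw [show (k + 3 * v + j - k) / 3 = v by omega] at this
    exact Nat.ne_of_beq_eq_false (this.resolve_left (by omega))
      (finj _ (by omega) _ (by omega) a5)
  have hg : ∀ v, ∃ g : Fin 3 → Fin 3, v < n → Function.Bijective g ∧ ∀ i : Fin 3,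
      k ≤ ι (k + 3 * v + i) → (G.σ (f v, g i)).1 = f ((ι (k + 3 * v + i) - k) / 3) := by
    intro v
    by_cases hv : v < n
    swap
    · exact ⟨id, fun h => absurd h hv⟩
    have a0 := t5 (k + 3 * v + 0) (by omega) (by omega) (by omega)
    have a1 := t5 (k + 3 * v + 1) (by omega) (by omega) (by omega)
    have e : ∀ i < 3, (k + 3 * v + i - k) / 3 = v := by omega
    obtain ⟨j0, b0⟩ := hadj _ (by omega) (by omega) a0
    obtain ⟨j1, b1⟩ := hadj _ (by omega) (by omega) a1
    rw [e _ (by omega)] at b0 b1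
    have c01 : j0 ≠ j1 := by
      rintro rfl
      exact hdis v hv 0 1 (by omega) (by omega) a0 a1 (b0.symm.trans b1)
    have : ∀ x y : Fin 3, x ≠ y → ∃ z, Function.Bijective ![x, y, z] ∧
      ∀ w, w ≠ x → w ≠ y → w = z := by decide
    obtain ⟨j2, c1, c2⟩ := this j0 j1 c01
    refine ⟨![j0, j1, j2], fun _ => ⟨c1, fun i => ?_⟩⟩
    fin_cases i
    · exact fun _ => b0
    · exact fun _ => b1
    · intro a2
      obtain ⟨j, b2⟩ := hadj (k + 3 * v + 2) (by omega) (by omega) a2
      rw [e _ (by omega)] at b2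
      have := c2 j (by
        rintro rfl
        exact hdis v hv 0 2 (by omega) (by omega) a0 a2 (b0.symm.trans b2)) (by
        rintro rfl
        exact hdis v hv 1 2 (by omega) (by omega) a1 a2 (b1.symm.trans b2))
      subst this
      exact b2
  choose g hg using hg
  let q : ℕ → V × Fin 3 := fun p =>
    (f ((p - k) / 3), g ((p - k) / 3) ⟨(p - k) % 3, Nat.mod_lt _ (by omega)⟩)
  have q1 : ∀ p < k + 3 * n, k ≤ p → k ≤ ι p → (G.σ (q p)).1 = f ((ι p - k) / 3) := by
    intro p hp a1 a2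
    have := (hg ((p - k) / 3) (by omega)).2 ⟨(p - k) % 3, Nat.mod_lt _ (by omega)⟩
    simp only [show k + 3 * ((p - k) / 3) + (p - k) % 3 = p by omega] at this
    exact this a2
  have qc : ∀ p < k + 3 * n, k ≤ p → k ≤ ι p → G.σ (q p) = q (ι p) := by
    intro p hp a1 a2
    have b1 := q1 p hp a1 a2
    have b2 := q1 (ι p) (t1 p hp).1 a2 (by rw [(t1 p hp).2.1]; exact a1)
    rw [(t1 p hp).2.1] at b2
    refine Prod.ext b1 (hM (q (ι p)).1 _ _ ?_)
    rw [show ((q (ι p)).1, (q (ι p)).2) = q (ι p) from rfl, b2,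
      show (q (ι p)).1 = (G.σ (q p)).1 from b1.symm]
    simp [G.inv, q]
  have qinj : ∀ p < k + 3 * n, k ≤ p → ∀ p' < k + 3 * n, k ≤ p' → q p = q p' → p = p' := by
    intro p hp a1 p' hp' a2 h
    have b1 := finj _ (by omega) _ (by omega) (congrArg Prod.fst h)
    have b2 := congrArg Prod.snd h
    simp only [q, b1] at b2
    have := congrArg Fin.val ((hg _ (by omega)).1.1 b2)
    simp only at this
    omega
  let R : Set V := {w | ∀ u < n, f u ≠ w}
  have qs : ∀ d : V × Fin 3, d.1 ∉ R → ∃ p < k + 3 * n, k ≤ p ∧ q p = d := by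
    rintro ⟨w, j⟩ hd
    simp only [R, Set.mem_ofPred_eq, not_forall, not_not] at hd
    obtain ⟨u, hu, rfl⟩ := hd
    obtain ⟨i, rfl⟩ := (hg u hu).1.2 j
    refine ⟨k + 3 * u + i, by omega, by omega, ?_⟩
    have a3 : (k + 3 * u + i - k) / 3 = u := by omega
    have a4 : (k + 3 * u + i - k) % 3 = i := by omega
    simp [q, a3, a4]
  have qR : ∀ p < k + 3 * n, k ≤ p → (q p).1 ∉ R := fun p hp a1 h => h _ (by omega) rfl
  have hbd : ∀ t < k, (G.σ (q (ι t))).1 ∈ R := by
    intro t ht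
    by_contra hc
    obtain ⟨p, hp, a1, a2⟩ := qs _ hc
    have b1 := t1 t (by omega)
    have b2 := t1 p hp
    have b3 := t2 t ht
    have a3 : G.σ (q p) = q (ι t) := by rw [a2, G.inv]
    by_cases a4 : k ≤ ι p
    · rw [qc p hp a1 a4] at a3
      have := qinj _ b2.1 a4 _ b1.1 b3.1 a3
      have : p = t := by rw [← b2.2.1, this, b1.2.1]
      omega
    have a5 : G.Adj (f ((ι t - k) / 3)) (f ((p - k) / 3)) := ⟨(q (ι t)).2, congrArg Prod.fst a2.symm⟩
    have := allB_spec.1 (allB_spec.1 h2 (ι p) (by omega)) t ht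
    simp only [Bool.or_eq_true, Nat.beq_eq, b2.2.1] at this
    have a6 : ∀ i, i < 2 → (ι (k + 3 * ((ι t - k) / 3) + i) - k) / 3 ≠ (p - k) / 3 := by
      intro i hi h
      have c1 := (hg ((ι t - k) / 3) (by omega)).2 ⟨i, by omega⟩
        (t5 _ (by simp only; omega) (by omega) (by simp only; omega))
      simp only [h] at c1
      have c2 := hM _ _ (q (ι t)).2 (c1.trans (congrArg Prod.fst a2))
      have := congrArg Fin.val ((hg _ (by omega)).1.1 c2)
      simp only at this
      omega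
    rcases this with ((h | h) | h) | h
    · refine G.ne (q p) ?_
      rw [a3, ← h, b2.2.1]
    · exact a6 0 (by omega) h
    · exact a6 1 (by omega) h
    · refine not_cont hF h ⟨f, finj, fun e he => ?_⟩
      rcases List.mem_cons.1 he with rfl | he
      · exact a5
      · exact fadj e he
  have hP : G.Pole R k fun t => G.σ (q (ι t)) := by
    refine ⟨hbd, fun t ht => ?_, fun s hs t ht h => ?_, fun d a1 a2 => ?_⟩
    · rw [G.inv]; exact qR _ (t1 t (by omega)).1 (t2 t ht).1
    · have := qinj _ (t1 s (by omega)).1 (t2 s hs).1 _ (t1 t (by omega)).1 (t2 t ht).1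
        (by simpa [G.inv] using congrArg G.σ h)
      rw [← (t1 s (by omega)).2.1, this, (t1 t (by omega)).2.1]
    · obtain ⟨p, hp, b1, b2⟩ := qs _ a2
      have b3 : G.σ (q p) = d := by rw [b2, G.inv]
      refine ⟨ι p, ?_, by simp only [(t1 p hp).2.1, b3]⟩
      by_contra b4
      rw [qc p hp b1 (by omega)] at b3
      exact qR _ (t1 p hp).1 (by omega) (b3 ▸ a1)
  have hcard : n ≤ Rᶜ.ncard := by
    have : Rᶜ = f '' (Finset.range n) := by
      ext w; simp [R]
    rw [this, Set.InjOn.ncard_image (fun u hu v hv => finj u (by simpa using hu) v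
      (by simpa using hv))]
    simp
  obtain ⟨xs, x1, x2, x3⟩ := hP.reduce h4 h5 (fun X hX h => by
      have := Set.ncard_le_ncard (Set.compl_subset_compl.2 hX)
      have := hl X h
      omega) (by
      intro K hK
      have := List.all_eq_true.1 h3 K hK
      rw [Bool.and_eq_true, List.all_eq_true] at this
      have a1 : ∀ t ∈ K, t < k := fun t ht => Nat.blt_eq.mp (this.1 t ht)
      refine ⟨a1, List.pairwise_map.2 ((pairB_spec this.2).imp_of_mem ?_)⟩
      intro s t hs ht h e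
      refine not_cont hF h ⟨fun u => if u < n then f u else (G.σ (q (ι s))).1, ?_, ?_⟩
      · intro u hu v hv a2
        have a3 := hbd s (a1 s hs)
        by_cases b1 : u < n <;> by_cases b2 : v < n <;> simp only [b1, b2, if_true, if_false] at a2
        · exact finj u b1 v b2 a2
        · exact absurd a2 (a3 u b1)
        · exact absurd a2.symm (a3 v b2)
        · simp only at hu hv; omega
      · intro e' he
        have b1 := (t1 s (by have := a1 s hs; omega)).1
        have b2 := (t1 t (by have := a1 t ht; omega)).1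
        have := a1 s hs
        simp only [List.mem_cons] at he
        rcases he with rfl | rfl | he
        · simp only [show (ι s - k) / 3 < n by omega, if_true, lt_irrefl, if_false]
          exact ⟨(q (ι s)).2, rfl⟩
        · simp only [show (ι t - k) / 3 < n by omega, if_true, lt_irrefl, if_false]
          exact ⟨(q (ι t)).2, e.symm⟩
        · simp only [t4 e' he, if_true]
          exact fadj e' he) IH (by omega)
    h7
  refine (Tab.mk k sw nX tX nW tW).test_sound hP.sys hsw ?_ hX hW xs x2 x3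
  intro ys wit0 y1 y2 y3
  unfold extC at y2
  generalize [fld wit0 (nat_lit 0), fld wit0 (nat_lit 9), fld wit0 (nat_lit 18),
    fld wit0 (nat_lit 27), fld wit0 (nat_lit 36), fld wit0 (nat_lit 45)] = wit at y2
  simp only [extL, Bool.and_eq_true, List.all_eq_true, Nat.blt_eq, beq_iff_eq] at y2
  obtain ⟨⟨y4, rfl⟩, y5⟩ := y2
  refine hC (hP.glue y1 y3 ?_)
  have hex : ∀ i w, ∃ j, i < len → ∀ p < k + 3 * n, k ≤ p → (q p).1 = w →
      (j = (q p).2 ↔ (cd i).testBit p = true) := by
    intro i w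
    by_cases hi : i < len ∧ w ∉ R
    swap
    · exact ⟨0, fun a1 p hp a2 a3 => absurd ⟨a1, a3 ▸ qR p hp a2⟩ hi⟩
    obtain ⟨p0, a1, a2, a3⟩ := qs (w, 0) hi.2
    have a4 := allB_spec.1 h6 i hi.1
    rw [codeOK, Bool.and_eq_true] at a4
    obtain ⟨i0, b1, b2⟩ := (one3_iff fun j => (cd i).testBit (k + 3 * ((p0 - k) / 3) + j)).1
      (by simpa using allB_spec.1 a4.2 ((p0 - k) / 3) (by omega))
    refine ⟨g ((p0 - k) / 3) i0, fun _ p hp c1 c2 => ?_⟩
    have c3 : (p - k) / 3 = (p0 - k) / 3 :=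
      finj _ (by omega) _ (by omega) (c2.trans (congrArg Prod.fst a3).symm)
    simp only [q, c3]
    rw [(hg _ (by omega)).1.1.eq_iff]
    constructor
    · rintro rfl
      simpa [show k + 3 * ((p0 - k) / 3) + (p - k) % 3 = p by omega] using b1
    · intro h
      refine (b2 _ ?_).symm
      simpa [show k + 3 * ((p0 - k) / 3) + (p - k) % 3 = p by omega] using h
  choose m hm using hex
  refine hP.compl.real_of (wit.map m) ?_ ?_
  · rw [List.forall₂_map_left_iff, List.forall₂_map_right_iff, List.forall₂_same]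
    intro i hi
    have a4 := allB_spec.1 h6 i (y4 i hi)
    rw [codeOK, Bool.and_eq_true, allB_spec] at a4
    constructor
    · intro d a1 a2 a3
      obtain ⟨p, hp, b1, rfl⟩ := qs d a1
      have b2 : k ≤ ι p := by
        by_contra b3
        have := hbd (ι p) (by omega)
        rw [(t1 p hp).2.1] at this
        exact a2 this
      rw [qc p hp b1 b2, hm i _ (y4 i hi) _ (t1 p hp).1 b2 rfl, ← beq_iff_eq.1 (a4.1 p hp)]
      exact (hm i _ (y4 i hi) p hp b1 rfl).1 a3
    · intro t ht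
      simp only [G.inv]
      rw [hm i _ (y4 i hi) _ (t1 t (by omega)).1 (t2 t ht).1 rfl,
        ← beq_iff_eq.1 (a4.1 t (by omega)), Nat.testBit_mod_two_pow]
      simp [ht]
  · intro d hd
    obtain ⟨p, hp, b1, rfl⟩ := qs d hd
    have := twice_spec _ _ _ y5 p hp (by simp)
    simp only [mult, Nat.zero_testBit, Bool.false_eq_true, if_false, zero_add] at this
    rw [← this, List.countP_map, List.countP_map]
    exact List.countP_congr fun i hi => by
      simp [hm i _ (y4 i hi) p hp b1 rfl]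

end DG

end Pool.Agent.P.MP_40718a_co
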