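import Pool.Agent.P.MP_40718a_co.Cuts

/-! Certificates for small cuts. -/

namespace Pool.Agent.P.MP_40718a_co

/-- classes -/
def cls0 : List (List ℕ) := [[0, 0, 0, 0, 0, 0]]

/-- blocking sets -/
def blk0 : List Blk :=
  [⟨1, 0, 0, 65536, [0], 0, []⟩]

lemma blk0_ok : (blk0.all fun B => B.ok 0 1 0 [[]] cls0) = true := by decide +kernel

lemma cov0_ok : covOK 1 blk0 cls0 = true := by decide +kernel

/-- classes -/
def cls2 : List (List ℕ) := [[0, 0, 0, 0, 3, 3]]

/-- blocking sets -/
def blk2 : List Blk :=
  [⟨1, 0, 1, 802816, [105759274696704], 0, []⟩]

lemma blk2_ok : (blk2.all fun B => B.ok 2 1 0 [[]] cls2) = true := by decide +kernel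

lemma cov2_ok : covOK 1 blk2 cls2 = true := by decide +kernel

/-- classes -/
def cls3 : List (List ℕ) := [[1, 1, 2, 2, 4, 4]]

/-- blocking sets -/
def blk3 : List Blk :=
  [⟨1, 1, 2164281603, 27878400, [141012635222529], 0, []⟩]

lemma blk3_ok : (blk3.all fun B => B.ok 3 2 1 [[], [0], [1]] cls3) = true := by decide +kernel

lemma cov3_ok : covOK 1 blk3 cls3 = true := by decide +kernel

/-- classes -/
def cls4 : List (List ℕ) := [[0, 0, 0, 0, 15, 15], [0, 0, 0, 3, 12, 15], [0, 0, 0, 5, 10, 15], [0, 0, 0, 6, 9, 15], [0, 0, 3, 3, 12, 12], [0, 0, 3, 5, 10, 12], [0, 0, 3, 6, 9, 12], [0, 0, 5, 5, 10, 10], [0, 0, 5, 6, 9, 10], [0, 0, 6, 6, 9, 9]]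

/-- blocking sets -/
def blk4 : List Blk :=
  [⟨19, 0, 536577, 1926118853844946279512318470929089041696312867453550592, [528796373483520, 18542989127188480, 72480631540154368], 0, []⟩,
  ⟨28, 0, 536577, 10996194760110590161049813764111401071790180915084408405017316173579968517243819109675179004319907842, [3961409410196900747986276982272, 2693759414431581153804161128451, 36557250466152448, 54571580390375424, 72480631540154368], 5441498677294780650004481, [32677782587385376092174906226477686070784]⟩,
  ⟨133, 0, 262338, 3797776310676393792680689220526550491247451359198199808, [528796373483520, 36557250466152448, 126453321154428928], 0, []⟩,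
  ⟨138, 0, 262338, 21681469907304942848230909849224585525090210288173563898095373358358301743927610101033556106635264002, [3961408125713541666615949532672, 18542989127188480, 1426106925257659324374846542853, 54571580390375424, 126453321154428928], 4991693269801446943399937, [32677782588020748817310430514861333028352]⟩,
  ⟨176, 2, 55732597311164679, 3797776310676393792680711795291621889620799351194128384, [72480631540154368, 90494892879118336, 126453321154428928], 0, []⟩,
  ⟨518, 0, 4227, 32446844568346329663501819248319990900981189901324523191693266148316166502017272015872719249261608962, [1284484008127482250141184, 18542989127188480, 36557250466152448, 680021386550543814496774, 162446865216307200], 4920857772558402265194497, [43630621272653082884874579265479396826624]⟩,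
  ⟨521, 0, 4227, 5683464183226217973863814491577401190160277397858828288, [528796373483520, 54571580390375424, 162446865216307200], 0, []⟩,
  ⟨592, 2, 54351541970424324, 5683464183226217973863842107853282578244794916538159104, [72480631540154368, 108509222803341312, 162446865216307200], 0, []⟩,
  ⟨97, 0, 536577, 18888933856217843029259830369525615473163148033996174608997440952048349751636631470070756533029715968, [528796373483520, 5229060614888039851450609704448, 3961410619122720257268493850627, 90494892879118336, 108509222803341312], 5441498677294780650745857, [32709684059918967828231255822133756958723]⟩,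
  ⟨110, 0, 536577, 107836749055849623244731043039627754962310818100861204986041868649584389833488303928799123189678972998908054304333956972647991655099238355329499137, [3961409410197225007159447657984, 18542989127188480, 36557250466152448, 54571580390375424, 6496713028505322934064245643267, 90494892879118336, 108509222803341312], 0, []⟩]

lemma blk4_ok : (blk4.all fun B => B.ok 4 3 2 [[], [0], [1], [0, 1], [0, 2], [0, 3], [1, 2], [1, 3], [2, 3]] cls4) = true := by decide +kernel

lemma cov4_ok : covOK 10 blk4 cls4 = true := by decide +kernel

end Pool.Agent.P.MP_40718a_co
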