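import Pool.Agent.P.MP_40718a_co.Sw

/-! Reduction of small cuts. -/

namespace Pool.Agent.P.MP_40718a_co

/-- A blocking set with its certificate. -/
structure Blk where
  /-- the set of classes -/
  Z : ℕ
  /-- reducer size -/
  n : ℕ
  /-- reducer table -/
  tb : ℕ
  /-- keys of colouring nodes -/
  tX : ℕ
  /-- colouring nodes -/
  NX : List ℕ
  /-- keys of orbit nodes -/
  tW : ℕ
  /-- orbit nodes -/
  NW : List ℕ

/-- The class with the same multiset lies in `Z`. -/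
noncomputable def extP (cls : List (List ℕ)) (Z : ℕ) (xs : List ℕ) (w : ℕ) : Bool :=
  Z.testBit w && (cls.getD w []).isPerm xs

/-- The tables of a blocking set. -/
noncomputable def Blk.tab (B : Blk) (k : ℕ) : Tab :=
  Tab.mk k sw B.NX.length (dig B.tX 76) B.NW.length (dig B.tW 90)

/-- Check of a blocking set. -/
noncomputable def Blk.ok (B : Blk) (k l m : ℕ) (Cl cls : List (List ℕ)) : Bool :=
  tblOK (k + 3 * B.n) (dig B.tb 6) && safe k B.n (dig B.tb 6) l Cl && Nat.ble B.n m &&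
    partOK ((B.tab k).ckX (extP cls B.Z)) B.NX 0 B.NX.length &&
    partOK (B.tab k).ckW B.NW 0 B.NW.length &&
    chk (2 ^ (k + 3 * B.n) - 1) (fun M => (B.tab k).test (M.map (· % 2 ^ k))) 6
      (pms k B.n (dig B.tb 6)) 0 0 []

/-- Each set of classes contains or misses a blocking set. -/
noncomputable def covOK (c : ℕ) (Bs : List Blk) (cls : List (List ℕ)) : Bool :=
  allB (fun A => Bs.any fun B => Nat.beq (B.Z &&& A) B.Z || Nat.beq (B.Z &&& A) 0) (2 ^ c) &&
    Bs.all (fun B => Nat.blt B.Z (2 ^ c)) && allB (fun i => (cls.getD i []).length == 6) c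

lemma sum_ind {α : Type} [Fintype α] (p : α → Prop) : ∑ a, ind (p a) = {a | p a}.ncard := by
  classical
  rw [Set.ncard_eq_toFinset_card', Set.toFinset_ofPred, Finset.card_filter]
  exact Finset.sum_congr rfl fun a _ => by unfold ind; congr

namespace DG
variable {V : Type} {G : DG V}

lemma Pole.block [Fintype V] {R : Set V} {k : ℕ} {β : ℕ → V × Fin 3} (hP : G.Pole R k β)
    (hsw : swOK k sw = true) {l m : ℕ} {Cl cls : List (List ℕ)} {B : Blk}
    (hB : B.ok k l m Cl cls = true) (hl : G.Lev l)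
    (hCl : ∀ K ∈ Cl, (∀ t ∈ K, t < k) ∧ (K.map fun t => (β t).1).Nodup)
    (IH : Small (Fintype.card V)) (hn : m < Rᶜ.ncard) (hn' : l < Rᶜ.ncard + 2) :
    ∃ i, B.Z.testBit i = true ∧ hP.sys.Real (cls.getD i []) := by
  simp only [Blk.ok, Bool.and_eq_true, Nat.ble_eq] at hB
  obtain ⟨⟨⟨⟨⟨h1, h2⟩, h3⟩, h4⟩, h5⟩, h6⟩ := hB
  obtain ⟨xs, -, x2, x3⟩ := hP.reduce h1 h2 (fun X hX h => by
      have := Set.ncard_le_ncard (Set.compl_subset_compl.2 hX)
      have := hl X h
      omega) hCl IH (by omega) h6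
  by_contra hc
  refine (B.tab k).test_sound hP.sys hsw ?_ (allI_step (allI_zero _) h4)
    (allI_step (allI_zero _) h5) xs x2 x3
  intro ys w _ y2 y3
  simp only [extP, Bool.and_eq_true, List.isPerm_iff] at y2
  exact hc ⟨w, y2.1, y3.perm _ y2.2.symm⟩

lemma Pole.twosided [Fintype V] {R : Set V} {k : ℕ} {β : ℕ → V × Fin 3} (hP : G.Pole R k β)
    (hsw : swOK k sw = true) {l m c : ℕ} {Cl cls : List (List ℕ)} {Bs : List Blk}
    (hB : (Bs.all fun B => B.ok k l m Cl cls) = true) (hc : covOK c Bs cls = true) (hl : G.Lev l)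
    (hCl : ∀ K ∈ Cl, (∀ t ∈ K, t < k) ∧ (K.map fun t => (β t).1).Nodup ∧
      (K.map fun t => (G.σ (β t)).1).Nodup)
    (IH : Small (Fintype.card V)) (hn : m < R.ncard ∧ m < Rᶜ.ncard)
    (hn' : l < R.ncard + 2 ∧ l < Rᶜ.ncard + 2) : G.Cover := by
  classical
  simp only [covOK, Bool.and_eq_true, allB_spec, List.any_eq_true, List.all_eq_true,
    Bool.or_eq_true, Nat.beq_eq, Nat.blt_eq, beq_iff_eq] at hc hB
  obtain ⟨A, hA, hA'⟩ := exists_bits (fun i => decide (hP.sys.Real (cls.getD i []))) c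
  obtain ⟨B, h1, h2⟩ := hc.1.1 A hA
  have hlt : ∀ i, B.Z.testBit i = true → i < c := fun i hi => by
    by_contra h
    rw [Nat.testBit_lt_two_pow ((hc.1.2 B h1).trans_le
      (Nat.pow_le_pow_right (by norm_num) (by omega)))] at hi
    cases hi
  rcases h2 with h2 | h2
  · obtain ⟨i, a1, a2⟩ := hP.compl.block hsw (hB B h1) hl
      (fun K hK => ⟨(hCl K hK).1, (hCl K hK).2.2⟩) IH (by simpa using hn.1) (by simpa using hn'.1)
    refine hP.glue (hc.2 i (hlt i a1)) ?_ a2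
    have := congrArg (fun x => Nat.testBit x i) h2
    simpa [a1, hA' i (hlt i a1)] using this
  · obtain ⟨i, a1, a2⟩ := hP.block hsw (hB B h1) hl
      (fun K hK => ⟨(hCl K hK).1, (hCl K hK).2.1⟩) IH hn.2 hn'.2
    have := congrArg (fun x => Nat.testBit x i) h2
    simp [a1, hA' i (hlt i a1), -List.getD_eq_getElem?_getD, a2] at this

lemma cut_eq_ncard [Fintype V] (X : Set V) :
    G.cut X = {d : V × Fin 3 | d.1 ∈ X ∧ (G.σ d).1 ∉ X}.ncard := sum_ind _

lemma exists_pole [Fintype V] [Nonempty V] (X : Set V) : ∃ β, G.Pole X (G.cut X) β := by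
  classical
  let S := {d : V × Fin 3 | d.1 ∈ X ∧ (G.σ d).1 ∉ X}
  have e : S ≃ Fin (G.cut X) := Finite.equivFinOfCardEq (by
    rw [cut_eq_ncard, Nat.card_coe_set_eq])
  refine ⟨fun t => if h : t < G.cut X then (e.symm ⟨t, h⟩).1 else Classical.arbitrary _,
    fun t ht => ?_, fun t ht => ?_, fun s hs t ht h => ?_, fun d h1 h2 => ?_⟩
  · simp only [ht, dite_true]; exact (e.symm ⟨t, ht⟩).2.1
  · simp only [ht, dite_true]; exact (e.symm ⟨t, ht⟩).2.2
  · simp only [hs, ht, dite_true] at h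
    simpa using e.symm.injective (Subtype.ext h)
  · exact ⟨e ⟨d, h1, h2⟩, (e _).2, by simp⟩

lemma Pole.distinct [Fintype V] {R : Set V} {β : ℕ → V × Fin 3} (hP : G.Pole R 4 β)
    (hl : G.Lev 3) (h0 : ∀ X, G.cut X = 0 → X = ∅ ∨ X = Set.univ)
    (h1 : 2 < R.ncard) (h2 : 2 < Rᶜ.ncard) {s t : ℕ} (hs : s < 4) (ht : t < 4) (hst : s ≠ t) :
    (β s).1 ≠ (β t).1 := by
  classical
  intro e
  have hX : R \ {(β s).1} ⊆ R := Set.sdiff_subset
  have a1 := hP.cut_eq hX
  have a2 : (∑ d : G.Int R, ind (d.1.1 ∈ R \ {(β s).1} ∧ (G.σ d.1).1 ∉ R \ {(β s).1})) ≤ 1 := by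
    rw [sum_ind, Set.ncard_le_one_iff]
    have key : ∀ d : G.Int R, (G.σ d.1).1 ∉ R \ {(β s).1} → (G.σ d.1).1 = (β s).1 ∧
        (G.σ d.1).2 ≠ (β s).2 ∧ (G.σ d.1).2 ≠ (β t).2 := by
      intro d hd
      have b1 : (G.σ d.1).1 = (β s).1 := by simpa [d.2.2] using hd
      refine ⟨b1, fun h => hP.out s hs ?_, fun h => hP.out t ht ?_⟩
      · rw [← Prod.ext b1 h, G.inv]; exact d.2.1
      · rw [← Prod.ext (b1.trans e) h, G.inv]; exact d.2.1
    intro d d' hd hd'
    obtain ⟨b1, b2, b3⟩ := key d hd.2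
    obtain ⟨c1, c2, c3⟩ := key d' hd'.2
    have b4 : (β s).2 ≠ (β t).2 := fun h => hst (hP.inj s hs t ht (Prod.ext e h))
    have : ∀ x y z w : Fin 3, x ≠ y → z ≠ x → z ≠ y → w ≠ x → w ≠ y → z = w := by decide
    have := congrArg G.σ (Prod.ext (b1.trans c1.symm) (this _ _ _ _ b4 b2 b3 c2 c3))
    rw [G.inv, G.inv] at this
    exact Subtype.ext this
  have a3 : (∑ u : Fin 4, ind ((β u).1 ∈ R \ {(β s).1})) ≤ 2 := by
    have b1 : ∀ u : Fin 4, ind ((β u).1 ∈ R \ {(β s).1}) ≤ if u.1 = s ∨ u.1 = t then 0 else 1 := by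
      intro u
      split_ifs with h
      · refine (ind_neg ?_).le
        rcases h with h | h <;> simp [h, e]
      · unfold ind; split_ifs <;> simp
    refine (Finset.sum_le_sum fun u _ => b1 u).trans ?_
    interval_cases s <;> interval_cases t <;> simp_all [Fin.sum_univ_four]
  have a4 := Set.ncard_sdiff_singleton_of_mem (hP.mem s hs)
  have a5 := Set.ncard_le_ncard (Set.compl_subset_compl.2 hX)
  rcases hl (R \ {(β s).1}) (by omega) with h | h | h
  · rcases h0 _ h with h | h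
    · rw [h] at a4; simp at a4; omega
    · rw [h] at a5; simp at a5; omega
  · omega
  · omega

end DG

end Pool.Agent.P.MP_40718a_co
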