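import Pool.Agent.P.MP_40718a_co.Check

/-! Cubic multigraphs as dart involutions, poles, and the Kempe switching lemma. -/

namespace Pool.Agent.P.MP_40718a_co

open Equiv

lemma dihedral {D : Type} [Finite D] (s t : Perm D) (hs : ∀ x, s (s x) = x)
    (ht : ∀ x, t (t x) = x) (P : D → Prop) (hsP : ∀ x, P x → P (s x)) (htP : ∀ x, P x → P (t x))
    (htf : ∀ x, P x → t x ≠ x) :
    ∃ (π : D → D) (r : D → D → Prop), ∀ b, P b → s b = b →
      P (π b) ∧ s (π b) = π b ∧ π b ≠ b ∧ π (π b) = b ∧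
      (∀ x, r b x → r b (s x) ∧ r b (t x)) ∧ r b b ∧
      ∀ b', s b' = b' → r b b' → b' = b ∨ b' = π b := by
  set ρ : Perm D := s * t with hρ
  have hss : s * s = 1 := by ext x; simp [hs]
  have htt : t * t = 1 := by ext x; simp [ht]
  have hinv : ρ⁻¹ = t * s := by
    rw [inv_eq_iff_mul_eq_one, hρ]
    calc s * t * (t * s) = s * (t * t) * s := by group
      _ = 1 := by rw [htt, mul_one, hss]
  have hconj : ∀ j : ℤ, s * ρ ^ j = ρ ^ (-j) * s := by
    intro j
    have h1 : s * ρ * s⁻¹ = ρ⁻¹ := by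
      rw [hinv, hρ, ← mul_assoc, hss, one_mul, inv_eq_of_mul_eq_one_right hss]
    have h2 : s * ρ ^ j * s⁻¹ = ρ ^ (-j) := by
      rw [← conj_zpow, h1, inv_zpow, zpow_neg]
    rw [← h2]; group
  have htρ : t = s * ρ := by rw [hρ, ← mul_assoc, hss, one_mul]
  have hP : ∀ x, P x → ∀ j : ℤ, P ((ρ ^ j) x) := by
    intro x hx j
    induction j using Int.induction_on with
    | zero => simpa using hx
    | succ n ih => rw [add_comm, zpow_add, zpow_one]; exact hsP _ (htP _ ih)
    | pred n ih =>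
      rw [sub_eq_neg_add, zpow_add, zpow_neg_one, hinv]; exact htP _ (hsP _ ih)
  have hsj : ∀ b, s b = b → ∀ j : ℤ, s ((ρ ^ j) b) = (ρ ^ (-j)) b := by
    intro b hb j
    have := congrArg (fun g : Perm D => g b) (hconj j)
    simpa [hb] using this
  have htj : ∀ b, s b = b → ∀ j : ℤ, t ((ρ ^ j) b) = (ρ ^ (-(j + 1))) b := by
    intro b hb j
    rw [← hsj b hb, add_comm, zpow_add, zpow_one]
    conv_lhs => rw [htρ]
    rfl
  have hdvd : ∀ (b : D) (j : ℤ), (ρ ^ j) b = b ↔ (MulAction.period ρ b : ℤ) ∣ j :=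
    fun b j => MulAction.zpow_smul_eq_iff_period_dvd (g := ρ) (a := b) (j := j)
  have hadd : ∀ (b : D) (i j : ℤ), (ρ ^ (i + j)) b = (ρ ^ i) ((ρ ^ j) b) := by
    intro b i j; rw [zpow_add]; rfl
  have key : ∀ b, P b → s b = b → ∃ h : ℤ, (MulAction.period ρ b : ℤ) = 2 * h ∧ 0 < h := by
    intro b hb hsb
    have hpos : 0 < MulAction.period ρ b :=
      MulAction.period_pos_of_orderOf_pos (orderOf_pos ρ) b
    rcases Int.even_or_odd' (MulAction.period ρ b : ℤ) with ⟨h, h1 | h1⟩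
    · exact ⟨h, h1, by omega⟩
    · exfalso
      refine htf _ (hP b hb h) ?_
      rw [htj b hsb]
      have : (ρ ^ (2 * h + 1)) b = b := (hdvd b _).2 (by rw [h1])
      conv_lhs => rw [← this, ← hadd]
      congr 2; ring
  have main : ∀ b, P b → s b = b →
      P ((ρ ^ ((MulAction.period ρ b : ℤ) / 2)) b) ∧
      s ((ρ ^ ((MulAction.period ρ b : ℤ) / 2)) b) = (ρ ^ ((MulAction.period ρ b : ℤ) / 2)) b ∧
      (ρ ^ ((MulAction.period ρ b : ℤ) / 2)) b ≠ b ∧
      ∀ b', s b' = b' → ρ.SameCycle b b' →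
        b' = b ∨ b' = (ρ ^ ((MulAction.period ρ b : ℤ) / 2)) b := by
    intro b hb hsb
    obtain ⟨h, h1, h2⟩ := key b hb hsb
    have e : (MulAction.period ρ b : ℤ) / 2 = h := by omega
    have h0 : ∀ q : ℤ, (ρ ^ (2 * h * q)) b = b := fun q => (hdvd b _).2 (by rw [h1]; simp)
    rw [e]
    refine ⟨hP b hb h, ?_, ?_, ?_⟩
    · rw [hsj b hsb]
      conv_lhs => rw [← h0 1, ← hadd]
      congr 2; ring
    · intro h3
      have := Int.le_of_dvd h2 ((hdvd b h).1 h3)
      omega
    · rintro b' hb' ⟨j, rfl⟩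
      rw [hsj b hsb] at hb'
      have h3 : (ρ ^ (2 * j)) b = b := by
        rw [two_mul, hadd, ← hb', ← hadd]; simp
      have h4 := (hdvd b _).1 h3
      rw [h1, mul_dvd_mul_iff_left (by norm_num)] at h4
      obtain ⟨q, rfl⟩ := h4
      rcases Int.even_or_odd' q with ⟨u, rfl | rfl⟩
      · left; rw [show h * (2 * u) = 2 * h * u by ring, h0]
      · right
        rw [show h * (2 * u + 1) = h + 2 * h * u by ring, hadd, h0]
  refine ⟨fun b => (ρ ^ ((MulAction.period ρ b : ℤ) / 2)) b, ρ.SameCycle, fun b hb hsb => ?_⟩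
  obtain ⟨h1, h2, h3, h4⟩ := main b hb hsb
  refine ⟨h1, h2, h3, ?_, ?_, .refl _ _, h4⟩
  · obtain ⟨-, -, -, g4⟩ := main _ h1 h2
    exact ((g4 b hsb (Perm.SameCycle.symm ⟨_, rfl⟩)).resolve_left h3.symm).symm
  · rintro x ⟨j, rfl⟩
    exact ⟨⟨_, (hsj b hsb j).symm⟩, ⟨_, (htj b hsb j).symm⟩⟩

/-- A cubic multigraph: a fixed point free involution on darts. -/
structure DG (V : Type) where
  /-- the opposite dart -/
  σ : V × Fin 3 → V × Fin 3
  inv : ∀ d, σ (σ d) = d
  ne : ∀ d, σ d ≠ d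

namespace DG
variable {V : Type} (G : DG V)

/-- Six perfect matchings covering each edge twice. -/
def Cover : Prop := ∃ L : List (V → Fin 3), L.length = 6 ∧
  (∀ m ∈ L, ∀ d, m d.1 = d.2 → m (G.σ d).1 = (G.σ d).2) ∧
  ∀ d : V × Fin 3, L.countP (fun m => decide (m d.1 = d.2)) = 2

/-- The side `R` of a cut with its `k` boundary darts listed by `β`. -/
structure Pole (R : Set V) (k : ℕ) (β : ℕ → V × Fin 3) : Prop where
  mem : ∀ t < k, (β t).1 ∈ R
  out : ∀ t < k, (G.σ (β t)).1 ∉ R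
  inj : ∀ s < k, ∀ t < k, β s = β t → s = t
  surj : ∀ d, d.1 ∈ R → (G.σ d).1 ∉ R → ∃ t < k, β t = d

/-- A matching of the side `R` with trace `x`. -/
def Tr (R : Set V) (k : ℕ) (β : ℕ → V × Fin 3) (m : V → Fin 3) (x : ℕ) : Prop :=
  (∀ d, d.1 ∈ R → (G.σ d).1 ∈ R → m d.1 = d.2 → m (G.σ d).1 = (G.σ d).2) ∧
  ∀ t < k, (x.testBit t = true ↔ m (β t).1 = (β t).2)

/-- Each dart of the side is covered twice. -/
def Good (R : Set V) (L : List (V → Fin 3)) : Prop :=
  ∀ d : V × Fin 3, d.1 ∈ R → L.countP (fun m => decide (m d.1 = d.2)) = 2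

variable {G}

lemma Pole.kempe [Finite V] {R : Set V} {k : ℕ} {β : ℕ → V × Fin 3} (hP : G.Pole R k β)
    (A B : V → Fin 3) (a b : ℕ) (hA : G.Tr R k β A a) (hB : G.Tr R k β B b) :
    ∃ π ∈ genm k (bitsOf k (a ^^^ b)), ∀ n, ∃ A' B',
      G.Tr R k β A' (a ^^^ sub π n) ∧ G.Tr R k β B' (b ^^^ sub π n) ∧
        ∀ L, Good R (A :: B :: L) → Good R (A' :: B' :: L) := by
  classical
  let sf : V × Fin 3 → V × Fin 3 := fun d => if d.1 ∈ R ∧ (G.σ d).1 ∈ R then G.σ d else d
  have hsf : Function.Involutive sf := by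
    intro d
    by_cases h : d.1 ∈ R ∧ (G.σ d).1 ∈ R
    · simp [sf, h, G.inv]
    · simp [sf, h]
  let tf : V × Fin 3 → V × Fin 3 := fun d => (d.1, swap (A d.1) (B d.1) d.2)
  have htf : Function.Involutive tf := by intro d; simp [tf]
  let P : V × Fin 3 → Prop := fun d => d.1 ∈ R ∧ ¬ (A d.1 = d.2 ↔ B d.1 = d.2)
  have hiff : ∀ {M : V → Fin 3} {x : ℕ}, G.Tr R k β M x → ∀ d, d.1 ∈ R → (G.σ d).1 ∈ R →
      (M d.1 = d.2 ↔ M (G.σ d).1 = (G.σ d).2) := by
    intro M x hM d h1 h2
    refine ⟨hM.1 d h1 h2, fun h => ?_⟩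
    have := hM.1 (G.σ d) h2 (by rwa [G.inv]) h
    rwa [G.inv] at this
  have hsP : ∀ d, P d → P (sf d) := by
    intro d hd
    by_cases h : d.1 ∈ R ∧ (G.σ d).1 ∈ R
    · simp only [sf, h, and_self, if_true]
      exact ⟨h.2, by rw [← hiff hA d h.1 h.2, ← hiff hB d h.1 h.2]; exact hd.2⟩
    · simp only [sf, h, if_false]; exact hd
  have hsw : ∀ x y z : Fin 3, ¬ (x = z ↔ y = z) →
      ¬ (x = swap x y z ↔ y = swap x y z) ∧ swap x y z ≠ z ∧ (z = x ∨ swap x y z = x) := by
    decide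
  obtain ⟨π, r, hπ⟩ := dihedral hsf.toPerm htf.toPerm hsf htf P hsP
    (fun d hd => ⟨hd.1, (hsw _ _ _ hd.2).1⟩)
    (fun d hd h => (hsw _ _ _ hd.2).2.1 (congrArg Prod.snd h))
  simp only [Function.Involutive.coe_toPerm] at hπ
  have hfix : ∀ t < k, sf (β t) = β t := fun t ht => by simp [sf, hP.out t ht]
  have hbit : ∀ t < k, ((a ^^^ b).testBit t = true ↔ P (β t)) := by
    intro t ht
    simp only [P, hP.mem t ht, true_and, ← hA.2 t ht, ← hB.2 t ht, Nat.testBit_xor]
    cases a.testBit t <;> cases b.testBit t <;> simp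
  have hex : ∀ t, ∃ t', t < k → P (β t) → t' < k ∧ β t' = π (β t) := by
    intro t
    by_cases ht : t < k ∧ P (β t)
    · obtain ⟨h1, h2, -⟩ := hπ _ ht.2 (hfix t ht.1)
      obtain ⟨t', h3, h4⟩ := hP.surj (π (β t)) h1.1 (fun h => G.ne _ (by simpa [sf, h1.1, h] using h2))
      exact ⟨t', fun _ _ => ⟨h3, h4⟩⟩
    · exact ⟨0, fun h1 h2 => absurd ⟨h1, h2⟩ ht⟩
  choose p hp using hex
  obtain ⟨m, hm, hm'⟩ := genm_complete p k (bitsOf k (a ^^^ b)) (length_bitsOf _ _)
    (nodup_bitsOf _ _) (by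
      intro t ht
      rw [mem_bitsOf] at ht
      have hPt := (hbit t ht.1).1 ht.2
      obtain ⟨h1, h2, h3, h4, -⟩ := hπ _ hPt (hfix t ht.1)
      obtain ⟨g1, g2⟩ := hp t ht.1 hPt
      refine ⟨mem_bitsOf.2 ⟨g1, (hbit _ g1).2 (g2 ▸ h1)⟩, fun h => h3 (by rw [← g2, h]), ?_⟩
      obtain ⟨g3, g4⟩ := hp _ g1 (g2 ▸ h1)
      exact hP.inj _ g3 _ ht.1 (by rw [g4, g2, h4]))
  refine ⟨m, hm, fun n => ?_⟩
  let W : V → Prop := fun v => ∃ t, (sub m n).testBit t = true ∧ r (β t) (v, A v)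
  have hU : ∀ t, (sub m n).testBit t = true → t < k ∧ P (β t) := fun t ht =>
    have h := mem_bitsOf.1 (hm' n t ht).1
    ⟨h.1, (hbit t h.1).1 h.2⟩
  have hW : ∀ d, P d → (W d.1 ↔ ∃ t, (sub m n).testBit t = true ∧ r (β t) d) := by
    intro d hd
    refine exists_congr fun t => and_congr_right fun ht => ?_
    obtain ⟨-, -, -, -, h5, -⟩ := hπ _ (hU t ht).2 (hfix t (hU t ht).1)
    rcases (hsw _ _ _ hd.2).2.2 with h | h
    · rw [← h]
    · have e : tf d = (d.1, A d.1) := by simp [tf, h]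
      rw [← e]
      exact ⟨fun h => by simpa [htf d] using (h5 _ h).2, fun h => (h5 _ h).2⟩
  have hWs : ∀ d, P d → (G.σ d).1 ∈ R → (W d.1 ↔ W (G.σ d).1) := by
    intro d hd h2
    have e : sf d = G.σ d := by simp [sf, hd.1, h2]
    rw [hW d hd, hW _ (e ▸ hsP d hd)]
    refine exists_congr fun t => and_congr_right fun ht => ?_
    obtain ⟨-, -, -, -, h5, -⟩ := hπ _ (hU t ht).2 (hfix t (hU t ht).1)
    rw [← e]
    exact ⟨fun h => (h5 _ h).1, fun h => by simpa [hsf d] using (h5 _ h).1⟩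
  have hWb : ∀ t < k, P (β t) → (W (β t).1 ↔ (sub m n).testBit t = true) := by
    intro t ht hPt
    rw [hW _ hPt]
    constructor
    · rintro ⟨u, hu, hr⟩
      obtain ⟨-, -, -, -, -, -, h7⟩ := hπ _ (hU u hu).2 (hfix u (hU u hu).1)
      rcases h7 _ (hfix t ht) hr with h | h
      · rwa [hP.inj _ ht _ (hU u hu).1 h]
      · obtain ⟨g1, g2⟩ := hp u (hU u hu).1 (hU u hu).2
        rw [hP.inj _ ht _ g1 (h.trans g2.symm)]
        exact (hm' n u hu).2
    · intro h
      exact ⟨t, h, (hπ _ hPt (hfix t ht)).2.2.2.2.2.1⟩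
  have hT : ∀ (A' B' : V → Fin 3) (a' b' : ℕ), G.Tr R k β A' a' → G.Tr R k β B' b' →
      (∀ d : V × Fin 3, d.1 ∈ R → (P d ↔ ¬ (A' d.1 = d.2 ↔ B' d.1 = d.2))) →
      G.Tr R k β (fun v => if W v then B' v else A' v) (a' ^^^ sub m n) := by
    intro A' B' a' b' hA' hB' hPP
    constructor
    · intro d h1 h2 h3
      have e1 := hiff hA' d h1 h2
      have e2 := hiff hB' d h1 h2
      by_cases hd : P d
      · have := hWs d hd h2
        by_cases hw : W d.1
        · simp only [hw, if_true] at h3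
          simp only [this.1 hw, if_true]
          exact e2.1 h3
        · simp only [hw, if_false] at h3
          simp only [mt this.2 hw, if_false]
          exact e1.1 h3
      · rw [hPP d h1, not_not] at hd
        have : A' d.1 = d.2 := by
          by_cases hw : W d.1
          · simp only [hw, if_true] at h3; exact hd.2 h3
          · simpa only [hw, if_false] using h3
        dsimp only
        split_ifs
        · exact e2.1 (hd.1 this)
        · exact e1.1 this
    · intro t ht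
      have e1 := hA'.2 t ht
      have e2 := hB'.2 t ht
      have e3 := hPP _ (hP.mem t ht)
      rw [← e1, ← e2] at e3
      by_cases hd : P (β t)
      · have e4 := hWb t ht hd
        have e5 := e3.1 hd
        by_cases hw : W (β t).1
        · simp only [hw, if_true, ← e2, Nat.testBit_xor, e4.1 hw]
          revert e5
          cases a'.testBit t <;> cases b'.testBit t <;> simp
        · have : (sub m n).testBit t = false := by simpa using mt e4.2 hw
          simp only [hw, if_false, ← e1, Nat.testBit_xor, this, Bool.xor_false]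
      · have : (sub m n).testBit t = false := by simpa using fun h => hd (hU t h).2
        rw [e3, not_not] at hd
        simp only [Nat.testBit_xor, this, Bool.xor_false]
        split_ifs
        · rw [← e2]; exact hd
        · exact e1
  refine ⟨fun v => if W v then B v else A v, fun v => if W v then A v else B v,
    hT A B a b hA hB (fun d hd => by simp [P, hd]),
    hT B A b a hB hA (fun d hd => by simp only [P, hd, true_and]; tauto), ?_⟩
  intro L hL d hd
  rw [← hL d hd]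
  simp only [List.countP_cons]
  by_cases hw : W d.1
  · simp only [hw, if_true]; omega
  · simp only [hw, if_false]

/-- The system of a pole. -/
def Pole.sys [Finite V] {R : Set V} {k : ℕ} {β : ℕ → V × Fin 3} (hP : G.Pole R k β) : Sys k where
  M := V → Fin 3
  Tr := G.Tr R k β
  Good := Good R
  perm := fun h hL d hd => by rw [← h.countP_eq]; exact hL d hd
  kempe := hP.kempe

lemma Pole.compl {R : Set V} {k : ℕ} {β : ℕ → V × Fin 3} (hP : G.Pole R k β) :
    G.Pole Rᶜ k (fun t => G.σ (β t)) where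
  mem := hP.out
  out := fun t ht => by simpa [G.inv] using hP.mem t ht
  inj := fun s hs t ht h => hP.inj s hs t ht (by simpa [G.inv] using congrArg G.σ h)
  surj := fun d h1 h2 => by
    obtain ⟨t, ht, h⟩ := hP.surj (G.σ d) (by simpa using h2) (by simpa [G.inv] using h1)
    exact ⟨t, ht, by rw [h, G.inv]⟩

lemma Pole.glue [Finite V] {R : Set V} {k : ℕ} {β : ℕ → V × Fin 3} (hP : G.Pole R k β)
    {xs : List ℕ} (hl : xs.length = 6) (h1 : hP.sys.Real xs) (h2 : hP.compl.sys.Real xs) :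
    G.Cover := by
  classical
  obtain ⟨L1, a1, b1⟩ := h1
  obtain ⟨L2, a2, b2⟩ := h2
  have key : ∀ (xs : List ℕ) (L1 L2 : List (V → Fin 3)), List.Forall₂ (G.Tr R k β) L1 xs →
      List.Forall₂ (G.Tr Rᶜ k fun t => G.σ (β t)) L2 xs → ∃ L : List (V → Fin 3),
      L.length = xs.length ∧ (∀ m ∈ L, ∀ d, m d.1 = d.2 → m (G.σ d).1 = (G.σ d).2) ∧
      ∀ d : V × Fin 3, L.countP (fun m => decide (m d.1 = d.2)) =
        if d.1 ∈ R then L1.countP (fun m => decide (m d.1 = d.2))
        else L2.countP (fun m => decide (m d.1 = d.2)) := by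
    intro xs
    induction xs with
    | nil =>
      intro L1 L2 h1 h2
      cases h1; cases h2
      exact ⟨[], rfl, by simp, by simp⟩
    | cons x xs ih =>
      intro L1 L2 h1 h2
      cases h1 with
      | @cons A _ L1 _ hA h1 =>
      cases h2 with
      | @cons B _ L2 _ hB h2 =>
      obtain ⟨L, e1, e2, e3⟩ := ih L1 L2 h1 h2
      refine ⟨(fun v => if v ∈ R then A v else B v) :: L, by simp [e1], ?_, ?_⟩
      · intro m hm
        rcases List.mem_cons.1 hm with rfl | hm
        · intro d hd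
          by_cases c1 : d.1 ∈ R <;> by_cases c2 : (G.σ d).1 ∈ R <;>
            simp only [c1, c2, if_true, if_false] at hd ⊢
          · exact hA.1 d c1 c2 hd
          · obtain ⟨t, ht, rfl⟩ := hP.surj d c1 c2
            exact (hB.2 t ht).1 ((hA.2 t ht).2 hd)
          · obtain ⟨t, ht, h⟩ := hP.compl.surj d c1 (by simpa using c2)
            subst h
            simp only [G.inv]
            exact (hA.2 t ht).1 ((hB.2 t ht).2 hd)
          · exact hB.1 d c1 c2 hd
        · exact e2 m hm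
      · intro d
        simp only [List.countP_cons, e3 d]
        by_cases c1 : d.1 ∈ R <;> simp only [c1, if_true, if_false]
  obtain ⟨L, e1, e2, e3⟩ := key xs L1 L2 a1 a2
  refine ⟨L, e1.trans hl, e2, fun d => ?_⟩
  rw [e3]
  split_ifs with h
  · exact b1 d h
  · exact b2 d h

end DG

end Pool.Agent.P.MP_40718a_co
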