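import Pool.Agent.P.MP_40718a_co.Cuts

/-! Embedded configurations, splits of the outside, and safety of reducers. -/

namespace Pool.Agent.P.MP_40718a_co

/-- Is the point inside the set coded by `T` (pendant edges) and `Y` (vertices). -/
def ins2 (k T Y p : ℕ) : Bool := bif Nat.blt p k then T.testBit p else Y.testBit ((p - k) / 3)

/-- A split with `a` inner edges and trace `T` is impossible. -/
noncomputable def bad1 (k n : ℕ) (ι : ℕ → ℕ) (l : ℕ) (Cl : List (List ℕ)) (wY : ℕ → ℕ → ℕ)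
    (a T : ℕ) : Bool :=
  force (wY a T) fun Y =>
  force (a + cntB (fun p => ins2 k T Y p && !ins2 k T Y (ι p)) (k + 3 * n)) fun s =>
  force (cntB Y.testBit n) fun y =>
    Nat.blt 0 s && Nat.ble s l && Nat.blt (s + y) (n + 2) &&
      Cl.any fun K => K.all T.testBit && Nat.blt s (K.length + y + 2)

/-- Every possible bridge of the reduced graph passes `ok`. -/
noncomputable def safe2 (k n : ℕ) (ι : ℕ → ℕ) (ok : ℕ → ℕ → Bool) : Bool :=
  allB (fun Z => force (cntB (fun p => inside k Z p && !inside k Z (ι p)) (k + 3 * n)) fun c =>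
    Nat.ble 2 c || ok (1 - c) (Z % 2 ^ k)) (2 ^ (k + n))

/-- Each listed edge is an edge of the table. -/
noncomputable def edgOK (k n : ℕ) (ι : ℕ → ℕ) (E : List (ℕ × ℕ)) : Bool :=
  E.all fun e => !allB (fun i => !(Nat.ble k (ι (k + 3 * e.1 + i)) &&
    Nat.beq ((ι (k + 3 * e.1 + i) - k) / 3) e.2)) 3 && Nat.blt e.1 n

/-- The map is an automorphism of the table. -/
noncomputable def autOK (k n : ℕ) (ι ψ ψ' : ℕ → ℕ) : Bool :=
  allB (fun p => Nat.blt (ψ p) (k + 3 * n) && Nat.blt (ψ' p) (k + 3 * n) &&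
    Nat.beq (ψ (ψ' p)) p && Nat.beq (ψ' (ψ p)) p && Nat.beq (ι (ψ p)) (ψ (ι p)) &&
    (Nat.blt p k == Nat.blt (ψ p) k) &&
    allB (fun p' => Nat.blt p k || Nat.blt p' k ||
      (Nat.beq ((ψ p - k) / 3) ((ψ p' - k) / 3) == Nat.beq ((p - k) / 3) ((p' - k) / 3)))
      (k + 3 * n)) (k + 3 * n)

namespace DG
variable {V : Type} (G : DG V)

open Classical in
/-- The number of inner edges of `R` leaving `X`. -/
noncomputable def inner [Fintype V] (R X : Set V) : ℕ :=
  ∑ d : G.Int R, ind (d.1.1 ∈ X ∧ (G.σ d.1).1 ∉ X)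

/-- A subset of the side with `a` inner edges leaving and trace `T`. -/
def Split [Fintype V] (R : Set V) (k : ℕ) (β : ℕ → V × Fin 3) (a T : ℕ) : Prop :=
  ∃ X ⊆ R, G.inner R X = a ∧ ∀ t < k, (T.testBit t = true ↔ (β t).1 ∈ X)

/-- The table is embedded with outside `R`. -/
structure Emb (k n : ℕ) (ι : ℕ → ℕ) (R : Set V) (q : ℕ → V × Fin 3) : Prop where
  tbl : ∀ p < k + 3 * n, ι p < k + 3 * n ∧ ι (ι p) = p ∧ ι p ≠ p
  out : ∀ t < k, k ≤ ι t
  comm : ∀ p < k + 3 * n, G.σ (q p) = q (ι p)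
  inj : ∀ p < k + 3 * n, ∀ p' < k + 3 * n, q p = q p' → p = p'
  bd : ∀ t < k, (q t).1 ∈ R
  ins : ∀ p < k + 3 * n, k ≤ p → (q p).1 ∉ R
  vtx : ∀ p < k + 3 * n, k ≤ p → ∀ p' < k + 3 * n, k ≤ p' →
    ((q p).1 = (q p').1 ↔ (p - k) / 3 = (p' - k) / 3)
  surj : ∀ d : V × Fin 3, d.1 ∉ R → ∃ p < k + 3 * n, k ≤ p ∧ q p = d

variable {G}

lemma Split.compl [Fintype V] {R : Set V} {k : ℕ} {β : ℕ → V × Fin 3} (hP : G.Pole R k β)
    {a T : ℕ} (h : G.Split R k β a T) : G.Split R k β a (T ^^^ (2 ^ k - 1)) := by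
  classical
  obtain ⟨X, -, h2, h3⟩ := h
  refine ⟨R \ X, Set.sdiff_subset, ?_, fun t ht => ?_⟩
  · rw [← h2]
    unfold inner
    let e : G.Int R → G.Int R := fun d => ⟨G.σ d.1, d.2.2, by rw [G.inv]; exact d.2.1⟩
    have he : Function.Involutive e := fun d => by simp [e, G.inv]
    refine (Equiv.sum_comp he.toPerm _).symm.trans (Finset.sum_congr rfl fun d _ => ind_congr ?_)
    change (G.σ d.1).1 ∈ R \ X ∧ (G.σ (G.σ d.1)).1 ∉ R \ X ↔ _
    simp [G.inv, d.2.1, d.2.2, and_comm]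
  · simp [Nat.testBit_xor, ht, hP.mem t ht, ← h3 t ht]

lemma Split.uncross [Fintype V] {R : Set V} {k : ℕ} {β : ℕ → V × Fin 3} {a T b S : ℕ}
    (h : G.Split R k β a T) (h' : G.Split R k β b S) :
    ∃ x y, x + y ≤ a + b ∧ G.Split R k β x (T &&& S) ∧ G.Split R k β y (T ||| S) := by
  classical
  obtain ⟨X, h1, rfl, h3⟩ := h
  obtain ⟨Y, h4, rfl, h6⟩ := h'
  refine ⟨_, _, ?_, ⟨X ∩ Y, fun v hv => h1 hv.1, rfl, fun t ht => ?_⟩,
    ⟨X ∪ Y, Set.union_subset h1 h4, rfl, fun t ht => ?_⟩⟩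
  · unfold inner
    rw [← Finset.sum_add_distrib, ← Finset.sum_add_distrib]
    refine Finset.sum_le_sum fun d _ => ?_
    by_cases a1 : d.1.1 ∈ X <;> by_cases a2 : d.1.1 ∈ Y <;> by_cases a3 : (G.σ d.1).1 ∈ X <;>
      by_cases a4 : (G.σ d.1).1 ∈ Y <;> simp [ind, a1, a2, a3, a4]
  · simp [← h3 t ht, ← h6 t ht]
  · simp [← h3 t ht, ← h6 t ht]

lemma Pole.bridge [Fintype V] {R : Set V} [Fintype R] {k : ℕ} {β : ℕ → V × Fin 3}
    (hP : G.Pole R k β) {n : ℕ} {ι : ℕ → ℕ} (hι : tblOK (k + 3 * n) ι = true)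
    {ok : ℕ → ℕ → Bool} (hs : safe2 k n ι ok = true) (hb : ¬ (hP.glued hι).Bridgeless) :
    ∃ a T, ok a T = true ∧ G.Split R k β a T := by
  classical
  obtain ⟨Y, hY⟩ := not_forall.1 hb
  rw [not_not] at hY
  obtain ⟨Z, hZ0, hZ'⟩ := exists_bits (fun i => if h : i < k then
    decide (Sum.inl ⟨(β i).1, hP.mem i h⟩ ∈ Y) else if h : i - k < n then
    decide (Sum.inr ⟨i - k, h⟩ ∈ Y) else false) (k + n)
  have hZ : ∀ p : Fin (k + 3 * n), inside k Z p = true ↔ (hP.psi n (.inr p)).1 ∈ Y := by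
    intro p
    by_cases hp : p.1 < k
    · have e : Nat.blt p k = true := by simpa using hp
      simp [inside, e, hZ' p (by omega), Pole.psi, hp]
    · have e : Nat.blt p k = false := by
        rw [← Bool.not_eq_true, Nat.blt_eq]; exact hp
      have a1 : (p - k) / 3 < n := by omega
      simp [inside, e, hZ' (k + (p - k) / 3) (by omega), Pole.psi, hp, a1]
  let X : Set V := {v | ∃ h : v ∈ R, Sum.inl ⟨v, h⟩ ∈ Y}
  have hb : ∀ t < k, (Z.testBit t = true ↔ (β t).1 ∈ X) := by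
    intro t ht
    have := hZ ⟨t, by omega⟩
    have e : Nat.blt t k = true := by simpa using ht
    simp only [inside, e, cond_true, Pole.psi, ht, dite_true] at this
    simp [this, X, hP.mem t ht]
  have e3 : (hP.glued hι).cut Y = G.inner R X +
      cntB (fun p => inside k Z p && !inside k Z (ι p)) (k + 3 * n) := by
    unfold cut inner
    rw [← Equiv.sum_comp (Equiv.ofBijective _ (hP.psi_bij n)), Fintype.sum_sum_type, cntB_eq']
    simp only [Equiv.ofBijective_apply, hP.glued_psi]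
    congr 1
    · refine Finset.sum_congr rfl fun d _ => ind_congr ?_
      simp [Pole.psi, tau, X, d.2.1, d.2.2]
    · refine Finset.sum_congr rfl fun p _ => ind_congr ?_
      have := hZ ⟨ι p, (tblOK_spec hι p p.2).1⟩
      simp only [tau, ← hZ p, ← this]
      simp
  have := allB_spec.1 hs Z hZ0
  rw [force_eq, Bool.or_eq_true, Nat.ble_eq] at this
  refine ⟨_, _, this.resolve_left (by omega), X, fun v hv => hv.1, by omega, fun t ht => ?_⟩
  rw [← hb t ht, Nat.testBit_mod_two_pow]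
  simp [ht]

namespace Emb
variable {k n : ℕ} {ι : ℕ → ℕ} {R : Set V} {q : ℕ → V × Fin 3} (h : G.Emb k n ι R q)
include h

lemma pole : G.Pole R k q where
  mem := h.bd
  out := fun t ht => by
    rw [h.comm t (by omega)]; exact h.ins _ (h.tbl t (by omega)).1 (h.out t ht)
  inj := fun s hs t ht => h.inj s (by omega) t (by omega)
  surj := fun d a1 a2 => by
    obtain ⟨p, hp, b1, b2⟩ := h.surj _ a2
    have b3 : q (ι p) = d := by rw [← h.comm p hp, b2, G.inv]
    refine ⟨ι p, ?_, b3⟩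
    by_contra b4
    exact h.ins _ (h.tbl p hp).1 (by omega) (b3 ▸ a1)

lemma aut {ψ ψ' : ℕ → ℕ} (ha : autOK k n ι ψ ψ' = true) : G.Emb k n ι R (q ∘ ψ) := by
  simp only [autOK, allB_spec, Bool.and_eq_true, Nat.blt_eq, Nat.beq_eq, beq_iff_eq,
    Bool.or_eq_true] at ha
  have a1 : ∀ p < k + 3 * n, (p < k ↔ ψ p < k) := fun p hp => by
    rw [← Nat.blt_eq, ← Nat.blt_eq, (ha p hp).1.2]
  refine ⟨h.tbl, h.out, fun p hp => ?_, fun p hp p' hp' e => ?_, fun t ht => ?_,
    fun p hp b => ?_, fun p hp b p' hp' b' => ?_, fun d hd => ?_⟩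
  · simp only [Function.comp]
    rw [h.comm _ (ha p hp).1.1.1.1.1.1, (ha p hp).1.1.2]
  · have := h.inj _ (ha p hp).1.1.1.1.1.1 _ (ha p' hp').1.1.1.1.1.1 e
    rw [← (ha p hp).1.1.1.2, this, (ha p' hp').1.1.1.2]
  · exact h.bd _ ((a1 t (by omega)).1 ht)
  · exact h.ins _ (ha p hp).1.1.1.1.1.1 (by have := a1 p hp; omega)
  · simp only [Function.comp]
    rw [h.vtx _ (ha p hp).1.1.1.1.1.1 (by have := a1 p hp; omega) _ (ha p' hp').1.1.1.1.1.1
      (by have := a1 p' hp'; omega), ← Nat.beq_eq, ← Nat.beq_eq,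
      ((ha p hp).2 p' hp').resolve_left (by omega)]
  · obtain ⟨p, hp, b1, b2⟩ := h.surj d hd
    have c1 := (ha p hp).1.1.1.1.1.2
    have c2 := (ha p hp).1.1.1.1.2
    refine ⟨ψ' p, c1, ?_, by simp only [Function.comp, c2, b2]⟩
    have := a1 _ c1
    omega

lemma finj : ∀ u < n, ∀ v < n, (q (k + 3 * u)).1 = (q (k + 3 * v)).1 → u = v := by
  intro u hu v hv e
  have := (h.vtx _ (by omega) (by omega) _ (by omega) (by omega)).1 e
  omega

lemma fst_eq (p : ℕ) (hp : p < k + 3 * n) (hk : k ≤ p) :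
    (q p).1 = (q (k + 3 * ((p - k) / 3))).1 :=
  (h.vtx _ hp hk _ (by omega) (by omega)).2 (by omega)

lemma compl_eq : Rᶜ = (fun u => (q (k + 3 * u)).1) '' (Finset.range n) := by
  ext w
  constructor
  · intro hw
    obtain ⟨p, hp, b1, b2⟩ := h.surj (w, 0) hw
    exact ⟨(p - k) / 3, by simp; omega, by
      simp only; rw [← h.fst_eq p hp b1, b2]⟩
  · rintro ⟨u, hu, rfl⟩
    have : u < n := by simpa using hu
    exact h.ins _ (by omega) (by omega)

lemma card : Rᶜ.ncard = n := by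
  rw [h.compl_eq, Set.InjOn.ncard_image (fun u hu v hv => h.finj u (by simpa using hu) v
    (by simpa using hv))]
  simp

lemma cliq {E : List (ℕ × ℕ)} {F : List (ℕ × List (ℕ × ℕ))} (hF : ∀ H ∈ F, ¬ G.Cont H)
    (hE : edgOK k n ι E = true) (hE' : (E.all fun e => Nat.blt e.2 n) = true)
    {W' Cl : List (List ℕ)} (h3 : cliqOK k n ι E F W' Cl = true) :
    ∀ K ∈ Cl, (∀ t ∈ K, t < k) ∧ (K.map fun t => (q t).1).Nodup := by
  classical
  intro K hK
  have := List.all_eq_true.1 h3 K hK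
  rw [Bool.and_eq_true, List.all_eq_true] at this
  have a1 : ∀ t ∈ K, t < k := fun t ht => Nat.blt_eq.mp (this.1 t ht)
  refine ⟨a1, List.pairwise_map.2 ((pairB_spec this.2).imp_of_mem ?_)⟩
  intro s t hs ht hh e
  have key : ∀ t < k, G.Adj (q (k + 3 * ((ι t - k) / 3))).1 (q t).1 := by
    intro t ht
    have b1 := h.tbl t (by omega)
    rw [← h.fst_eq _ b1.1 (h.out t ht)]
    exact ⟨(q (ι t)).2, by rw [show ((q (ι t)).1, (q (ι t)).2) = q (ι t) from rfl,
      h.comm _ b1.1, b1.2.1]⟩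
  refine not_cont hF hh ⟨fun u => if u < n then (q (k + 3 * u)).1 else (q s).1, ?_, ?_⟩
  · intro u hu v hv a2
    have a3 := h.bd s (a1 s hs)
    by_cases b1 : u < n <;> by_cases b2 : v < n <;> simp only [b1, b2, if_true, if_false] at a2
    · exact h.finj u b1 v b2 a2
    · exact absurd (a2 ▸ a3) (h.ins _ (by omega) (by omega))
    · exact absurd (a2 ▸ a3) (h.ins _ (by omega) (by omega))
    · simp only at hu hv; omega
  · intro e' he
    have b1 := (h.tbl s (by have := a1 s hs; omega)).1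
    have b2 := (h.tbl t (by have := a1 t ht; omega)).1
    have b3 := h.out s (a1 s hs)
    have b4 := h.out t (a1 t ht)
    have := a1 s hs
    simp only [List.mem_cons] at he
    rcases he with rfl | rfl | he
    · simp only [show (ι s - k) / 3 < n by omega, if_true, lt_irrefl, if_false]
      exact key s this
    · simp only [show (ι t - k) / 3 < n by omega, if_true, lt_irrefl, if_false]
      exact e ▸ key t (a1 t ht)
    · have c1 := List.all_eq_true.1 hE e' he
      have c2 := Nat.blt_eq.mp (List.all_eq_true.1 hE' e' he)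
      simp only [Bool.and_eq_true, Nat.blt_eq, Bool.not_eq_true', ← Bool.not_eq_true, allB_spec,
        not_forall, not_not, Nat.ble_eq, Nat.beq_eq] at c1
      obtain ⟨⟨i, hi, c3, c4⟩, c5⟩ := c1
      simp only [c5, c2, if_true]
      have d1 : k + 3 * e'.1 + i < k + 3 * n := by omega
      rw [← c4, ← h.fst_eq _ (h.tbl _ d1).1 c3, ← h.comm _ d1,
        show (q (k + 3 * e'.1)).1 = (q (k + 3 * e'.1 + i)).1 from
          (h.vtx _ (by omega) (by omega) _ d1 (by omega)).2 (by omega)]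
      exact ⟨_, rfl⟩

lemma not_bad [Fintype V] {l : ℕ} (hl : G.Lev l) {Cl : List (List ℕ)}
    (hCl : ∀ K ∈ Cl, (∀ t ∈ K, t < k) ∧ (K.map fun t => (q t).1).Nodup) {wY : ℕ → ℕ → ℕ}
    {a T : ℕ} (hs : G.Split R k q a T) : bad1 k n ι l Cl wY a T = false := by
  classical
  obtain ⟨X, hXR, rfl, hb⟩ := hs
  rw [← Bool.not_eq_true]
  intro hne
  simp only [bad1, force_eq, Bool.and_eq_true, Nat.blt_eq, Nat.ble_eq, List.any_eq_true,
    List.all_eq_true] at hne
  generalize wY (G.inner R X) T = Y at hne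
  obtain ⟨⟨⟨h1, h2⟩, h3⟩, K, hK, h4, h5⟩ := hne
  let f : Fin n → V := fun u => (q (k + 3 * u)).1
  have hf : Function.Injective f := fun u v e => Fin.ext (h.finj u u.2 v v.2 e)
  have hfR : ∀ u, f u ∉ R := fun u => h.ins _ (by omega) (by omega)
  let A : Set V := f '' {u | Y.testBit u = true}
  have hA : A.ncard = cntB Y.testBit n := by
    rw [Set.ncard_image_of_injective _ hf, cntB_eq', sum_ind]
  have hA' : (f '' {u | Y.testBit u = true}ᶜ).ncard + cntB Y.testBit n = n := by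
    rw [Set.ncard_image_of_injective _ hf, cntB_eq', sum_ind, add_comm,
      Set.ncard_add_ncard_compl]
    simp
  have hR : ∀ v ∈ R, v ∈ X ∪ A ↔ v ∈ X := by
    intro v hv
    refine ⟨fun a => a.resolve_right ?_, Or.inl⟩
    rintro ⟨u, -, rfl⟩
    exact hfR u hv
  have hin : ∀ p < k + 3 * n, (ins2 k T Y p = true ↔ (q p).1 ∈ X ∪ A) := by
    intro p hp
    by_cases hk : p < k
    · rw [hR _ (h.bd p hk), ← hb p hk, ins2, Nat.blt_eq.mpr hk, cond_true]
    · have e : Nat.blt p k = false := by rw [← Bool.not_eq_true, Nat.blt_eq]; exact hk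
      have e' : (q p).1 = f ⟨(p - k) / 3, by omega⟩ := h.fst_eq p hp (by omega)
      rw [ins2, e, cond_false, e', Set.mem_union, hf.mem_set_image]
      exact ⟨Or.inr, fun a => a.resolve_left fun b => hfR _ (hXR b)⟩
  have e1 : G.cut (X ∪ A) = G.inner R X +
      cntB (fun p => ins2 k T Y p && !ins2 k T Y (ι p)) (k + 3 * n) := by
    have hbij : Function.Bijective (Sum.elim Subtype.val fun p : Fin (k + 3 * n) => q p :
        G.Int R ⊕ Fin (k + 3 * n) → V × Fin 3) := by
      have key : ∀ (d : G.Int R) (p : Fin (k + 3 * n)), d.1 ≠ q p := by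
        intro d p e
        by_cases hk : p.1 < k
        · exact h.pole.out p hk (e ▸ d.2.2)
        · exact h.ins p p.2 (by omega) (e ▸ d.2.1)
      constructor
      · rintro (d | s) (e | t) a
        · exact congrArg _ (Subtype.ext a)
        · exact absurd a (key _ _)
        · exact absurd a.symm (key _ _)
        · exact congrArg _ (Fin.ext (h.inj _ s.2 _ t.2 a))
      · intro d
        by_cases a1 : d.1 ∈ R
        · by_cases a2 : (G.σ d).1 ∈ R
          · exact ⟨.inl ⟨d, a1, a2⟩, rfl⟩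
          · obtain ⟨t, ht, e⟩ := h.pole.surj d a1 a2
            exact ⟨.inr ⟨t, by omega⟩, e⟩
        · obtain ⟨p, hp, -, e⟩ := h.surj d a1
          exact ⟨.inr ⟨p, hp⟩, e⟩
    unfold cut inner
    rw [← Equiv.sum_comp (Equiv.ofBijective _ hbij), Fintype.sum_sum_type, cntB_eq']
    simp only [Equiv.ofBijective_apply, Sum.elim_inl, Sum.elim_inr]
    congr 1
    · refine Finset.sum_congr rfl fun d _ => ind_congr ?_
      rw [hR _ d.2.1, hR _ d.2.2]
    · refine Finset.sum_congr rfl fun p _ => ind_congr ?_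
      rw [h.comm p p.2, ← hin p p.2, ← hin _ (h.tbl p p.2).1]
      simp
  rw [← e1] at h1 h2 h3 h5
  obtain ⟨a1, a2⟩ := hCl K hK
  have a3 : K.length ≤ X.ncard := by
    rw [← List.length_map (fun t => (q t).1), ← List.toFinset_card_of_nodup a2,
      ← Set.ncard_coe_finset]
    refine Set.ncard_le_ncard ?_
    intro v hv
    simp only [List.coe_toFinset, List.mem_map, Set.mem_ofPred_eq] at hv
    obtain ⟨t, ht, rfl⟩ := hv
    exact (hb t (a1 t ht)).1 (h4 t ht)
  have a4 : (X ∪ A).ncard = X.ncard + A.ncard := Set.ncard_union_eq (by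
    rw [Set.disjoint_left]
    rintro v hv ⟨u, -, rfl⟩
    exact hfR u (hXR hv))
  have a5 : (f '' {u | Y.testBit u = true}ᶜ).ncard ≤ (X ∪ A)ᶜ.ncard := by
    refine Set.ncard_le_ncard ?_
    rintro _ ⟨u, hu, rfl⟩ (b | b)
    · exact hfR u (hXR b)
    · exact hu (hf.mem_set_image.1 b)
  have := hl _ h2
  omega

lemma extend [Finite V] {len : ℕ} {cd : ℕ → ℕ}
    (h6 : allB (fun i => codeOK k n ι (cd i)) len = true) {ys : List ℕ} {wit0 : ℕ}
    (y2 : extC k (k + 3 * n) len cd ys wit0 = true) : h.pole.compl.sys.Real ys := by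
  classical
  unfold extC at y2
  generalize [fld wit0 (nat_lit 0), fld wit0 (nat_lit 9), fld wit0 (nat_lit 18),
    fld wit0 (nat_lit 27), fld wit0 (nat_lit 36), fld wit0 (nat_lit 45)] = wit at y2
  simp only [extL, Bool.and_eq_true, List.all_eq_true, Nat.blt_eq, beq_iff_eq] at y2
  obtain ⟨⟨y4, rfl⟩, y5⟩ := y2
  have hex : ∀ i w, ∃ j, i < len → ∀ p < k + 3 * n, k ≤ p → (q p).1 = w →
      (j = (q p).2 ↔ (cd i).testBit p = true) := by
    intro i w
    by_cases hi : i < len ∧ w ∉ R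
    swap
    · exact ⟨0, fun a1 p hp a2 a3 => absurd ⟨a1, a3 ▸ h.ins p hp a2⟩ hi⟩
    obtain ⟨p0, a1, a2, a3⟩ := h.surj (w, 0) hi.2
    have a4 := allB_spec.1 h6 i hi.1
    rw [codeOK, Bool.and_eq_true] at a4
    obtain ⟨i0, b1, b2⟩ := (one3_iff fun j => (cd i).testBit (k + 3 * ((p0 - k) / 3) + j)).1
      (by simpa using allB_spec.1 a4.2 ((p0 - k) / 3) (by omega))
    refine ⟨(q (k + 3 * ((p0 - k) / 3) + i0)).2, fun _ p hp c1 c2 => ?_⟩
    have c3 : (p - k) / 3 = (p0 - k) / 3 :=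
      (h.vtx _ hp c1 _ a1 a2).1 (c2.trans (congrArg Prod.fst a3).symm)
    have c4 : (q (k + 3 * ((p0 - k) / 3) + i0)).1 = (q p).1 :=
      (h.vtx _ (by omega) (by omega) _ hp c1).2 (by omega)
    constructor
    · intro e
      rw [← h.inj _ (by omega) _ hp (Prod.ext c4 e)]
      exact b1
    · intro e
      have := b2 ⟨(p - k) % 3, by omega⟩ (by
        simpa [show k + 3 * ((p0 - k) / 3) + (p - k) % 3 = p by omega] using e)
      rw [← this]
      simp [show k + 3 * ((p0 - k) / 3) + (p - k) % 3 = p by omega]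
  choose m hm using hex
  refine h.pole.compl.real_of (wit.map m) ?_ ?_
  · rw [List.forall₂_map_left_iff, List.forall₂_map_right_iff, List.forall₂_same]
    intro i hi
    have a4 := allB_spec.1 h6 i (y4 i hi)
    rw [codeOK, Bool.and_eq_true, allB_spec] at a4
    constructor
    · intro d a1 a2 a3
      obtain ⟨p, hp, b1, rfl⟩ := h.surj d a1
      rw [h.comm p hp] at a2 ⊢
      have b2 : k ≤ ι p := by
        by_contra b3
        exact a2 (h.bd _ (by omega))
      rw [hm i _ (y4 i hi) _ (h.tbl p hp).1 b2 rfl, ← beq_iff_eq.1 (a4.1 p hp)]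
      exact (hm i _ (y4 i hi) p hp b1 rfl).1 a3
    · intro t ht
      simp only [h.comm t (by omega)]
      rw [hm i _ (y4 i hi) _ (h.tbl t (by omega)).1 (h.out t ht) rfl,
        ← beq_iff_eq.1 (a4.1 t (by omega)), Nat.testBit_mod_two_pow]
      simp [ht]
  · intro d hd
    obtain ⟨p, hp, b1, rfl⟩ := h.surj d hd
    have := twice_spec _ _ _ y5 p hp (by simp)
    simp only [mult, Nat.zero_testBit, Bool.false_eq_true, if_false, zero_add] at this
    rw [← this, List.countP_map, List.countP_map]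
    exact List.countP_congr fun i hi => by
      simp [hm i _ (y4 i hi) p hp b1 rfl]

end Emb

end DG

end Pool.Agent.P.MP_40718a_co
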