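import Pool.Agent.P.MP_40718a_co.Emb

/-! Dual labellings and their transfer to minors. -/

namespace Pool.Agent.P.MP_40718a_co

/-- Even vectors on a table. -/
def EvT (k n : ℕ) (ι : ℕ → ℕ) (X : ℕ → ZMod 2) : Prop :=
  (∀ p < k + 3 * n, X (ι p) = X p) ∧
    ∀ v < n, X (k + 3 * v) + X (k + 3 * v + 1) + X (k + 3 * v + 2) = 0

lemma z2_add {a b : ZMod 2} : a + b = 0 ↔ a = b := by revert a b; decide

lemma z2_self (a : ZMod 2) : a + a = 0 := by revert a; decide

namespace DG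
variable {V : Type} (G : DG V)

/-- The sum at a vertex. -/
def bd (x : V × Fin 3 → ZMod 2) (v : V) : ZMod 2 := x (v, 0) + x (v, 1) + x (v, 2)

/-- Even subgraphs as functions on darts. -/
def Ev (x : V × Fin 3 → ZMod 2) : Prop := (∀ d, x (G.σ d) = x d) ∧ ∀ v, bd x v = 0

/-- Labels on the two sides of the edges whose coboundaries are even and have index at most `N`
among the even subgraphs. -/
def Fam (N : ℕ) : Prop := ∃ (I : Type) (ℓ r : V × Fin 3 → I) (φ : (V × Fin 3 → ZMod 2) → Fin N),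
  (∀ s : I → ZMod 2, G.Ev fun d => s (ℓ d) + s (r d)) ∧
  ∀ x y, G.Ev x → G.Ev y → φ x = φ y → ∃ s : I → ZMod 2, ∀ d, x d + y d = s (ℓ d) + s (r d)

/-- The set is connected. -/
def Conn (S : Set V) : Prop :=
  ∀ Y ⊆ S, (∀ d : V × Fin 3, d.1 ∈ Y → (G.σ d).1 ∈ S → (G.σ d).1 ∈ Y) → Y = ∅ ∨ Y = S

variable {G}

lemma Fam.transfer {W : Type} {H : DG W} {N : ℕ} (h : G.Fam N) (D : Set (V × Fin 3))
    (π : W × Fin 3 → V × Fin 3)
    (h1 : ∀ x, G.Ev x → (∀ d ∈ D, x d = 0) → H.Ev (x ∘ π))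
    (h2 : ∀ y, H.Ev y → ∃ x, G.Ev x ∧ (∀ d ∈ D, x d = 0) ∧ x ∘ π = y) : H.Fam N := by
  classical
  obtain ⟨I, ℓ, r, φ, a1, a2⟩ := h
  let rel : I → I → Prop := fun a b => ∃ d ∈ D, ℓ d = a ∧ r d = b
  choose lift b1 b2 b3 using h2
  refine ⟨Quot rel, fun d => Quot.mk _ (ℓ (π d)), fun d => Quot.mk _ (r (π d)),
    fun y => φ (if hy : H.Ev y then lift y hy else 0), fun s => ?_, fun x y hx hy e => ?_⟩
  · refine h1 _ (a1 (s ∘ Quot.mk _)) fun d hd => ?_
    exact z2_add.2 (congrArg s (Quot.sound ⟨d, hd, rfl, rfl⟩))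
  · simp only [hx, hy, dite_true] at e
    obtain ⟨s, hs⟩ := a2 _ _ (b1 x hx) (b1 y hy) e
    refine ⟨Quot.lift s ?_, fun d => ?_⟩
    · rintro _ _ ⟨d, hd, rfl, rfl⟩
      rw [← z2_add, ← hs, b2 _ _ d hd, b2 _ _ d hd, add_zero]
    · rw [← congrFun (b3 x hx) d, ← congrFun (b3 y hy) d]
      exact hs _

lemma Pole.fam_glued {R : Set V} {k : ℕ} {β : ℕ → V × Fin 3} (hP : G.Pole R k β) {n : ℕ}
    {ι : ℕ → ℕ} (hι : tblOK (k + 3 * n) ι = true) {N : ℕ} (h : G.Fam N) (D : Set (V × Fin 3))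
    (π : ℕ → V × Fin 3) (hD : ∀ d ∈ D, d.1 ∉ R) (hπ : ∀ t < k, π t = β t)
    (hπ' : ∀ p < k + 3 * n, k ≤ p → (π p).1 ∉ R)
    (h1 : ∀ x, G.Ev x → (∀ d ∈ D, x d = 0) → EvT k n ι (x ∘ π))
    (h2 : ∀ X, EvT k n ι X → ∃ y : V × Fin 3 → ZMod 2, (∀ v ∉ R, bd y v = 0) ∧
      (∀ d, d.1 ∉ R → (G.σ d).1 ∉ R → y (G.σ d) = y d) ∧ (∀ t < k, y (G.σ (β t)) = X t) ∧
      (∀ d ∈ D, y d = 0) ∧ ∀ p < k + 3 * n, k ≤ p → y (π p) = X p) :
    (hP.glued hι).Fam N := by
  classical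
  let e := Equiv.ofBijective _ (hP.psi_bij n)
  let π' : (R ⊕ Fin n) × Fin 3 → V × Fin 3 := fun z =>
    Sum.elim Subtype.val (fun p : Fin (k + 3 * n) => π p) (e.symm z)
  have e1 : ∀ z, π' (hP.psi n z) = Sum.elim Subtype.val (fun p : Fin (k + 3 * n) => π p) z := fun z => by
    simp [π', e]
  have e2 : ∀ (u : Fin n) (i : Fin 3), (Sum.inr u, i) =
      hP.psi n (.inr ⟨k + 3 * u + i, by omega⟩) := by
    intro u i
    have : ¬ (k + 3 * u + i < k) := by omega
    simp only [Pole.psi, this, dite_false, Prod.mk.injEq, Sum.inr.injEq]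
    exact ⟨Fin.ext (by simp only; omega), Fin.ext (by simp only; omega)⟩
  have e3 : ∀ (t : ℕ) (ht : t < k), (Sum.inl ⟨(β t).1, hP.mem t ht⟩, (β t).2) =
      hP.psi n (.inr ⟨t, by omega⟩) := fun t ht => by simp [Pole.psi, ht]
  have e4 : ∀ (v : R) (i : Fin 3), π' (.inl v, i) = (v.1, i) := by
    intro v i
    by_cases c : (G.σ (v, i)).1 ∈ R
    · exact e1 (.inl ⟨(v, i), v.2, c⟩)
    · obtain ⟨t, ht, a⟩ := hP.surj (v, i) v.2 c
      have := e1 (.inr ⟨t, by omega⟩)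
      rw [← e3 t ht] at this
      simpa [a, hπ t ht] using this
  refine h.transfer D π' (fun x hx hd => ?_) fun y hy => ?_
  · obtain ⟨a1, a2⟩ := h1 x hx hd
    constructor
    · intro d
      obtain ⟨z, rfl⟩ := (hP.psi_bij n).2 d
      simp only [Function.comp, hP.glued_psi, e1]
      rcases z with d | p
      · exact hx.1 _
      · exact a1 p p.2
    · rintro (v | u)
      · simpa [bd, e4] using hx.2 v
      · simpa [bd, e2, e1] using a2 u u.2
  · let X : ℕ → ZMod 2 := fun p => if h : p < k + 3 * n then y (hP.psi n (.inr ⟨p, h⟩)) else 0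
    obtain ⟨z, a1, a2, a3, a4, a5⟩ := h2 X ⟨fun p hp => by
      simp only [X, hp, (tblOK_spec hι p hp).1, dite_true]
      rw [← hy.1 (hP.psi n (.inr ⟨p, hp⟩)), hP.glued_psi]
      rfl, fun v hv => by
      have := hy.2 (.inr ⟨v, hv⟩)
      simp only [bd, e2] at this
      simpa [X, show k + 3 * v < k + 3 * n by omega, show k + 3 * v + 1 < k + 3 * n by omega,
        show k + 3 * v + 2 < k + 3 * n by omega] using this⟩
    have b1 : ∀ t (ht : t < k), X t = y (.inl ⟨(β t).1, hP.mem t ht⟩, (β t).2) := fun t ht => by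
      simp only [X, show t < k + 3 * n by omega, dite_true, e3 t ht]
    refine ⟨fun d => if h : d.1 ∈ R then y (.inl ⟨d.1, h⟩, d.2) else z d, ⟨fun d => ?_,
      fun v => ?_⟩, fun d hd => ?_, funext fun d => ?_⟩
    · by_cases c1 : d.1 ∈ R <;> by_cases c2 : (G.σ d).1 ∈ R <;>
        simp only [c1, c2, dite_true, dite_false]
      · have := hy.1 (hP.psi n (.inl ⟨d, c1, c2⟩))
        rwa [hP.glued_psi] at this
      · obtain ⟨t, ht, rfl⟩ := hP.surj d c1 c2
        rw [a3 t ht, b1 t ht]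
      · obtain ⟨t, ht, a⟩ := hP.surj (G.σ d) c2 (by rwa [G.inv])
        have := a3 t ht
        rw [b1 t ht] at this
        simpa [a, G.inv] using this.symm
      · exact a2 d c1 c2
    · by_cases c : v ∈ R
      · simpa [bd, c] using hy.2 (.inl ⟨v, c⟩)
      · simpa [bd, c] using a1 v c
    · simp only [hD d hd, dite_false, a4 d hd]
    · obtain ⟨w, rfl⟩ := (hP.psi_bij n).2 d
      simp only [Function.comp, e1]
      rcases w with d | p
      · simp [d.2.1, Pole.psi]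
      · by_cases c : p.1 < k
        · simp [hπ p c, hP.mem p c, ← e3 p c]
        · simp [hπ' p p.2 (by omega), a5 p p.2 (by omega), X]

lemma Pole.parity [Fintype V] {R : Set V} {k : ℕ} {β : ℕ → V × Fin 3} (hP : G.Pole R k β)
    {x : V × Fin 3 → ZMod 2} (hx : G.Ev x) : ∑ t : Fin k, x (β t) = 0 := by
  classical
  have a1 : ∑ d : V × Fin 3, (if d.1 ∈ R then x d else 0) = 0 := by
    rw [Fintype.sum_prod_type]
    refine Finset.sum_eq_zero fun v _ => ?_
    by_cases c : v ∈ R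
    · simpa [c, Fin.sum_univ_three, bd] using hx.2 v
    · simp [c]
  have a2 : ∑ d : V × Fin 3, (if d.1 ∈ R ∧ (G.σ d).1 ∈ R then x d else 0) = 0 := by
    refine Finset.sum_involution (fun d _ => G.σ d) (fun d _ => ?_) (fun d _ _ => G.ne d)
      (fun _ _ => Finset.mem_univ _) (fun d _ => G.inv d)
    simp only [G.inv, hx.1, and_comm, z2_self]
  have a3 : ∑ t : Fin k, x (β t) =
      ∑ d : V × Fin 3, (if d.1 ∈ R ∧ (G.σ d).1 ∉ R then x d else 0) := by
    refine Fintype.sum_of_injective (fun t : Fin k => β t)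
      (fun s t h => Fin.ext (hP.inj _ s.2 _ t.2 h)) _ _ (fun d hd => if_neg fun c => ?_)
      fun t => by simp [hP.mem t t.2, hP.out t t.2]
    obtain ⟨t, ht, e⟩ := hP.surj d c.1 c.2
    exact hd ⟨⟨t, ht⟩, e⟩
  refine ((zero_add _).symm.trans (congrArg₂ (· + ·) a2.symm a3)).trans (Eq.trans ?_ a1)
  rw [← Finset.sum_add_distrib]
  refine Finset.sum_congr rfl fun d _ => ?_
  by_cases c1 : d.1 ∈ R <;> by_cases c2 : (G.σ d).1 ∈ R <;> simp [c1, c2]

lemma bd_single [DecidableEq V] (e : V × Fin 3) (v : V) :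
    bd (fun d => if d = e then 1 else 0) v = if v = e.1 then 1 else 0 := by
  obtain ⟨w, i⟩ := e
  by_cases c : v = w
  · subst c
    fin_cases i <;> simp [bd]
  · simp [bd, c]

lemma Conn.path [DecidableEq V] {S : Set V} (hS : G.Conn S) {u w : V} (hu : u ∈ S) (hw : w ∈ S) :
    ∃ y : V × Fin 3 → ZMod 2, (∀ d, y (G.σ d) = y d) ∧ (∀ d, d.1 ∉ S → y d = 0) ∧
      ∀ v, bd y v = (if v = u then 1 else 0) + if v = w then 1 else 0 := by
  let Y : Set V := {w | w ∈ S ∧ ∃ y : V × Fin 3 → ZMod 2, (∀ d, y (G.σ d) = y d) ∧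
    (∀ d, d.1 ∉ S → y d = 0) ∧ ∀ v, bd y v = (if v = u then 1 else 0) + if v = w then 1 else 0}
  have hu' : u ∈ Y := ⟨hu, 0, by simp, by simp, fun v => by rw [z2_self]; simp [bd]⟩
  rcases hS Y (fun _ h => h.1) (by
    rintro d ⟨a1, y, a2, a3, a4⟩ a5
    refine ⟨a5, fun e => y e + (if e = d then 1 else 0) + if e = G.σ d then 1 else 0,
      fun e => ?_, fun e he => ?_, fun v => ?_⟩
    · have b1 : G.σ e = d ↔ e = G.σ d := ⟨fun h => by rw [← h, G.inv], fun h => by rw [h, G.inv]⟩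
      have b2 : G.σ e = G.σ d ↔ e = d := ⟨fun h => by rw [← G.inv e, h, G.inv], fun h => by rw [h]⟩
      simp only [a2, b1, b2]
      ring
    · dsimp only
      rw [a3 e he, if_neg (fun h => he (by rwa [h])), if_neg (fun h => he (by rwa [h]))]
      simp
    · have b1 := bd_single d v
      have b2 := bd_single (G.σ d) v
      have b3 := a4 v
      have b4 := z2_self (if v = d.1 then (1 : ZMod 2) else 0)
      unfold bd at *
      linear_combination b1 + b2 + b3 + b4) with h | h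
  · exact absurd (h ▸ hu') (Set.notMem_empty u)
  · exact (h ▸ hw : w ∈ Y).2

lemma Pole.fill {R : Set V} {k : ℕ} {β : ℕ → V × Fin 3} (hP : G.Pole R k β) (hc : G.Conn Rᶜ)
    (hk : 0 < k) (X : ℕ → ZMod 2) (hX : ∑ t : Fin k, X t = 0) :
    ∃ y : V × Fin 3 → ZMod 2, (∀ v, bd y v = 0) ∧
      (∀ d, d.1 ∉ R → (G.σ d).1 ∉ R → y (G.σ d) = y d) ∧ ∀ t < k, y (G.σ (β t)) = X t := by
  classical
  have := fun t : Fin k => hc.path (hP.out 0 hk) (hP.out t t.2)
  choose y a1 a2 a3 using this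
  refine ⟨fun d => ∑ t : Fin k, X t * (y t d + if d = G.σ (β t) then 1 else 0), fun v => ?_,
    fun d b1 b2 => Finset.sum_congr rfl fun t _ => ?_, fun s hs => ?_⟩
  · refine Eq.trans ?_ (show ∑ t : Fin k, X t * (if v = (G.σ (β 0)).1 then 1 else 0) = 0 by
      rw [← Finset.sum_mul, hX, zero_mul])
    simp only [bd, ← Finset.sum_add_distrib]
    refine Finset.sum_congr rfl fun t _ => ?_
    have b1 := bd_single (G.σ (β t)) v
    have b3 := a3 t v
    have b4 := z2_self (if v = (G.σ (β t)).1 then (1 : ZMod 2) else 0)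
    unfold bd at *
    linear_combination X t * (b1 + b3 + b4)
  · rw [a1, if_neg, if_neg]
    · rintro rfl
      exact b2 (by rw [G.inv]; exact hP.mem t t.2)
    · intro h
      exact b1 (by rw [← G.inv d, h, G.inv]; exact hP.mem t t.2)
  · dsimp only
    rw [Finset.sum_eq_single (⟨s, hs⟩ : Fin k)]
    · simp [a1, a2 _ _ (not_not.2 (hP.mem s hs))]
    · intro t _ ht
      rw [a1, a2 _ _ (not_not.2 (hP.mem s hs)), if_neg, add_zero, mul_zero]
      intro h
      exact ht (Fin.ext (hP.compl.inj _ hs _ t.2 h).symm)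
    · simp

end DG

end Pool.Agent.P.MP_40718a_co
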