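import Pool.Agent.P.MP_40718a_co.Simple
import Pool.Agent.P.MP_40718a_co.CertA
import Pool.Agent.P.MP_40718a_co.Cert244
import Pool.Agent.P.MP_40718a_co.Cert334
import Pool.Agent.P.MP_40718a_co.Cert344

/-! The forbidden subgraphs of a smallest counterexample. -/

namespace Pool.Agent.P.MP_40718a_co

/-- The forbidden graphs. -/
def forb : List (ℕ × List (ℕ × ℕ)) := [(3, c3E), (4, c4E), (7, t233E), (8, t144E), (8, t234E),
  (8, t333E), (9, t244E), (9, t334E), (10, t344E)]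

lemma forb_free {V : Type} [Fintype V] {G : DG V} (h : G.Min) : ∀ H ∈ forb, ¬ G.Cont H := by
  have h1 := c3_free h (by simp)
  have h2 := c4_free h (by simp [h1])
  have h3 := t233_free h (by simp [h1, h2])
  have h4 := t144_free h (by simp [h1, h2, h3])
  have h5 := t234_free h (by simp [h1, h2, h3, h4])
  have h6 := t333_free h (by simp [h1, h2, h3, h4, h5])
  have h7 := t244_free h (by simp [h1, h2, h3, h4, h5, h6])
  have h8 := t334_free h (by simp [h1, h2, h3, h4, h5, h6, h7])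
  have h9 := t344_free h (by simp [h1, h2, h3, h4, h5, h6, h7, h8])
  simp [forb, h1, h2, h3, h4, h5, h6, h7, h8, h9]

/-- Embeddings of forbidden graphs in theta graphs. -/
def thW : List (List ℕ) := [[], [], [], [], [], [], [], [], [], [], [], [], [], [], [], [], [], [], [], [], [], [], [], [], [], [], [], [], [], [], [], [], [], [], [], [], [], [0, 0, 1, 2], [0, 0, 1, 2], [0, 0, 1, 2], [], [], [0, 0, 1, 4], [1, 0, 1, 3, 2], [1, 0, 1, 3, 2], [], [], [0, 0, 1, 5], [1, 0, 1, 6, 5], [3, 0, 1, 2, 3, 4, 5, 6, 7], [], [], [], [], [], [], [], [0, 0, 1, 2], [0, 0, 1, 2], [0, 0, 1, 2], [], [0, 0, 1, 2], [1, 0, 2, 1, 3], [1, 0, 2, 1, 3], [1, 0, 2, 1, 3], [], [0, 0, 1, 2], [1, 0, 2, 1, 5], [2, 0, 1, 2, 3, 4, 5, 6], [4, 0, 1, 2, 3, 4, 5, 6, 7], [], [0, 0, 1, 2], [1, 0, 2, 1, 6], [4, 0, 1, 2, 6, 7, 3, 4, 5], [6, 0, 1, 2, 3, 4, 5, 6, 7, 8], [], [], [], [], [], [], [], [0, 0,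 1, 4], [1, 0, 1, 3, 2], [1, 0, 1, 3, 2], [], [0, 0, 1, 4], [1, 0, 4, 1, 5], [2, 0, 1, 4, 2, 3, 5, 6], [4, 0, 1, 4, 2, 3, 5, 6, 7], [], [1, 0, 1, 3, 2], [2, 0, 1, 6, 2, 3, 4, 5], [5, 0, 1, 2, 3, 4, 5, 6, 7], [7, 0, 1, 2, 3, 4, 5, 6, 7, 8], [], [1, 0, 1, 3, 2], [4, 0, 1, 7, 2, 3, 4, 5, 6], [7, 0, 1, 2, 3, 7, 8, 4, 5, 6], [8, 0, 1, 2, 3, 4, 5, 6, 7, 8, 9], [], [], [], [], [], [], [], [0, 0, 1, 5], [1, 0, 1, 6, 5], [3, 0, 1, 2, 3, 4, 5, 6, 7], [], [0, 0, 1, 5], [1, 0, 5, 1, 6], [4, 0, 1, 5, 6, 7, 2, 3, 4], [6, 0, 1, 5, 2, 3, 4, 6, 7, 8], [], [1, 0, 1, 6, 5], [4, 0, 1, 7, 5, 6, 2, 3, 4], [7, 0, 1, 5, 6, 7, 8, 2, 3, 4], [8, 0, 1, 5, 6, 2, 3, 4, 7, 8, 9], [], [3, 0, 1, 2, 3, 4, 5, 6, 7], [6, 0, 1, 8, 2, 3, 4, 5, 6, 7], [8, 0, 1, 8, 9, 2, 3, 4, 5, 6, 7], []]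

lemma thW_ok0 : allB (fun a => allB (fun b => allB (fun c => decide (a = 0 ∨ b = 0 ∨ c = 0 ∨
    (a = 1 ∧ b = 1) ∨ (a = 1 ∧ c = 1) ∨ (b = 1 ∧ c = 1) ∨ (a = 4 ∧ b = 4 ∧ c = 4)) ||
    subG (a + b + c - 1) (thE a b c) forb (thW.getD (25 * a + 5 * b + c) [])) 5) 5) 5 = true := by
  decide +kernel

lemma thW_ok : ∀ a < 5, ∀ b < 5, ∀ c < 5, 0 < a → 0 < b → 0 < c → ¬ (a = 1 ∧ b = 1) →
    ¬ (a = 1 ∧ c = 1) → ¬ (b = 1 ∧ c = 1) → ¬ (a = 4 ∧ b = 4 ∧ c = 4) →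
    subG (a + b + c - 1) (thE a b c) forb (thW.getD (25 * a + 5 * b + c) []) = true := by
  intro a ha b hb c hc h1 h2 h3 h4 h5 h6 h7
  have := allB_spec.1 (allB_spec.1 (allB_spec.1 thW_ok0 a ha) b hb) c hc
  rw [Bool.or_eq_true, decide_eq_true_eq] at this
  exact this.resolve_left (by omega)

lemma theta_free {V : Type} {G : DG V} (hF : ∀ H ∈ forb, ¬ G.Cont H) {H : SimpleGraph V}
    (hH : ∀ u v, H.Adj u v → G.Adj u v) {u v : V} (huv : u ≠ v)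
    {p q r : H.Walk u v} (hp : p.IsPath) (hq : q.IsPath) (hr : r.IsPath)
    (npq : p ≠ q) (npr : p ≠ r) (nqr : q ≠ r)
    (hpq : ∀ x ∈ p.support, x ∈ q.support → x = u ∨ x = v)
    (hpr : ∀ x ∈ p.support, x ∈ r.support → x = u ∨ x = v)
    (hqr : ∀ x ∈ q.support, x ∈ r.support → x = u ∨ x = v)
    (lp : p.length ≤ 4) (lq : q.length ≤ 4) (lr : r.length ≤ 4) :
    p.length = 4 ∧ q.length = 4 ∧ r.length = 4 := by
  have pos : ∀ w : H.Walk u v, 0 < w.length := fun w =>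
    Nat.pos_of_ne_zero fun h => huv (w.eq_of_length_eq_zero h)
  have one : ∀ w w' : H.Walk u v, w ≠ w' → ¬ (w.length = 1 ∧ w'.length = 1) := by
    rintro w w' hne ⟨h1, h2⟩
    refine hne ?_
    cases w with
    | nil => simp at h1
    | cons a w =>
    cases w' with
    | nil => simp at h2
    | cons a' w' =>
    simp only [SimpleGraph.Walk.length_cons, Nat.add_eq_right] at h1 h2
    cases w with
    | cons => simp at h1
    | nil =>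
    cases w' with
    | cons => simp at h2
    | nil => rfl
  by_contra hc
  exact DG.not_cont hF (thW_ok _ (by omega) _ (by omega) _ (by omega) (pos p) (pos q) (pos r)
    (one p q npq) (one p r npr) (one q r nqr) hc) (DG.cont_theta hH huv hp hq hr hpq hpr hqr)

end Pool.Agent.P.MP_40718a_co
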