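import Pool.Agent.P.MP_40718a_co.CfgF
import Pool.Agent.P.MP_40718a_co.Sw9
import Pool.Agent.P.MP_40718a_co.BT

/-! More forbidden graphs. -/

namespace Pool.Agent.P.MP_40718a_co

/-- edge list -/
def p566E : List (ℕ × ℕ) := [(0, 1), (0, 2), (0, 3), (1, 4), (4, 5), (5, 2), (1, 6), (6, 7), (7, 8), (8, 3), (2, 9), (9, 10), (10, 11), (11, 3)]

/-- edge list -/
def d567aE : List (ℕ × ℕ) := [(0, 1), (0, 4), (0, 8), (1, 2), (2, 3), (2, 10), (3, 4), (4, 5), (5, 6), (6, 7), (7, 8), (7, 9), (9, 10)]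

/-- edge list -/
def d567bE : List (ℕ × ℕ) := [(0, 1), (0, 4), (0, 8), (1, 2), (1, 11), (2, 3), (3, 4), (4, 5), (5, 6), (6, 7), (7, 8), (7, 9), (9, 10), (10, 11)]

/-- edge list -/
def d567cE : List (ℕ × ℕ) := [(0, 1), (0, 4), (0, 8), (1, 2), (2, 3), (2, 11), (3, 4), (4, 5), (5, 6), (6, 7), (7, 8), (8, 9), (9, 10), (10, 11)]

/-- edge list -/
def p567E : List (ℕ × ℕ) := [(0, 1), (0, 2), (0, 3), (1, 4), (4, 5), (5, 2), (1, 6), (6, 7), (7, 8), (8, 3), (2, 9), (9, 10), (10, 11), (11, 12), (12, 3)]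

/-- edge list -/
def p666E : List (ℕ × ℕ) := [(0, 1), (0, 2), (0, 3), (1, 4), (4, 5), (5, 6), (6, 2), (1, 7), (7, 8), (8, 9), (9, 3), (2, 10), (10, 11), (11, 12), (12, 3)]

end Pool.Agent.P.MP_40718a_co
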