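import Pool.Agent.P.MP_40718a_co.Fam
import Pool.Agent.P.MP_40718a_co.Levels

/-! Small cuts within a class of labelled graphs. -/

namespace Pool.Agent.P.MP_40718a_co

namespace DG

/-- Smaller bridgeless labelled graphs have covers. -/
def SmallF (N M : ℕ) : Prop := ∀ (W : Type) [Fintype W] (H : DG W),
  Fintype.card W < M → H.Fam N → H.Bridgeless → H.Cover

variable {V : Type} [Fintype V] {G : DG V} {N : ℕ}

lemma Pole.small {R : Set V} [Fintype R] {n : ℕ} (hn : n < Rᶜ.ncard) :
    Fintype.card (R ⊕ Fin n) < Fintype.card V := by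
  have := Set.ncard_add_ncard_compl R
  rw [Nat.card_eq_fintype_card] at this
  rw [Fintype.card_sum, Fintype.card_fin, ← Nat.card_eq_fintype_card, Nat.card_coe_set_eq]
  omega

lemma Pole.side {R : Set V} {k : ℕ} {β : ℕ → V × Fin 3} (hP : G.Pole R k β) {n : ℕ} {ι : ℕ → ℕ}
    (hι : tblOK (k + 3 * n) ι = true) {l : ℕ} {Cl : List (List ℕ)} (hs : safe k n ι l Cl = true)
    (hl : G.Lev l) (hCl : ∀ K ∈ Cl, (∀ t ∈ K, t < k) ∧ (K.map fun t => (β t).1).Nodup)
    (IH : SmallF N (Fintype.card V)) (hn : n < Rᶜ.ncard) (hn' : l < Rᶜ.ncard + 2)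
    (hF : (hP.glued hι).Fam N) {cls : List ℕ}
    (h : chk (2 ^ (k + 3 * n) - 1) (fun M => (M.map (· % 2 ^ k)).isPerm cls) 6 (pms k n ι) 0 0 []
      = true) : hP.sys.Real cls := by
  classical
  obtain ⟨xs, -, x2, x3⟩ := hP.glued_real hι (test := fun xs => xs.isPerm cls)
    (IH _ _ (Pole.small hn) hF (hP.glued_bridgeless hι hs (fun X hX h => by
      have := Set.ncard_le_ncard (Set.compl_subset_compl.2 hX)
      have := hl X h
      omega) hCl)) h
  exact x3.perm _ (List.isPerm_iff.1 x2)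

lemma conn_side (hB : G.Bridgeless) (h0 : ∀ X, G.cut X = 0 → X = ∅ ∨ X = Set.univ) {R : Set V}
    (hR : R.Nonempty) (hk : G.cut R ≤ 3) : G.Conn Rᶜ := by
  intro Y hY hc
  by_contra hne
  rw [not_or] at hne
  have a1 : G.cut Y + G.cut (Rᶜ \ Y) = G.cut Rᶜ := by
    unfold cut
    rw [← Finset.sum_add_distrib]
    refine Finset.sum_congr rfl fun d _ => ?_
    have b1 := hc d
    have b2 := hc (G.σ d)
    have b3 := @hY d.1
    have b4 := @hY (G.σ d).1
    rw [G.inv] at b2
    by_cases c1 : d.1 ∈ Y <;> by_cases c2 : (G.σ d).1 ∈ Y <;> by_cases c3 : d.1 ∈ R <;>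
      by_cases c4 : (G.σ d).1 ∈ R <;> simp_all [ind]
  rw [cut_compl] at a1
  obtain ⟨v, hv⟩ := hR
  have a2 : ∀ X ⊆ Rᶜ, G.cut X = 0 → X = ∅ := fun X hX h =>
    (h0 X h).resolve_right fun e => hX (e ▸ Set.mem_univ v) hv
  have a3 := mt (a2 Y hY) hne.1
  have a4 : G.cut (Rᶜ \ Y) ≠ 0 := fun h =>
    hne.2 (hY.antisymm (Set.sdiff_eq_empty.1 (a2 _ Set.sdiff_subset h)))
  have := hB Y
  have := hB (Rᶜ \ Y)
  omega

section
variable [Nonempty V] (hB : G.Bridgeless) (hF : G.Fam N) (IH : SmallF N (Fintype.card V))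
  (hC : ¬ G.Cover)
include hB hF IH hC

lemma conn' (X : Set V) (h : G.cut X = 0) : X = ∅ ∨ X = Set.univ := by
  by_contra hc
  obtain ⟨β, hP⟩ := G.exists_pole X
  rw [h] at hP
  rw [not_or, ← ne_eq, ← Set.nonempty_iff_ne_empty, ← ne_eq, ← Set.nonempty_compl,
    ← Set.ncard_pos, ← Set.ncard_pos] at hc
  have key : ∀ {R : Set V} {β} (hP : G.Pole R 0 β), 0 < Rᶜ.ncard →
      hP.sys.Real [0, 0, 0, 0, 0, 0] := fun {R β} hP hR =>
    hP.side (n := 0) (ι := id) (by decide +kernel) (Cl := [[]]) (by decide +kernel) (lev1 hB)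
      (by simp) IH hR (by omega) (hP.fam_glued _ hF ∅ β (by simp) (by simp) (by simp)
        (fun _ _ _ => by simp [EvT]) fun _ _ => ⟨0, by simp [bd]⟩) (by decide +kernel)
  exact hC (hP.glue rfl (key hP hc.2) (key hP.compl (by simpa using hc.1)))

lemma lev2' : G.Lev 2 := by
  intro X h
  by_contra hc
  have := hB X
  have e : G.cut X = 2 := by omega
  obtain ⟨β, hP⟩ := G.exists_pole X
  rw [e] at hP
  have key : ∀ {R : Set V} {β} (hP : G.Pole R 2 β), G.cut R = 2 →
      hP.sys.Real [0, 0, 0, 0, 3, 3] := by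
    intro R β hP hR
    have h2 : 0 < Rᶜ.ncard := (Set.ncard_pos).2 ⟨_, hP.out 0 (by omega)⟩
    refine hP.side (n := 0) (ι := fun p => 1 - p) (by decide +kernel) (Cl := [[]])
      (by decide +kernel) (lev1 hB) (by simp) IH h2 (by omega) (hP.fam_glued _ hF ∅ β (by simp)
        (by simp) (fun p _ _ => by omega) (fun x hx _ => ?_) fun Y hY => ?_) (by decide +kernel)
    · have := hP.parity hx
      rw [Fin.sum_univ_two, z2_add] at this
      refine ⟨fun p hp => ?_, by simp⟩
      obtain rfl | rfl : p = 0 ∨ p = 1 := by omega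
      · exact this.symm
      · exact this
    · obtain ⟨y, a1, a2, a3⟩ := hP.fill (conn_side hB (conn' hB hF IH hC) ⟨_, hP.mem 0 (by omega)⟩
        (by omega)) (by omega) Y (by rw [Fin.sum_univ_two, z2_add]; exact hY.1 1 (by omega))
      exact ⟨y, fun v _ => a1 v, a2, a3, by simp, fun p _ _ => by omega⟩
  exact hC (hP.glue rfl (key hP e) (key hP.compl (by rw [cut_compl, e])))

lemma lev3' : G.Lev 3 := by
  intro X h
  by_contra hc
  have := lev2' hB hF IH hC X
  have e : G.cut X = 3 := by omega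
  obtain ⟨β, hP⟩ := G.exists_pole X
  rw [e] at hP
  have key : ∀ {R : Set V} {β} (hP : G.Pole R 3 β), G.cut R = 3 → 1 < Rᶜ.ncard →
      hP.sys.Real [1, 1, 2, 2, 4, 4] := by
    intro R β hP hR h2
    refine hP.side (n := 1) (ι := fun p => (p + 3) % 6) (by decide +kernel)
      (Cl := [[], [0], [1]]) (by decide +kernel) (lev2' hB hF IH hC) (by simp) IH h2 (by omega)
      (hP.fam_glued _ hF ∅ (fun p => if p < 3 then β p else G.σ (β (p - 3))) (by simp)
        (fun t ht => if_pos ht) (fun p _ _ => ?_) (fun x hx _ => ?_) fun Y hY => ?_)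
      (by decide +kernel)
    · rw [if_neg (by omega)]
      exact hP.out _ (by omega)
    · have := hP.parity hx
      rw [Fin.sum_univ_three] at this
      refine ⟨fun p hp => ?_, fun v hv => ?_⟩
      · interval_cases p <;> simp [hx.1]
      · obtain rfl : v = 0 := by omega
        simpa [hx.1] using this
    · have b0 : Y 3 = Y 0 := hY.1 0 (by omega)
      have b1 : Y 4 = Y 1 := hY.1 1 (by omega)
      have b2 : Y 5 = Y 2 := hY.1 2 (by omega)
      obtain ⟨y, a1, a2, a3⟩ := hP.fill (conn_side hB (conn' hB hF IH hC) ⟨_, hP.mem 0 (by omega)⟩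
        (by omega)) (by omega) Y (by
          rw [Fin.sum_univ_three]
          simpa [b0, b1, b2] using hY.2 0 (by omega))
      refine ⟨y, fun v _ => a1 v, a2, a3, by simp, fun p _ _ => ?_⟩
      rw [if_neg (by omega), a3 _ (by omega)]
      interval_cases p <;> simp [b0, b1, b2]
  exact hC (hP.glue rfl (key hP e (by omega))
    (key hP.compl (by rw [cut_compl, e]) (by rw [compl_compl]; omega)))

lemma noMulti' : G.NoMulti := by
  classical
  intro v i j h
  by_contra hij
  have hvw : (G.σ (v, i)).1 ≠ v := noLoop hB _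
  obtain ⟨w, a, e1⟩ : ∃ w a, G.σ (v, i) = (w, a) := ⟨_, _, rfl⟩
  rw [e1] at h hvw
  change w ≠ v at hvw
  obtain ⟨b, e2⟩ : ∃ b, G.σ (v, j) = (w, b) := ⟨(G.σ (v, j)).2, Prod.ext h.symm rfl⟩
  have e1' : G.σ (w, a) = (v, i) := by rw [← e1, G.inv]
  have e2' : G.σ (w, b) = (v, j) := by rw [← e2, G.inv]
  have hab : a ≠ b := by
    rintro rfl
    exact hij (congrArg Prod.snd (e1'.symm.trans e2'))
  have : ∀ x y : Fin 3, x ≠ y → ∃ z, ∀ w, w = x ∨ w = y ∨ w = z := by decide
  obtain ⟨l, hl⟩ := this i j hij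
  obtain ⟨l', hl'⟩ := this a b hab
  have h2 : G.cut {v, w} ≤ 2 := by
    rw [cut_eq_ncard]
    refine (Set.ncard_le_ncard (t := {(v, l), (w, l')}) ?_).trans
      ((Set.ncard_insert_le _ _).trans (by simp))
    rintro ⟨u, x⟩ ⟨rfl | rfl, h1⟩
    · rcases hl x with rfl | rfl | rfl
      · simp [e1] at h1
      · simp [e2] at h1
      · simp
    · rcases hl' x with rfl | rfl | rfl
      · simp [e1'] at h1
      · simp [e2'] at h1
      · simp
  have h3 : ({v, w} : Set V) = Set.univ := by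
    have h4 := Set.ncard_pair hvw.symm
    rcases lev2' hB hF IH hC _ h2 with h | h | h
    · exact (conn' hB hF IH hC _ h).resolve_left (Set.insert_nonempty _ _).ne_empty
    · omega
    · rw [← Set.compl_empty_iff, ← Set.ncard_eq_zero]; omega
  have h4 : ∀ u, u = v ∨ u = w := fun u => by simpa using (h3 ▸ Set.mem_univ u : u ∈ ({v, w} : Set V))
  have h5 : ∀ c, G.σ (v, c) = (w, (G.σ (v, c)).2) := fun c =>
    Prod.ext ((h4 _).resolve_left (noLoop hB _)) rfl
  have h6 : ∀ c, G.σ (w, c) = (v, (G.σ (w, c)).2) := fun c =>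
    Prod.ext ((h4 _).resolve_right (noLoop hB _)) rfl
  have h7 : ∀ c x, (G.σ (v, c)).2 = x ↔ c = (G.σ (w, x)).2 := by
    intro c x
    constructor
    · rintro rfl; rw [← h5, G.inv]
    · rintro rfl; rw [← h6, G.inv]
  let M : Fin 3 → V → Fin 3 := fun c u => if u = v then c else (G.σ (v, c)).2
  refine hC ⟨[0, 0, 1, 1, 2, 2].map M, rfl, ?_, ?_⟩
  · intro m hm
    obtain ⟨c, -, rfl⟩ := List.mem_map.1 hm
    rintro ⟨u, x⟩ hd
    rcases h4 u with rfl | rfl
    · simp only [M, if_true] at hd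
      rw [h5]; simp only [M, hd, hvw, if_false]
    · simp only [M, show u ≠ v from hvw, if_false, h7] at hd
      rw [h6]; simp only [M, if_true, hd]
  · rintro ⟨u, x⟩
    have key : ∀ y : Fin 3, ([0, 0, 1, 1, 2, 2] : List (Fin 3)).countP (fun c => decide (c = y)) = 2 := by
      decide
    rw [List.countP_map]
    rcases h4 u with rfl | rfl
    · refine Eq.trans ?_ (key x)
      exact List.countP_congr fun c _ => by simp [M]
    · refine Eq.trans ?_ (key (G.σ (u, x)).2)
      exact List.countP_congr fun c _ => by simp [M, show u ≠ v from hvw, h7]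

end

/-- What is known about a smallest counterexample in the class. -/
structure MinF (G : DG V) (N : ℕ) : Prop where
  bl : G.Bridgeless
  fam : G.Fam N
  multi : G.NoMulti
  small : SmallF N (Fintype.card V)
  nocover : ¬ G.Cover
  lev : G.Lev 3
  conn : ∀ X, G.cut X = 0 → X = ∅ ∨ X = Set.univ

theorem exists_minF (hB : G.Bridgeless) (hF : G.Fam N) (hC : ¬ G.Cover) :
    ∃ (W : Type) (_ : Fintype W) (_ : Nonempty W) (H : DG W), H.MinF N := by
  by_contra H
  have key : ∀ M, SmallF N M := by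
    intro M
    induction M with
    | zero => intro W _ G h; omega
    | succ M ih =>
      intro W _ G h hF hB
      by_contra hC
      rcases isEmpty_or_nonempty W with hW | hW
      · exact hC ⟨List.replicate 6 isEmptyElim, rfl, fun _ _ d => isEmptyElim d,
          fun d => isEmptyElim d⟩
      · have IH : SmallF N (Fintype.card W) := fun U _ K hK => ih U K (by omega)
        exact H ⟨W, _, hW, G, hB, hF, noMulti' hB hF IH hC, IH, hC, lev3' hB hF IH hC,
          conn' hB hF IH hC⟩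
  exact hC (key _ _ _ (Nat.lt_succ_self _) hF hB)

end DG

end Pool.Agent.P.MP_40718a_co
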