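import Pool.Agent.P.MP_40718a_co.Fam

/-! Orbits of two involutions and the size of the cycle space. -/

namespace Pool.Agent.P.MP_40718a_co

open Function

section orbits
variable {X : Type} {s t : X → X} (hs : ∀ x, s (s x) = x) (ht : ∀ x, t (t x) = x)
include hs ht

lemma nu_ne (hs' : ∀ x, s x ≠ x) (ht' : ∀ x, t x ≠ x) : ∀ (m : ℕ) (y : X), (t ∘ s)^[m] y ≠ t y
  | 0, y => (ht' y).symm
  | 1, y => fun h => hs' y (by simpa [ht] using congrArg t h)
  | m + 2, y => fun h => nu_ne hs' ht' m (t (s y)) (by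
      rw [iterate_succ_apply', iterate_succ_apply] at h
      simpa [hs, ht] using congrArg (fun z => s (t z)) h)

lemma nu_ne' (hs' : ∀ x, s x ≠ x) (ht' : ∀ x, t x ≠ x) (a b : ℕ) (x : X) :
    (t ∘ s)^[a] x ≠ t ((t ∘ s)^[b] x) := by
  intro h
  rcases le_total a b with c | c
  · obtain ⟨m, rfl⟩ := Nat.exists_eq_add_of_le' c
    refine nu_ne hs ht hs' ht' m ((t ∘ s)^[a] x) ?_
    rw [← iterate_add_apply, h, ht]
  · obtain ⟨m, rfl⟩ := Nat.exists_eq_add_of_le' c
    exact nu_ne hs ht hs' ht' m _ (by rwa [← iterate_add_apply])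

lemma nu_per (x : X) : minimalPeriod (t ∘ s) (t x) = minimalPeriod (t ∘ s) x := by
  have key : ∀ n x, (t ∘ s)^[n] (t ((t ∘ s)^[n] x)) = t x := by
    intro n x
    induction n with
    | zero => rfl
    | succ n ih => rw [iterate_succ_apply, iterate_succ_apply']; simpa [hs, ht] using ih
  have key2 : ∀ n x, IsPeriodicPt (t ∘ s) n x → IsPeriodicPt (t ∘ s) n (t x) := by
    intro n x h
    have := key n x
    rwa [h.eq] at this
  exact minimalPeriod_eq_minimalPeriod_iff.2 fun n =>
    ⟨fun h => by simpa [ht] using key2 n _ h, key2 n x⟩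

lemma nu_mem [Finite X] (x : X) : x ∈ periodicPts (t ∘ s) :=
  ((Involutive.injective ht).comp (Involutive.injective hs)).mem_periodicPts x

lemma class_sum [Fintype X] (hs' : ∀ x, s x ≠ x) (ht' : ∀ x, t x ≠ x) {C : Type} [Fintype C]
    (κ : X → C) (hκ : Surjective κ) (h1 : ∀ x, κ (s x) = κ x) (h2 : ∀ x, κ (t x) = κ x)
    (W : ℕ → ℕ) (c : ℕ) (hW : ∀ L, 0 < L → c ≤ L * W L) :
    Fintype.card C * (2 * c) ≤ ∑ x, W (minimalPeriod (t ∘ s) x) := by
  classical
  rw [← Finset.sum_fiberwise (s := Finset.univ) κ, ← smul_eq_mul, ← Finset.card_univ,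
    ← Finset.sum_const]
  refine Finset.sum_le_sum fun a _ => ?_
  obtain ⟨x, rfl⟩ := hκ a
  have hx := nu_mem hs ht x
  let g : Fin (minimalPeriod (t ∘ s) x) × Bool → X := fun p =>
    bif p.2 then (t ∘ s)^[p.1] x else t ((t ∘ s)^[p.1] x)
  have hg : Injective g := by
    rintro ⟨a, _ | _⟩ ⟨b, _ | _⟩ h <;> simp only [g, cond_true, cond_false] at h
    · rw [Fin.ext (iterate_injOn_Iio_minimalPeriod a.2 b.2 (Involutive.injective ht h))]
    · exact absurd h.symm (nu_ne' hs ht hs' ht' _ _ _)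
    · exact absurd h (nu_ne' hs ht hs' ht' _ _ _)
    · rw [Fin.ext (iterate_injOn_Iio_minimalPeriod a.2 b.2 h)]
  have a1 : ∀ n, κ ((t ∘ s)^[n] x) = κ x := by
    intro n
    induction n with
    | zero => rfl
    | succ n ih => rw [iterate_succ_apply', comp_apply, h2, h1, ih]
  refine le_trans ?_ (Finset.sum_le_sum_of_subset (s := Finset.univ.map ⟨g, hg⟩) ?_)
  · rw [Finset.sum_map, Finset.sum_congr rfl (g := fun _ => W (minimalPeriod (t ∘ s) x))]
    · have := hW _ (minimalPeriod_pos_of_mem_periodicPts hx)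
      simp only [Finset.sum_const, Finset.card_univ, Fintype.card_prod, Fintype.card_fin,
        Fintype.card_bool, smul_eq_mul]
      nlinarith
    · rintro ⟨a, _ | _⟩ _
      · simp only [Embedding.coeFn_mk, g, cond_false, nu_per hs ht, minimalPeriod_apply_iterate hx]
      · simp only [Embedding.coeFn_mk, g, cond_true, minimalPeriod_apply_iterate hx]
  · intro y hy
    obtain ⟨⟨a, _ | _⟩, -, rfl⟩ := Finset.mem_map.1 hy <;> simp [g, h2, a1]

end orbits

namespace DG
variable {V : Type} {G : DG V}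

lemma Ev.add {x y : V × Fin 3 → ZMod 2} (hx : G.Ev x) (hy : G.Ev y) : G.Ev (x + y) :=
  ⟨fun d => by simp [hx.1, hy.1], fun v => by
    have a1 := hx.2 v
    have a2 := hy.2 v
    simp only [bd, Pi.add_apply] at *
    linear_combination a1 + a2⟩

lemma card_ev [Fintype V] [Nonempty V] (hc : G.Conn Set.univ) :
    ∃ m, 2 * m = Fintype.card V + 2 ∧ Nat.card {x // G.Ev x} = 2 ^ m := by
  classical
  let A : (V × Fin 3 → ZMod 2) →ₗ[ZMod 2] (V × Fin 3 → ZMod 2) :=
    LinearMap.id + LinearMap.funLeft _ _ G.σ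
  have hA : ∀ x, x ∈ LinearMap.ker A ↔ ∀ d, x (G.σ d) = x d := fun x => by
    simp only [A, LinearMap.mem_ker, funext_iff, LinearMap.add_apply, LinearMap.id_apply,
      Pi.add_apply, LinearMap.funLeft_apply, Pi.zero_apply, z2_add]
    exact forall_congr' fun _ => eq_comm
  have a1 : LinearMap.range A = LinearMap.ker A := by
    ext y
    rw [hA]
    constructor
    · rintro ⟨x, rfl⟩ d
      simp [A, G.inv, add_comm]
    · intro hy
      let e := Fintype.equivFin (V × Fin 3)
      refine ⟨fun d => if e d < e (G.σ d) then y d else 0, funext fun d => ?_⟩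
      have : e (G.σ d) ≠ e d := fun h => G.ne d (e.injective h)
      rcases lt_or_gt_of_ne this with c | c <;> simp [A, G.inv, hy, c, c.le]
  have a2 := A.finrank_range_add_finrank_ker
  rw [a1, Module.finrank_fintype_fun_eq_card, Fintype.card_prod, Fintype.card_fin] at a2
  let B : LinearMap.ker A →ₗ[ZMod 2] (V → ZMod 2) :=
    ⟨⟨fun x => bd x.1, fun x y => by ext v; simp only [bd, Pi.add_apply, Submodule.coe_add]; ring⟩,
      fun c x => by ext v; simp [bd, mul_add]⟩
  let S : (V → ZMod 2) →ₗ[ZMod 2] ZMod 2 := ∑ v, LinearMap.proj v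
  have hS : ∀ b, S b = ∑ v, b v := fun b => by simp [S]
  obtain ⟨u⟩ := ‹Nonempty V›
  have a3 : LinearMap.range B = LinearMap.ker S := by
    ext b
    rw [LinearMap.mem_ker, hS]
    constructor
    · rintro ⟨x, rfl⟩
      have : ∑ d, x.1 d = 0 := Finset.sum_involution (fun d _ => G.σ d)
        (fun d _ => by rw [(hA _).1 x.2, z2_self]) (fun d _ _ => G.ne d)
        (fun _ _ => Finset.mem_univ _) (fun d _ => G.inv d)
      rw [Fintype.sum_prod_type] at this
      simpa [Fin.sum_univ_three, B, bd] using this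
    · intro hb
      choose y y1 _ y3 using fun w => hc.path (Set.mem_univ u) (Set.mem_univ w)
      refine ⟨∑ w, b w • ⟨y w, (hA _).2 (y1 w)⟩, ?_⟩
      rw [map_sum]
      ext v
      simp only [map_smul, Finset.sum_apply, Pi.smul_apply, smul_eq_mul]
      change ∑ w, b w * bd (y w) v = _
      simp [y3, mul_add, Finset.sum_add_distrib, hb]
  have a4 := B.finrank_range_add_finrank_ker
  have a5 := S.finrank_range_add_finrank_ker
  rw [LinearMap.range_eq_top.2 (fun c => ⟨Pi.single u c, by simp [hS]⟩), finrank_top,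
    Module.finrank_self, Module.finrank_fintype_fun_eq_card, ← a3] at a5
  refine ⟨Module.finrank (ZMod 2) (LinearMap.ker B), by omega, ?_⟩
  have := Module.natCard_eq_pow_finrank (K := ZMod 2) (V := LinearMap.ker B)
  rw [Nat.card_zmod] at this
  rw [← this]
  exact Nat.card_congr ⟨fun x => ⟨⟨x.1, (hA _).2 x.2.1⟩, funext x.2.2⟩,
    fun x => ⟨x.1.1, (hA _).1 x.1.2, congrFun x.2⟩, fun _ => rfl, fun _ => rfl⟩

end DG

end Pool.Agent.P.MP_40718a_co
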