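import Pool.Agent.P.MP_40718a_co.Codes

/-! Gluing a small multipole onto a pole. -/

namespace Pool.Agent.P.MP_40718a_co

lemma one3_iff (b : Fin 3 → Bool) : one3 (b 0) (b 1) (b 2) = true ↔ ∃! i, b i = true := by
  revert b
  simp only [ExistsUnique]
  decide

lemma exists_bits (f : ℕ → Bool) (M : ℕ) : ∃ Z < 2 ^ M, ∀ i < M, Z.testBit i = f i :=
  ⟨Nat.ofBits (fun i : Fin M => f i), Nat.ofBits_lt_two_pow _,
    fun i hi => Nat.testBit_ofBits_lt _ i hi⟩

open Classical in
/-- Indicator of a proposition. -/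
noncomputable def ind (p : Prop) : ℕ := if p then 1 else 0

lemma ind_pos {p : Prop} (h : p) : ind p = 1 := if_pos h
lemma ind_neg {p : Prop} (h : ¬ p) : ind p = 0 := if_neg h
lemma ind_congr {p q : Prop} (h : p ↔ q) : ind p = ind q := by rw [propext h]

lemma cntB_eq' (f : ℕ → Bool) (n : ℕ) : cntB f n = ∑ p : Fin n, ind (f p = true) := by
  rw [cntB_eq]
  refine Finset.sum_congr rfl fun p _ => ?_
  cases f p
  · simp [ind]
  · simp [ind]

/-- Is the point inside the set coded by `Z`. -/
def inside (k Z p : ℕ) : Bool := Z.testBit (bif Nat.blt p k then p else k + (p - k) / 3)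

/-- The set coded by `Z` cannot be the trace of a bridge. -/
noncomputable def okZ (k n : ℕ) (ι : ℕ → ℕ) (l : ℕ) (Cl : List (List ℕ)) (Z : ℕ) : Bool :=
  Nat.ble 2 (cntB (fun p => inside k Z p && !inside k Z (ι p)) (k + 3 * n)) ||
    ((fun s => Nat.ble s l && Nat.blt 0 s &&
      Cl.any fun K => K.all Z.testBit && Nat.blt s (K.length + 2))
      (1 - cntB (fun p => inside k Z p && !inside k Z (ι p)) (k + 3 * n) + cntB Z.testBit k))

/-- The reducer creates no bridge. -/
noncomputable def safe (k n : ℕ) (ι : ℕ → ℕ) (l : ℕ) (Cl : List (List ℕ)) : Bool :=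
  allB (fun Z => okZ k n ι l Cl Z || okZ k n ι l Cl (Z ^^^ (2 ^ (k + n) - 1))) (2 ^ (k + n))

namespace DG
variable {V : Type} (G : DG V)

/-- The number of edges leaving `X`. -/
noncomputable def cut [Fintype V] (X : Set V) : ℕ :=
  ∑ d : V × Fin 3, ind (d.1 ∈ X ∧ (G.σ d).1 ∉ X)

/-- No bridge. -/
def Bridgeless [Fintype V] : Prop := ∀ X, G.cut X ≠ 1

lemma cut_compl [Fintype V] (X : Set V) : G.cut Xᶜ = G.cut X := by
  classical
  unfold cut
  refine (Equiv.sum_comp (Function.Involutive.toPerm G.σ G.inv) _).symm.trans ?_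
  refine Finset.sum_congr rfl fun d _ => ind_congr ?_
  change (G.σ d).1 ∈ Xᶜ ∧ (G.σ (G.σ d)).1 ∉ Xᶜ ↔ _
  simp [G.inv, and_comm]

/-- Internal darts of a side. -/
abbrev Int (R : Set V) : Type := {d : V × Fin 3 // d.1 ∈ R ∧ (G.σ d).1 ∈ R}

variable {G}

open Classical in
lemma Pole.cut_eq [Fintype V] {R : Set V} {k : ℕ} {β : ℕ → V × Fin 3} (hP : G.Pole R k β)
    {X : Set V} (hX : X ⊆ R) : G.cut X =
      (∑ d : G.Int R, ind (d.1.1 ∈ X ∧ (G.σ d.1).1 ∉ X)) +
        ∑ t : Fin k, ind ((β t).1 ∈ X) := by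
  refine Eq.trans ?_ (Fintype.sum_sum_type (fun z : G.Int R ⊕ Fin k => Sum.elim
    (fun d : G.Int R => ind (d.1.1 ∈ X ∧ (G.σ d.1).1 ∉ X))
    (fun t : Fin k => ind ((β t).1 ∈ X)) z))
  symm
  refine Fintype.sum_of_injective (Sum.elim Subtype.val fun t : Fin k => β t) ?_ _ _ ?_ ?_
  · rintro (d | s) (e | t) h
    · exact congrArg _ (Subtype.ext h)
    · exact absurd (by have := d.2.2; rwa [show d.1 = β t from h] at this) (hP.out t t.2)
    · exact absurd (by have := e.2.2; rwa [← show β s = e.1 from h] at this) (hP.out s s.2)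
    · exact congrArg _ (Fin.ext (hP.inj _ s.2 _ t.2 h))
  · intro d hd
    refine ind_neg ?_
    rintro ⟨h1, -⟩
    by_cases h : (G.σ d).1 ∈ R
    · exact hd ⟨.inl ⟨d, hX h1, h⟩, rfl⟩
    · obtain ⟨t, ht, e⟩ := hP.surj d (hX h1) h
      exact hd ⟨.inr ⟨t, ht⟩, e⟩
  · rintro (d | t)
    · rfl
    · have := mt (@hX _) (hP.out t t.2)
      exact ind_congr (by simp [this])

lemma Pole.real_of [Finite V] {R : Set V} {k : ℕ} {β : ℕ → V × Fin 3} (hP : G.Pole R k β)
    (L : List (V → Fin 3)) {xs : List ℕ} (h1 : List.Forall₂ (G.Tr R k β) L xs) (h2 : Good R L) :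
    hP.sys.Real xs := ⟨L, h1, h2⟩

section glue
variable {R : Set V} {k : ℕ} {β : ℕ → V × Fin 3} (hP : G.Pole R k β) (n : ℕ)

/-- Darts of the glued graph. -/
def Pole.psi : G.Int R ⊕ Fin (k + 3 * n) → (R ⊕ Fin n) × Fin 3
  | .inl d => (.inl ⟨d.1.1, d.2.1⟩, d.1.2)
  | .inr p => if h : p.1 < k then (.inl ⟨(β p).1, hP.mem p h⟩, (β p).2)
      else (.inr ⟨(p - k) / 3, by omega⟩, ⟨(p - k) % 3, by omega⟩)

lemma Pole.psi_bij : Function.Bijective (hP.psi n) := by
  constructor
  · rintro (d | p) (e | q) h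
    · simp only [Pole.psi, Prod.mk.injEq, Sum.inl.injEq, Subtype.mk.injEq] at h
      exact congrArg _ (Subtype.ext (Prod.ext h.1 h.2))
    · simp only [Pole.psi] at h
      split_ifs at h with hq
      · simp only [Prod.mk.injEq, Sum.inl.injEq, Subtype.mk.injEq] at h
        have := d.2.2
        rw [show d.1 = β q from Prod.ext h.1 h.2] at this
        exact absurd this (hP.out q hq)
      · simp at h
    · simp only [Pole.psi] at h
      split_ifs at h with hp
      · simp only [Prod.mk.injEq, Sum.inl.injEq, Subtype.mk.injEq] at h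
        have := e.2.2
        rw [← show β p = e.1 from Prod.ext h.1 h.2] at this
        exact absurd this (hP.out p hp)
      · simp at h
    · simp only [Pole.psi] at h
      split_ifs at h with hp hq hq
      · simp only [Prod.mk.injEq, Sum.inl.injEq, Subtype.mk.injEq] at h
        exact congrArg _ (Fin.ext (hP.inj _ hp _ hq (Prod.ext h.1 h.2)))
      · simp at h
      · simp at h
      · simp only [Prod.mk.injEq, Sum.inr.injEq, Fin.mk.injEq] at h
        exact congrArg _ (Fin.ext (by omega))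
  · rintro ⟨⟨v, hv⟩ | v, i⟩
    · by_cases h : (G.σ (v, i)).1 ∈ R
      · exact ⟨.inl ⟨(v, i), hv, h⟩, rfl⟩
      · obtain ⟨t, ht, e⟩ := hP.surj (v, i) hv h
        refine ⟨.inr ⟨t, by omega⟩, ?_⟩
        simp [Pole.psi, ht, e]
    · refine ⟨.inr ⟨k + 3 * v + i, by omega⟩, ?_⟩
      have : ¬ (k + 3 * v + i < k) := by omega
      simp only [Pole.psi, this, dite_false, Prod.mk.injEq, Sum.inr.injEq]
      exact ⟨Fin.ext (by simp only; omega), Fin.ext (by simp only; omega)⟩

variable {n} {ι : ℕ → ℕ} (hι : tblOK (k + 3 * n) ι = true)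

/-- The involution on internal darts and points. -/
def tau : G.Int R ⊕ Fin (k + 3 * n) → G.Int R ⊕ Fin (k + 3 * n)
  | .inl d => .inl ⟨G.σ d.1, d.2.2, by rw [G.inv]; exact d.2.1⟩
  | .inr p => .inr ⟨ι p, (tblOK_spec hι p p.2).1⟩

/-- The glued graph. -/
noncomputable def Pole.glued : DG (R ⊕ Fin n) where
  σ := fun d => hP.psi n (tau hι ((Equiv.ofBijective _ (hP.psi_bij n)).symm d))
  inv := by
    intro d
    obtain ⟨z, rfl⟩ := (hP.psi_bij n).2 d
    simp only [Equiv.ofBijective_symm_apply_apply]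
    congr 1
    rcases z with d | p
    · simp [tau, G.inv]
    · simp [tau, (tblOK_spec hι p p.2).2.1]
  ne := by
    intro d
    obtain ⟨z, rfl⟩ := (hP.psi_bij n).2 d
    simp only [Equiv.ofBijective_symm_apply_apply]
    intro h
    have := (hP.psi_bij n).1 h
    rcases z with d | p
    · simp only [tau, Sum.inl.injEq] at this
      exact G.ne _ (congrArg Subtype.val this)
    · simp only [tau, Sum.inr.injEq] at this
      exact (tblOK_spec hι p p.2).2.2 (congrArg Fin.val this)

lemma Pole.glued_psi (z) : (hP.glued hι).σ (hP.psi n z) = hP.psi n (tau hι z) := by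
  simp [Pole.glued]

lemma Pole.glued_real [Finite V] (hC : (hP.glued hι).Cover) {test : List ℕ → Bool}
    (h : chk (2 ^ (k + 3 * n) - 1) (fun M => test (M.map (· % 2 ^ k))) 6 (pms k n ι) 0 0 []
      = true) : ∃ xs, xs.length = 6 ∧ test xs = true ∧ hP.sys.Real xs := by
  classical
  obtain ⟨L, h1, h2, h3⟩ := hC
  have hex : ∀ m : R ⊕ Fin n → Fin 3, ∃ c, m ∈ L → c ∈ pms k n ι ∧ ∀ p : Fin (k + 3 * n),
      c.testBit p = decide (m (hP.psi n (.inr p)).1 = (hP.psi n (.inr p)).2) := by
    intro m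
    by_cases hm : m ∈ L
    swap
    · exact ⟨0, fun h => absurd h hm⟩
    obtain ⟨c, c1, c2, -⟩ := allCodes_complete ι (fun p => if h : p < k + 3 * n then
      decide (m (hP.psi n (.inr ⟨p, h⟩)).1 = (hP.psi n (.inr ⟨p, h⟩)).2) else false) (k + 3 * n)
      (by
        intro p hp
        simp only [hp, (tblOK_spec hι p hp).1, dite_true, decide_eq_decide]
        have e := hP.glued_psi hι (.inr ⟨p, hp⟩)
        simp only [tau] at e
        rw [← e]
        refine ⟨fun h => ?_, h2 m hm _⟩
        have := h2 m hm _ h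
        rwa [DG.inv] at this)
    refine ⟨c, fun _ => ⟨List.mem_filter.2 ⟨c1, allB_spec.2 fun v hv => ?_⟩, fun p => ?_⟩⟩
    · have e : ∀ i : Fin 3, c.testBit (k + 3 * v + i) = decide (m (.inr ⟨v, hv⟩) = i) := by
        intro i
        have a1 : k + 3 * v + i < k + 3 * n := by omega
        have a2 : ¬ (k + 3 * v + i < k) := by omega
        have a3 : (k + 3 * v + i - k) / 3 = v := by omega
        have a4 : (k + 3 * v + i - k) % 3 = i := by omega
        rw [c2 _ a1]
        simp [a1, Pole.psi, a2, a3, a4]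
      have := (one3_iff fun i => c.testBit (k + 3 * v + i)).2 (by simp [e])
      simpa using this
    · rw [c2 p p.2]; simp
  choose cd hcd using hex
  obtain ⟨M, m1, m2⟩ := chk_spec 6 _ _ _ _ h (L.map cd) (by simp [h1])
    (by
      intro c hc
      obtain ⟨m, hm, rfl⟩ := List.mem_map.1 hc
      exact (hcd m hm).1)
    (by
      intro p hp
      refine ⟨by simp, ?_⟩
      rw [List.countP_map, ← h3 (hP.psi n (.inr ⟨p, hp⟩))]
      simp only [mult, Nat.zero_testBit, Bool.false_eq_true, if_false, zero_add]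
      exact List.countP_congr fun m hm => by
        simp only [Function.comp, (hcd m hm).2 ⟨p, hp⟩])
  rw [List.append_nil] at m1
  refine ⟨_, by rw [List.length_map, m1.length_eq]; simp [h1], m2, ?_⟩
  refine Sys.Real.perm _ ?_ (m1.map _).symm
  let res : (R ⊕ Fin n → Fin 3) → V → Fin 3 := fun m v =>
    if h : v ∈ R then m (.inl ⟨v, h⟩) else 0
  refine hP.real_of (L.map res) ?_ ?_
  · rw [List.map_map, List.forall₂_map_left_iff, List.forall₂_map_right_iff, List.forall₂_same]
    intro m hm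
    constructor
    · intro d a1 a2 a3
      have := h2 m hm (hP.psi n (.inl ⟨d, a1, a2⟩)) (by simpa [res, a1, Pole.psi] using a3)
      rw [hP.glued_psi] at this
      simpa [res, a2, Pole.psi, tau] using this
    · intro t ht
      have := (hcd m hm).2 ⟨t, by omega⟩
      simp only [Function.comp, Nat.testBit_mod_two_pow, ht, decide_true, Bool.true_and]
      rw [this]
      simp [res, hP.mem t ht, Pole.psi, ht]
  · intro d hd
    rw [List.countP_map, ← h3 (.inl ⟨d.1, hd⟩, d.2)]
    exact List.countP_congr fun m _ => by simp [res, hd]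

lemma Pole.glued_bridgeless [Fintype V] [Fintype R] {l : ℕ} {Cl : List (List ℕ)}
    (hs : safe k n ι l Cl = true)
    (hl : ∀ X ⊆ R, G.cut X ≤ l → G.cut X = 0 ∨ X.ncard + 2 ≤ G.cut X)
    (hCl : ∀ K ∈ Cl, (∀ t ∈ K, t < k) ∧ (K.map fun t => (β t).1).Nodup) :
    (hP.glued hι).Bridgeless := by
  classical
  have key : ∀ (Y : Set (R ⊕ Fin n)) (Z : ℕ), (hP.glued hι).cut Y = 1 →
      (∀ p : Fin (k + 3 * n), inside k Z p = true ↔ (hP.psi n (.inr p)).1 ∈ Y) →
      okZ k n ι l Cl Z = false := by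
    intro Y Z hY hZ
    let X : Set V := {v | ∃ h : v ∈ R, Sum.inl ⟨v, h⟩ ∈ Y}
    have hXR : X ⊆ R := fun v hv => hv.1
    have hb : ∀ t < k, (Z.testBit t = true ↔ (β t).1 ∈ X) := by
      intro t ht
      have := hZ ⟨t, by omega⟩
      have e : Nat.blt t k = true := by simpa using ht
      simp only [inside, e, cond_true, Pole.psi, ht, dite_true] at this
      simp [this, X, hP.mem t ht]
    have e1 := hP.cut_eq hXR
    have e2 : cntB Z.testBit k = ∑ t : Fin k, ind ((β t).1 ∈ X) := by
      rw [cntB_eq']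
      exact Finset.sum_congr rfl fun t _ => ind_congr (hb t t.2)
    have e3 : (hP.glued hι).cut Y =
        (∑ d : G.Int R, ind (d.1.1 ∈ X ∧ (G.σ d.1).1 ∉ X)) +
        cntB (fun p => inside k Z p && !inside k Z (ι p)) (k + 3 * n) := by
      unfold cut
      rw [← Equiv.sum_comp (Equiv.ofBijective _ (hP.psi_bij n)), Fintype.sum_sum_type, cntB_eq']
      simp only [Equiv.ofBijective_apply, hP.glued_psi]
      congr 1
      · refine Finset.sum_congr rfl fun d _ => ind_congr ?_
        simp [Pole.psi, tau, X, d.2.1, d.2.2]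
      · refine Finset.sum_congr rfl fun p _ => ind_congr ?_
        have := hZ ⟨ι p, (tblOK_spec hι p p.2).1⟩
        simp only [tau, ← hZ p, ← this]
        simp
    rw [← e2] at e1
    rw [hY] at e3
    unfold okZ
    generalize cntB (fun p => inside k Z p && !inside k Z (ι p)) (k + 3 * n) = c at e3 ⊢
    have e4 : 1 - c + cntB Z.testBit k = G.cut X := by omega
    rw [e4]
    by_contra hne
    simp only [Bool.not_eq_false, Bool.or_eq_true, Nat.ble_eq, Bool.and_eq_true, Nat.blt_eq,
      List.any_eq_true, List.all_eq_true] at hne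
    rcases hne with h | ⟨⟨h1, h2⟩, K, hK, h3, h4⟩
    · omega
    · obtain ⟨a1, a2⟩ := hCl K hK
      have : K.length ≤ X.ncard := by
        rw [← List.length_map (fun t => (β t).1), ← List.toFinset_card_of_nodup a2,
          ← Set.ncard_coe_finset]
        refine Set.ncard_le_ncard ?_
        intro v hv
        simp only [List.coe_toFinset, List.mem_map, Set.mem_ofPred_eq] at hv
        obtain ⟨t, ht, rfl⟩ := hv
        exact (hb t (a1 t ht)).1 (h3 t ht)
      have := hl X hXR h1
      omega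
  intro Y hY
  obtain ⟨Z, hZ, hZ'⟩ := exists_bits (fun i => if h : i < k then
    decide (Sum.inl ⟨(β i).1, hP.mem i h⟩ ∈ Y) else if h : i - k < n then
    decide (Sum.inr ⟨i - k, h⟩ ∈ Y) else false) (k + n)
  have h1 : ∀ p : Fin (k + 3 * n), inside k Z p = true ↔ (hP.psi n (.inr p)).1 ∈ Y := by
    intro p
    by_cases hp : p.1 < k
    · have e : Nat.blt p k = true := by simpa using hp
      simp [inside, e, hZ' p (by omega), Pole.psi, hp]
    · have e : Nat.blt p k = false := by
        rw [← Bool.not_eq_true, Nat.blt_eq]; exact hp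
      have a1 : (p - k) / 3 < n := by omega
      simp [inside, e, hZ' (k + (p - k) / 3) (by omega), Pole.psi, hp, a1]
  have h2 : ∀ p : Fin (k + 3 * n), inside k (Z ^^^ (2 ^ (k + n) - 1)) p = true ↔
      (hP.psi n (.inr p)).1 ∈ Yᶜ := by
    intro p
    have a1 : (bif Nat.blt p k then p.1 else k + (p - k) / 3) < k + n := by
      cases e : Nat.blt p k
      · have : ¬ p.1 < k := fun h => by simp [Nat.blt_eq.mpr h] at e
        simp only [cond_false]; omega
      · have : p.1 < k := Nat.blt_eq.mp e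
        simp only [cond_true]; omega
    have := h1 p
    unfold inside at this ⊢
    rw [Nat.testBit_xor, Set.mem_compl_iff, ← this, Nat.testBit_two_pow_sub_one]
    simp [a1]
  have := allB_spec.1 hs Z hZ
  rw [key Y Z hY h1, key Yᶜ _ (by rw [cut_compl, hY]) h2] at this
  cases this

end glue

/-- Smaller bridgeless graphs have covers. -/
def Small (N : ℕ) : Prop := ∀ (W : Type) [Fintype W] (H : DG W),
  Fintype.card W < N → H.Bridgeless → H.Cover

theorem Pole.reduce [Fintype V] {R : Set V} {k : ℕ} {β : ℕ → V × Fin 3} (hP : G.Pole R k β)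
    {n : ℕ} {ι : ℕ → ℕ} (hι : tblOK (k + 3 * n) ι = true) {l : ℕ} {Cl : List (List ℕ)}
    (hs : safe k n ι l Cl = true)
    (hl : ∀ X ⊆ R, G.cut X ≤ l → G.cut X = 0 ∨ X.ncard + 2 ≤ G.cut X)
    (hCl : ∀ K ∈ Cl, (∀ t ∈ K, t < k) ∧ (K.map fun t => (β t).1).Nodup)
    (IH : Small (Fintype.card V)) (hn : n < Rᶜ.ncard) {test : List ℕ → Bool}
    (h : chk (2 ^ (k + 3 * n) - 1) (fun M => test (M.map (· % 2 ^ k))) 6 (pms k n ι) 0 0 []
      = true) : ∃ xs, xs.length = 6 ∧ test xs = true ∧ hP.sys.Real xs := by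
  classical
  refine hP.glued_real hι (IH _ _ ?_ (hP.glued_bridgeless hι hs hl hCl)) h
  have := Set.ncard_add_ncard_compl R
  rw [Nat.card_eq_fintype_card] at this
  rw [Fintype.card_sum, Fintype.card_fin, ← Nat.card_eq_fintype_card, Nat.card_coe_set_eq]
  omega

end DG

end Pool.Agent.P.MP_40718a_co
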