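import Pool.Agent.P.MP_40718a_co.Cuts

/-! Truncation: from arbitrary graphs to cubic multigraphs. -/

namespace Pool.Agent.P.MP_40718a_co

open Equiv SimpleGraph

theorem exists_perm_fibres {D W : Type} [Finite D] (f : D → W) :
    ∃ σ : Perm D, ∀ d d' : D, σ.SameCycle d d' ↔ f d = f d' := by
  classical
  have h : ∀ w : W, ∃ τ : Perm {d // f d = w}, τ.IsCycleOn Set.univ := fun w =>
    let ⟨τ, hτ, _⟩ := (Set.to_countable (Set.univ : Set {d // f d = w})).exists_cycleOn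
    ⟨τ, hτ⟩
  choose τ hτ using h
  let e := Equiv.sigmaFiberEquiv f
  let ρ : Perm (Σ w, {d // f d = w}) := Perm.sigmaCongrRight τ
  have hρ : ∀ (n : ℤ) (x : Σ w, {d // f d = w}), (ρ ^ n) x = ⟨x.1, ((τ x.1) ^ n) x.2⟩ := by
    intro n x
    have : ρ ^ n = Perm.sigmaCongrRight (fun w => (τ w) ^ n) := by
      have h1 : ρ = Perm.sigmaCongrRightHom (fun w => {d // f d = w}) τ := rfl
      rw [h1, ← map_zpow]
      rfl
    rw [this]
    rfl
  have key : ∀ x y : Σ w, {d // f d = w}, ρ.SameCycle x y ↔ x.1 = y.1 := by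
    rintro ⟨w, a⟩ ⟨w', b⟩
    constructor
    · rintro ⟨n, hn⟩
      rw [hρ] at hn
      have h2 := congrArg Sigma.fst hn
      exact h2
    · intro h
      dsimp only at h
      subst h
      obtain ⟨n, hn⟩ := (hτ w).2 (Set.mem_univ a) (Set.mem_univ b)
      exact ⟨n, by rw [hρ]; dsimp only; rw [hn]⟩
  refine ⟨e.permCongr ρ, fun d d' => ?_⟩
  have hz : ∀ (n : ℤ) (x : D), ((e.permCongr ρ) ^ n) x = e ((ρ ^ n) (e.symm x)) := by
    intro n x
    have : (e.permCongr ρ) ^ n = e.permCongr (ρ ^ n) := by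
      have h1 : ∀ p : Perm (Σ w, {d // f d = w}), e.permCongr p = e.permCongrHom p := fun _ => rfl
      rw [h1, h1, map_zpow]
    rw [this]
    rfl
  have h1 : (e.permCongr ρ).SameCycle d d' ↔ ρ.SameCycle (e.symm d) (e.symm d') := by
    constructor
    · rintro ⟨n, hn⟩
      refine ⟨n, ?_⟩
      rw [hz] at hn
      rw [← hn, Equiv.symm_apply_apply]
    · rintro ⟨n, hn⟩
      refine ⟨n, ?_⟩
      rw [hz, hn, Equiv.apply_symm_apply]
  rw [h1, key]
  rfl

variable {V : Type} {G : SimpleGraph V} (ρ : Perm G.Dart)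

/-- The dart involution of the truncation. -/
def truncS (x : G.Dart × Fin 3) : G.Dart × Fin 3 :=
  if x.2 = 0 then (x.1.symm, 0) else if x.2 = 1 then (ρ x.1, 2) else (ρ.symm x.1, 1)

@[simp] lemma truncS0 (d : G.Dart) : truncS ρ (d, 0) = (d.symm, 0) := rfl
@[simp] lemma truncS1 (d : G.Dart) : truncS ρ (d, 1) = (ρ d, 2) := rfl
@[simp] lemma truncS2 (d : G.Dart) : truncS ρ (d, 2) = (ρ.symm d, 1) := rfl

lemma fin3 (i : Fin 3) : i = 0 ∨ i = 1 ∨ i = 2 := by revert i; decide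

/-- The truncation along a rotation. -/
def trunc : DG G.Dart where
  σ := truncS ρ
  inv := by rintro ⟨d, i⟩; rcases fin3 i with rfl | rfl | rfl <;> simp
  ne := by
    rintro ⟨d, i⟩
    rcases fin3 i with rfl | rfl | rfl <;> simp [Dart.symm_ne]

variable [Fintype G.Dart] (hρ : ∀ d d', ρ.SameCycle d d' ↔ d.fst = d'.fst)
include hρ

lemma trunc_bridgeless (h : ∀ e ∈ G.edgeSet, (G.deleteEdges {e}).Connected) :
    (trunc ρ).Bridgeless := by
  classical
  intro X hX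
  rw [DG.cut_eq_ncard, Set.ncard_eq_one] at hX
  obtain ⟨⟨d, i⟩, hd⟩ := hX
  have key : ∀ x : G.Dart × Fin 3, x.1 ∈ X ∧ (truncS ρ x).1 ∉ X ↔ x = (d, i) :=
    fun x => Set.ext_iff.1 hd x
  have inv : ∀ f : Perm G.Dart, (∀ x ∈ X, f x ∈ X) → ∀ x ∈ X, f.symm x ∈ X := by
    intro f hf x hx
    obtain ⟨y, hy, rfl⟩ := ((Set.Finite.injOn_iff_bijOn_of_mapsTo (Set.toFinite X) hf).1
      f.injective.injOn).surjOn hx
    simpa using hy
  have h1 : ∀ x ∈ X, ρ x ∈ X := by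
    by_contra hc
    push Not at hc
    obtain ⟨x, a1, a2⟩ := hc
    have e := (key (x, 1)).1 ⟨a1, a2⟩
    refine a2 (inv ρ.symm (fun y hy => ?_) x a1)
    by_contra a3
    have := (key (y, 2)).1 ⟨hy, a3⟩
    rw [← e] at this
    simp at this
  have h2 := inv ρ h1
  have h3 : ∀ x ∈ X, ∀ y, x.fst = y.fst → y ∈ X := by
    intro x hx y hy
    obtain ⟨n, rfl⟩ := ((hρ x y).2 hy).exists_nat_pow_eq
    clear hy
    induction n with
    | zero => simpa using hx
    | succ n ih => rw [pow_succ']; exact h1 _ ih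
  obtain ⟨a1, a2⟩ := (key (d, i)).2 rfl
  have hi : i = 0 := by
    rcases fin3 i with rfl | rfl | rfl
    · rfl
    · exact absurd (h1 _ a1) a2
    · exact absurd (h2 _ a1) a2
  subst hi
  have h4 : ∀ u v, (G.deleteEdges {d.edge}).Reachable u v → (∃ x ∈ X, x.fst = u) →
      ∃ x ∈ X, x.fst = v := by
    rintro u v ⟨w⟩
    induction w with
    | nil => exact id
    | @cons u u' v ha w ih =>
      rintro ⟨x, b1, b2⟩
      rw [deleteEdges_adj] at ha
      let y : G.Dart := ⟨(u, u'), ha.1⟩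
      refine ih ⟨y.symm, ?_, rfl⟩
      by_contra b3
      have := (key (y, 0)).1 ⟨h3 x b1 y b2, b3⟩
      exact ha.2 (by rw [← (Prod.mk.inj this).1]; rfl)
  obtain ⟨x, b1, b2⟩ := h4 d.fst d.snd ((h _ d.edge_mem).preconnected _ _) ⟨d, a1, rfl⟩
  exact a2 (h3 x b1 _ b2)

lemma trunc_cover (h : (trunc ρ).Cover) : ∃ S : Fin 6 → Set (Sym2 V), (∀ i, S i ⊆ G.edgeSet) ∧
    (∀ (i : Fin 6) (v : V), Even (Set.ncard {e : Sym2 V | e ∈ S i ∧ v ∈ e})) ∧
    (∀ e ∈ G.edgeSet, Set.ncard {i : Fin 6 | e ∈ S i} = 4) := by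
  classical
  obtain ⟨L, h1, h2, h3⟩ := h
  let m : Fin 6 → G.Dart → Fin 3 := fun j => L[j.1]'(by omega)
  have hm : ∀ j x, m j x.1 = x.2 → m j (truncS ρ x).1 = (truncS ρ x).2 :=
    fun j => h2 _ (List.getElem_mem _)
  have hs : ∀ j d, m j d.symm = 0 ↔ m j d = 0 := fun j d =>
    ⟨fun h => by simpa using hm j (d.symm, 0) h, fun h => hm j (d, 0) h⟩
  have hS : ∀ j (d : G.Dart), (∃ x : G.Dart, x.edge = d.edge ∧ m j x ≠ 0) ↔ m j d ≠ 0 := by
    intro j d
    refine ⟨?_, fun h => ⟨d, rfl, h⟩⟩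
    rintro ⟨x, a1, a2⟩
    rcases (dart_edge_eq_iff x d).1 a1 with rfl | rfl
    · exact a2
    · exact mt (hs j d).2 a2
  refine ⟨fun j => {e | ∃ x : G.Dart, x.edge = e ∧ m j x ≠ 0}, ?_, ?_, ?_⟩
  · rintro j e ⟨x, rfl, -⟩; exact x.edge_mem
  · intro j v
    have e1 : {e : Sym2 V | e ∈ {e | ∃ x : G.Dart, x.edge = e ∧ m j x ≠ 0} ∧ v ∈ e} =
        Dart.edge '' {x | x.fst = v ∧ m j x ≠ 0} := by
      ext e
      constructor
      · rintro ⟨⟨x, rfl, a1⟩, a2⟩
        rcases Sym2.mem_iff.1 (show v ∈ s(x.fst, x.snd) from a2) with rfl | rfl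
        · exact ⟨x, ⟨rfl, a1⟩, rfl⟩
        · exact ⟨x.symm, ⟨rfl, mt (hs j x).1 a1⟩, x.edge_symm⟩
      · rintro ⟨x, ⟨rfl, a1⟩, rfl⟩
        exact ⟨⟨x, rfl, a1⟩, Sym2.mem_mk_left _ _⟩
    have e2 : {x : G.Dart | x.fst = v ∧ m j x ≠ 0} =
        {x | x.fst = v ∧ m j x = 1} ∪ ρ '' {x | x.fst = v ∧ m j x = 1} := by
      ext x
      constructor
      · rintro ⟨a1, a2⟩
        rcases fin3 (m j x) with a3 | a3 | a3
        · exact absurd a3 a2
        · exact Or.inl ⟨a1, a3⟩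
        · refine Or.inr ⟨ρ.symm x, ⟨?_, hm j (x, 2) a3⟩, by simp⟩
          rw [← a1, ← hρ]
          exact ⟨1, by simp⟩
      · rintro (⟨a1, a2⟩ | ⟨y, ⟨a1, a2⟩, rfl⟩)
        · exact ⟨a1, by simp [a2]⟩
        · refine ⟨?_, by simp [show m j (ρ y) = 2 from hm j (y, 1) a2]⟩
          rw [← a1, eq_comm, ← hρ]
          exact ⟨1, by simp⟩
    rw [e1, Set.InjOn.ncard_image, e2, Set.ncard_union_eq,
      Set.ncard_image_of_injective _ ρ.injective]
    · exact ⟨_, rfl⟩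
    · rw [Set.disjoint_left]
      rintro _ ⟨-, a1⟩ ⟨y, ⟨-, a2⟩, rfl⟩
      have := hm j (y, 1) a2
      simp [a1] at this
    · rintro x ⟨a1, -⟩ y ⟨a2, -⟩ e
      rcases (dart_edge_eq_iff x y).1 e with rfl | rfl
      · rfl
      · exact absurd (a2.trans a1.symm) y.adj.ne
  · intro e he
    induction e with
    | _ u v =>
    let d : G.Dart := ⟨(u, v), he⟩
    have : {j | s(u, v) ∈ {e | ∃ x : G.Dart, x.edge = e ∧ m j x ≠ 0}} = {j | m j d ≠ 0} :=
      Set.ext fun j => hS j d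
    rw [this, Set.ncard_eq_toFinset_card', Set.toFinset_ofPred]
    have a1 := h3 (d, 0)
    have a2 : L = List.ofFn m := by
      apply List.ext_getElem (by simp [h1])
      intro i _ _
      rw [List.getElem_ofFn]
    have c : ∀ c : Fin 6 → Bool, (List.ofFn c).countP (fun x => x) = 2 →
      (Finset.univ.filter fun j => ¬ c j = true).card = 4 := by decide
    rw [a2, List.ofFn_eq_map, List.countP_map] at a1
    have := c (fun j => decide (m j d = 0)) (by rw [List.ofFn_eq_map, List.countP_map]; exact a1)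
    simpa using this

end Pool.Agent.P.MP_40718a_co
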