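import Pool.Agent.P.MP_40718a_co.Orb
import Pool.Agent.P.MP_40718a_co.Trunc

/-! The truncation of an embedded graph carries a dual labelling. -/

namespace Pool.Agent.P.MP_40718a_co

open Function SimpleGraph

lemma DG.fam_of {V : Type} [Fintype V] [Nonempty V] {G : DG V} (hc : G.Conn Set.univ) {I : Type}
    [Fintype I] (ℓ r : V × Fin 3 → I) (h1 : ∀ s : I → ZMod 2, G.Ev fun d => s (ℓ d) + s (r d))
    (h2 : ∀ s : I → ZMod 2, (∀ d, s (ℓ d) = s (r d)) → ∀ i j, s i = s j) :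
    ∃ g, G.Fam (2 ^ g) ∧ 2 * g + 2 * Fintype.card I = Fintype.card V + 4 := by
  classical
  obtain ⟨m, m1, m2⟩ := DG.card_ev hc
  let Z : AddSubgroup (V × Fin 3 → ZMod 2) :=
    ⟨⟨⟨{x | G.Ev x}, DG.Ev.add⟩, by simp [DG.Ev, DG.bd]⟩, fun {x} h => by
      rwa [show -x = x from funext fun d => ZMod.neg_eq_self_mod_two _]⟩
  let c : (I → ZMod 2) →+ Z :=
    ⟨⟨fun s => ⟨fun d => s (ℓ d) + s (r d), h1 s⟩, by ext; simp⟩, fun s s' => by
    ext d; simp only [Pi.add_apply, AddSubgroup.coe_add]; ring⟩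
  have a1 := c.range.card_eq_card_quotient_mul_card_addSubgroup
  have a2 := c.ker.card_eq_card_quotient_mul_card_addSubgroup
  rw [Nat.card_congr (QuotientAddGroup.quotientKerEquivRange c).toEquiv, Nat.card_fun,
    Nat.card_zmod, Nat.card_eq_fintype_card (α := I)] at a2
  obtain ⟨v⟩ := ‹Nonempty V›
  have a3 : Nat.card c.ker ≤ Nat.card (ZMod 2) :=
    Nat.card_le_card_of_injective (fun s => s.1 (ℓ (v, 0))) fun s s' h => by
      have b : ∀ s : c.ker, ∀ i j, s.1 i = s.1 j := fun s =>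
        h2 _ fun d => z2_add.1 (congrFun (congrArg Subtype.val s.2) d)
      ext i
      rw [b s i, b s' i]
      exact h
  rw [Nat.card_zmod] at a3
  have a4 : Nat.card (Z ⧸ c.range) * 2 ^ Fintype.card I ≤ 2 ^ (m + 1) := by
    rw [pow_succ, ← m2, show Nat.card {x // G.Ev x} = _ from a1, a2, mul_assoc]
    gcongr
  have a5 : 0 < Nat.card (Z ⧸ c.range) := Nat.card_pos
  have a6 : Fintype.card I ≤ m + 1 := by
    rw [← Nat.pow_le_pow_iff_right (a := 2) (by norm_num)]
    exact (Nat.le_mul_of_pos_left _ a5).trans a4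
  obtain ⟨g, hg⟩ := Nat.exists_eq_add_of_le' a6
  rw [hg, pow_add, mul_le_mul_iff_left₀ (by positivity)] at a4
  obtain ⟨e⟩ : Nonempty ((Z ⧸ c.range) ↪ Fin (2 ^ g)) := by
    let _ := Fintype.ofFinite (Z ⧸ c.range)
    exact Embedding.nonempty_of_card_le (by rwa [Fintype.card_fin, ← Nat.card_eq_fintype_card])
  refine ⟨g, ⟨I, ℓ, r, fun x => e (if h : G.Ev x then QuotientAddGroup.mk ⟨x, h⟩ else 0), h1,
    fun x y hx hy h => ?_⟩, by omega⟩
  simp only [hx, hy, dite_true, e.apply_eq_iff_eq, QuotientAddGroup.eq] at h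
  obtain ⟨s, hs⟩ := h
  refine ⟨s, fun d => ?_⟩
  have := congrFun (congrArg Subtype.val hs) d
  simp only [AddSubgroup.coe_add, AddSubgroup.coe_neg, Pi.add_apply, Pi.neg_apply,
    ZMod.neg_eq_self_mod_two] at this
  exact this.symm

variable {V : Type} {G : SimpleGraph V} (ρ : Equiv.Perm G.Dart) [Fintype G.Dart]
  (hρ : ∀ d d', ρ.SameCycle d d' ↔ d.fst = d'.fst)
include hρ

lemma dart_conn (hG : G.Connected) (Y : G.Dart → Prop) (h1 : ∀ x, Y x → Y (ρ x))
    (h2 : ∀ x, Y x → Y x.symm) {x : G.Dart} (hx : Y x) (y : G.Dart) : Y y := by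
  have h3 : ∀ x, Y x → ∀ y, x.fst = y.fst → Y y := by
    intro x hx y hy
    obtain ⟨n, rfl⟩ := ((hρ x y).2 hy).exists_nat_pow_eq
    clear hy
    induction n with
    | zero => simpa using hx
    | succ n ih => rw [pow_succ']; exact h1 _ ih
  have h4 : ∀ u v, G.Reachable u v → (∃ x, Y x ∧ x.fst = u) → ∃ x, Y x ∧ x.fst = v := by
    rintro u v ⟨w⟩
    induction w with
    | nil => exact id
    | @cons u u' v ha w ih =>
      rintro ⟨x, b1, b2⟩
      exact ih ⟨_, h2 _ (h3 x b1 ⟨(u, u'), ha⟩ b2), rfl⟩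
  obtain ⟨z, b1, b2⟩ := h4 x.fst y.fst (hG.preconnected _ _) ⟨x, hx, rfl⟩
  exact h3 z b1 y b2

lemma trunc_fam [Fintype V] [Nonempty G.Dart] (hG : G.Connected) {C : Type} [Fintype C]
    (κ : G.Dart × Bool → C) (hκ : Surjective κ) (k1 : ∀ d, κ (ρ d, false) = κ (d, true))
    (k2 : ∀ d : G.Dart, (∀ b, κ (d.symm, b) = κ (d, b)) ∨ ∀ b, κ (d.symm, !b) = κ (d, b)) :
    ∃ g, (trunc ρ).Fam (2 ^ g) ∧
      2 * g + 2 * (Fintype.card C + Fintype.card V) = Fintype.card G.Dart + 4 := by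
  classical
  have a1 : ∀ d, (ρ d).fst = d.fst := fun d => ((hρ d _).1 ⟨1, by simp⟩).symm
  rw [← Fintype.card_sum]
  refine DG.fam_of (fun Y _ hY => ?_)
    (fun x => if x.2 = 0 then Sum.inl (κ (x.1, true)) else Sum.inr x.1.fst)
    (fun x => Sum.inl (κ (x.1, decide (x.2 = 1)))) (fun s => ⟨?_, fun d => ?_⟩) fun s hs => ?_
  · rcases Y.eq_empty_or_nonempty with h | ⟨x, hx⟩
    · exact Or.inl h
    · exact Or.inr (Set.eq_univ_of_forall (dart_conn ρ hρ hG (· ∈ Y)
        (fun x h => hY (x, 1) h trivial) (fun x h => hY (x, 0) h trivial) hx))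
  · rintro ⟨d, i⟩
    rcases fin3 i with rfl | rfl | rfl
    · rcases k2 d with h | h
      · simp [trunc, h]
      · simp [trunc, ← h true, ← h false, add_comm]
    · simp [trunc, a1, k1]
    · simp [trunc, ← a1 (ρ.symm d), ← k1]
  · have b1 := z2_self (s (.inl (κ (d, true))))
    have b2 := z2_self (s (.inl (κ (d, false))))
    have b3 := z2_self (s (.inr d.fst))
    simp only [DG.bd, if_true, show (1 : Fin 3) ≠ 0 by decide, show (2 : Fin 3) ≠ 0 by decide,
      if_false, show (2 : Fin 3) ≠ 1 by decide, show (0 : Fin 3) ≠ 1 by decide, decide_true,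
      decide_false]
    linear_combination b1 + b2 + b3
  · have b1 : ∀ d b, s (.inl (κ (d, b))) = s (.inr d.fst) := by
      intro d b
      cases b
      · simpa using (hs (d, 2)).symm
      · simpa using (hs (d, 1)).symm
    obtain ⟨x⟩ := ‹Nonempty G.Dart›
    have b2 := dart_conn ρ hρ hG (fun y => s (.inr y.fst) = s (.inr x.fst))
      (fun y h => by rwa [a1]) (fun y h => by
        rcases k2 y with c | c
        · rw [← b1 _ true, c, b1, h]
        · rw [← b1 _ (!true), c, b1, h]) rfl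
    have b3 : ∀ i, s i = s (.inr x.fst) := by
      rintro (c | v)
      · obtain ⟨⟨d, b⟩, rfl⟩ := hκ c
        rw [b1, b2]
      · by_cases c : v = x.fst
        · rw [c]
        · obtain ⟨w⟩ := hG.preconnected v x.fst
          cases w with
          | nil => rfl
          | cons h _ => exact b2 ⟨(_, _), h⟩
    exact fun i j => (b3 i).trans (b3 j).symm

end Pool.Agent.P.MP_40718a_co
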